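import Pool.Agent.L0h87.CL2.Prod

/-!
# Sums of bounded families over orthogonal projections
-/

set_option autoImplicit false

namespace Pool.Agent.L0h87.CL2

open Pool.Agent.R456.CL

universe u

variable {A : Type u} [CStarAlgebra A]

lemma unitary_of_sa {q a : A} (hq : PJ q) (ha : star a = a) (h1 : q * a = a) (h2 : a * q = a)
    (hn : ‖a‖ ≤ 1) : ∃ w : A, star w * w = q ∧ w * star w = q ∧
      a = (1 / 2 : ℂ) • (w + star w) := by
  let _ : PartialOrder A := CStarAlgebra.spectralOrder A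
  let _ : StarOrderedRing A := CStarAlgebra.spectralOrderedRing A
  have hpos : 0 ≤ 1 - a * a := by
    have h3 : star a * a ≤ algebraMap ℝ A (‖star a * a‖) :=
      IsSelfAdjoint.le_algebraMap_norm_self (IsSelfAdjoint.star_mul_self a)
    rw [ha] at h3
    have h4 : ‖a * a‖ ≤ 1 := by
      calc ‖a * a‖ ≤ ‖a‖ * ‖a‖ := norm_mul_le _ _
        _ ≤ 1 * 1 := by gcongr
        _ = 1 := one_mul 1
    have h5 : algebraMap ℝ A ‖a * a‖ ≤ 1 := by
      rw [Algebra.algebraMap_eq_smul_one]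
      calc ‖a * a‖ • (1 : A) ≤ (1 : ℝ) • (1 : A) := smul_le_smul_of_nonneg_right h4 zero_le_one
        _ = 1 := one_smul _ _
    exact sub_nonneg.2 (h3.trans h5)
  obtain ⟨s, hs⟩ : ∃ s : A, s = CFC.sqrt (1 - a * a) := ⟨_, rfl⟩
  have hss : s * s = 1 - a * a := by rw [hs]; exact CFC.sqrt_mul_sqrt_self _ hpos
  have hsst : star s = s := by
    rw [hs]; exact (IsSelfAdjoint.of_nonneg (CFC.sqrt_nonneg _)).star_eq
  have hsa : s * a = a * s := by
    have : Commute (1 - a * a) a := by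
      show (1 - a * a) * a = a * (1 - a * a)
      rw [sub_mul, mul_sub, one_mul, mul_one, mul_assoc]
    rw [hs]; exact (this.cfcₙ_nnreal NNReal.sqrt)
  have hsq : s * q = q * s := by
    have : Commute (1 - a * a) q := by
      show (1 - a * a) * q = q * (1 - a * a)
      rw [sub_mul, mul_sub, one_mul, mul_one, mul_assoc, h2, ← mul_assoc, h1]
    rw [hs]; exact (this.cfcₙ_nnreal NNReal.sqrt)
  have hqq := PJ.mul_self hq
  obtain ⟨U, hU⟩ : ∃ U : A, U = a + Complex.I • s := ⟨_, rfl⟩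
  have hUs : star U = a - Complex.I • s := by
    rw [hU, star_add, star_smul, ha, hsst]
    have : star Complex.I = -Complex.I := Complex.conj_I
    rw [this, neg_smul, ← sub_eq_add_neg]
  have hI : Complex.I * Complex.I = -1 := Complex.I_mul_I
  have e1 : star U * U = 1 := by
    rw [hUs, hU, sub_mul, mul_add, mul_add, mul_smul_comm, smul_mul_assoc, smul_mul_assoc,
      mul_smul_comm, smul_smul, hI, hss, hsa, neg_smul, one_smul]
    abel
  have e2 : U * star U = 1 := by
    rw [hUs, hU, add_mul, mul_sub, mul_sub, mul_smul_comm, smul_mul_assoc, smul_mul_assoc,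
      mul_smul_comm, smul_smul, hI, hss, hsa, neg_smul, one_smul]
    abel
  have e3 : U * q = q * U := by
    rw [hU, add_mul, mul_add, smul_mul_assoc, mul_smul_comm, hsq, h1, h2]
  refine ⟨U * q, ?_, ?_, ?_⟩
  · rw [star_mul, PJ.star hq]
    calc q * star U * (U * q) = q * (star U * U) * q := by simp only [mul_assoc]
      _ = q := by rw [e1, mul_one, hqq]
  · rw [star_mul, PJ.star hq]
    calc U * q * (q * star U) = (U * (q * q)) * star U := by simp only [mul_assoc]
      _ = q * (U * star U) := by rw [hqq, e3, mul_assoc]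
      _ = q := by rw [e2, mul_one]
  · have e4 : star (U * q) = star U * q := by
      rw [e3, star_mul, PJ.star hq]
    rw [e4, ← add_mul, hUs, hU]
    have : a + Complex.I • s + (a - Complex.I • s) = (2 : ℂ) • a := by
      rw [two_smul]; abel
    rw [this, smul_mul_assoc, h2, smul_smul]; norm_num

lemma bsum_sa (hAdd : PAdd A) {ι : Type u} {q : ι → A} {Q : A} (hq : ∀ i, PJ (q i))
    (ho : ∀ i j, i ≠ j → q i * q j = 0) (hQ : IsSup q Q) (x : ι → A)
    (hx1 : ∀ i, q i * x i = x i) (hx2 : ∀ i, x i * q i = x i) (hxs : ∀ i, star (x i) = x i)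
    (hn : ∀ i, ‖x i‖ ≤ 1) :
    ∃ y : A, Q * y = y ∧ y * Q = y ∧ (∀ i, y * q i = x i) ∧ (∀ i, q i * y = x i) := by
  choose w w1 w2 w3 using fun i => unitary_of_sa (hq i) (hxs i) (hx1 i) (hx2 i) (hn i)
  obtain ⟨v, v1, v2, v3⟩ := hAdd ι w Q Q (fun i => by rw [w1]; exact hq i)
    (fun i j hij => by rw [w1, w1]; exact ho i j hij)
    (fun i j hij => by rw [w2, w2]; exact ho i j hij) (by simp only [w1]; exact hQ)
    (by simp only [w2]; exact hQ)
  have hv3 : ∀ i, v * q i = w i := fun i => by rw [← w1 i]; exact v3 i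
  have hvQ : v * Q = v := pi_right hQ.1 v1
  have hQv : Q * v = v := pi_left hQ.1 v1 v2
  have hqv : ∀ i, q i * v = w i := by
    intro i
    have h1 : (v * q i) * star (v * q i) = q i := by rw [hv3, w2]
    rw [star_mul, PJ.star (hq i)] at h1
    calc q i * v = v * q i * (q i * star v) * v := by rw [h1]
      _ = v * (q i * q i) * (star v * v) := by simp only [mul_assoc]
      _ = w i := by rw [PJ.mul_self (hq i), v1, mul_assoc, hQ.2.1 i, hv3]
  have hsv : ∀ i, star v * q i = star (w i) := fun i => by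
    have := congrArg star (hqv i)
    rwa [star_mul, PJ.star (hq i)] at this
  have hqsv : ∀ i, q i * star v = star (w i) := fun i => by
    have := congrArg star (hv3 i)
    rwa [star_mul, PJ.star (hq i)] at this
  have hsvQ : star v * Q = star v := star_absorb_left hQ.1 hQv
  have hQsv : Q * star v = star v := star_absorb_right hQ.1 hvQ
  refine ⟨(1 / 2 : ℂ) • (v + star v), ?_, ?_, ?_, ?_⟩
  · rw [mul_smul_comm, mul_add, hQv, hQsv]
  · rw [smul_mul_assoc, add_mul, hvQ, hsvQ]
  · intro i; rw [smul_mul_assoc, add_mul, hv3, hsv, ← w3]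
  · intro i; rw [mul_smul_comm, mul_add, hqv, hqsv, ← w3]

theorem bsum (hAdd : PAdd A) {ι : Type u} {q : ι → A} {Q : A} (hq : ∀ i, PJ (q i))
    (ho : ∀ i j, i ≠ j → q i * q j = 0) (hQ : IsSup q Q) (x : ι → A)
    (hx1 : ∀ i, q i * x i = x i) (hx2 : ∀ i, x i * q i = x i) (C : ℝ)
    (hn : ∀ i, ‖x i‖ ≤ C) :
    ∃ y : A, Q * y = y ∧ y * Q = y ∧ (∀ i, y * q i = x i) ∧ (∀ i, q i * y = x i) := by
  obtain ⟨D, hD⟩ : ∃ D : ℝ, D = |C| + 1 := ⟨_, rfl⟩
  have hD0 : 0 < D := by rw [hD]; positivity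
  have hDn : ∀ i, ‖x i‖ ≤ D := fun i => (hn i).trans (by rw [hD]; linarith [le_abs_self C])
  have hDc : (D : ℂ) ≠ 0 := by exact_mod_cast hD0.ne'
  have hs1 : ∀ i, q i * star (x i) = star (x i) := fun i => star_absorb_right (hq i) (hx2 i)
  have hs2 : ∀ i, star (x i) * q i = star (x i) := fun i => star_absorb_left (hq i) (hx1 i)
  have hDr : star ((D : ℂ)⁻¹) = (D : ℂ)⁻¹ := by
    rw [star_inv₀]; congr 1; exact Complex.conj_ofReal D
  have hnD : ‖(D : ℂ)⁻¹‖ = D⁻¹ := by
    rw [norm_inv, Complex.norm_real, Real.norm_of_nonneg hD0.le]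
  -- real part
  obtain ⟨y1, a1, a2, a3, a4⟩ := bsum_sa hAdd hq ho hQ
    (fun i => (D : ℂ)⁻¹ • ((1 / 2 : ℂ) • (x i + star (x i))))
    (fun i => by simp only [mul_smul_comm, mul_add, hx1, hs1])
    (fun i => by simp only [smul_mul_assoc, add_mul, hx2, hs2])
    (fun i => by
      simp only [star_smul, star_add, star_star, hDr]
      rw [add_comm (star (x i))]; congr 2; simp)
    (fun i => by
      rw [norm_smul, norm_smul, hnD]
      have h1 : ‖x i + star (x i)‖ ≤ D + D := by
        refine (norm_add_le _ _).trans (add_le_add (hDn i) ?_)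
        rw [norm_star]; exact hDn i
      have h2 : ‖(1 / 2 : ℂ)‖ = 1 / 2 := by norm_num
      rw [h2]
      calc D⁻¹ * (1 / 2 * ‖x i + star (x i)‖) ≤ D⁻¹ * (1 / 2 * (D + D)) := by gcongr
        _ = 1 := by field_simp; ring)
  -- imaginary part
  obtain ⟨y2, b1, b2, b3, b4⟩ := bsum_sa hAdd hq ho hQ
    (fun i => (D : ℂ)⁻¹ • ((-(Complex.I / 2) : ℂ) • (x i - star (x i))))
    (fun i => by simp only [mul_smul_comm, mul_sub, hx1, hs1])
    (fun i => by simp only [smul_mul_assoc, sub_mul, hx2, hs2])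
    (fun i => by
      simp only [star_smul, star_sub, star_star, hDr]
      have : star (-(Complex.I / 2)) = Complex.I / 2 := by
        simp [Complex.conj_I, neg_div]
      rw [this]
      congr 1
      rw [neg_smul, ← smul_neg, neg_sub])
    (fun i => by
      rw [norm_smul, norm_smul, hnD]
      have h1 : ‖x i - star (x i)‖ ≤ D + D := by
        refine (norm_sub_le _ _).trans (add_le_add (hDn i) ?_)
        rw [norm_star]; exact hDn i
      have h2 : ‖(-(Complex.I / 2) : ℂ)‖ = 1 / 2 := by simp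
      rw [h2]
      calc D⁻¹ * (1 / 2 * ‖x i - star (x i)‖) ≤ D⁻¹ * (1 / 2 * (D + D)) := by gcongr
        _ = 1 := by field_simp; ring)
  have hcomb : ∀ z : A, (D : ℂ) • ((D : ℂ)⁻¹ • ((1 / 2 : ℂ) • (z + star z))
      + Complex.I • ((D : ℂ)⁻¹ • ((-(Complex.I / 2) : ℂ) • (z - star z)))) = z := by
    intro z
    have i1 : Complex.I * -(Complex.I / 2) = 1 / 2 := by
      have := Complex.I_mul_I
      linear_combination (-1 / 2 : ℂ) * this
    have e1 : (D : ℂ) * ((D : ℂ)⁻¹ * (1 / 2)) = 1 / 2 := by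
      rw [← mul_assoc, mul_inv_cancel₀ hDc, one_mul]
    have e2 : (D : ℂ) * (Complex.I * ((D : ℂ)⁻¹ * -(Complex.I / 2))) = 1 / 2 := by
      calc (D : ℂ) * (Complex.I * ((D : ℂ)⁻¹ * -(Complex.I / 2)))
          = ((D : ℂ) * (D : ℂ)⁻¹) * (Complex.I * -(Complex.I / 2)) := by ring
        _ = 1 / 2 := by rw [mul_inv_cancel₀ hDc, one_mul, i1]
    calc (D : ℂ) • ((D : ℂ)⁻¹ • ((1 / 2 : ℂ) • (z + star z))
          + Complex.I • ((D : ℂ)⁻¹ • ((-(Complex.I / 2) : ℂ) • (z - star z))))
        = ((D : ℂ) * ((D : ℂ)⁻¹ * (1 / 2))) • (z + star z)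
          + ((D : ℂ) * (Complex.I * ((D : ℂ)⁻¹ * -(Complex.I / 2)))) • (z - star z) := by
          simp only [smul_add, smul_sub, smul_smul, mul_assoc]
      _ = (1 / 2 : ℂ) • (z + star z) + (1 / 2 : ℂ) • (z - star z) := by rw [e1, e2]
      _ = z := by module
  refine ⟨(D : ℂ) • (y1 + Complex.I • y2), ?_, ?_, ?_, ?_⟩
  · rw [mul_smul_comm, mul_add, mul_smul_comm, a1, b1]
  · rw [smul_mul_assoc, add_mul, smul_mul_assoc, a2, b2]
  · intro i
    rw [smul_mul_assoc, add_mul, smul_mul_assoc, a3, b3]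
    exact hcomb (x i)
  · intro i
    rw [mul_smul_comm, mul_add, mul_smul_comm, a4, b4]
    exact hcomb (x i)

/-- a family of reducing projections with uniform bounds. -/
theorem clean_sup (hAdd : PAdd A) {ι : Type u} {q : ι → A} {Q T : A} {C : ℝ}
    (hq : ∀ i, PJ (q i)) (ho : ∀ i j, i ≠ j → q i * q j = 0) (hQ : IsSup q Q)
    (hT : ∀ i, T * q i = q i * T) (hc : ∀ i, CleanC C (q i) (T * q i)) :
    T * Q = Q * T ∧ CleanIn Q (T * Q) := by
  choose P y h1 h2 h3 h4 h5 h6 h7 h8 h9 using hc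
  obtain ⟨PP, p1, p2, p3, p4⟩ := bsum hAdd hq ho hQ P h1 h2 C h8
  obtain ⟨Y, y1, y2, y3, y4⟩ := bsum hAdd hq ho hQ y h4 h5 C h9
  have hQQ := PJ.mul_self hQ.1
  have hQq : ∀ i, Q * q i = q i := fun i => Le.rev (hq i) hQ.1 (hQ.2.1 i)
  -- `T` commutes with `Q`
  have hTs : ∀ i, star T * q i = q i * star T := fun i => by
    have := congrArg star (hT i)
    rw [star_mul, star_mul, PJ.star (hq i)] at this
    exact this.symm
  have c1 : (1 - Q) * T * Q = 0 := by
    apply hQ.2.2
    intro i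
    rw [mul_assoc, hT, ← mul_assoc, sub_mul, one_mul, hQq, sub_self, zero_mul]
  have c2 : (1 - Q) * star T * Q = 0 := by
    apply hQ.2.2
    intro i
    rw [mul_assoc, hTs, ← mul_assoc, sub_mul, one_mul, hQq, sub_self, zero_mul]
  have d1 : Q * T * Q = T * Q := by
    rw [sub_mul, one_mul, sub_mul, sub_eq_zero] at c1
    exact c1.symm
  have d2 : Q * T * Q = Q * T := by
    rw [sub_mul, one_mul, sub_mul, sub_eq_zero] at c2
    have h := congrArg star c2
    rw [star_mul, star_mul, star_mul, star_star, PJ.star hQ.1] at h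
    rw [mul_assoc, ← h]
  have hTQ : T * Q = Q * T := d1.symm.trans d2
  -- uniqueness
  have huniq : ∀ a b : A, a * Q = a → b * Q = b → (∀ i, a * q i = b * q i) → a = b := by
    intro a b ha hb hab
    have h := hQ.2.2 (a - b) (fun i => by rw [sub_mul, hab i, sub_self])
    rwa [sub_mul, ha, hb, sub_eq_zero] at h
  have hPq : ∀ i, PP * q i = q i * PP := fun i => by rw [p3, p4]
  have hYq : ∀ i, Y * q i = q i * Y := fun i => by rw [y3, y4]
  have hTQq : ∀ i, T * Q * q i = T * q i := fun i => by rw [mul_assoc, hQq]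
  refine ⟨hTQ, PP, p1, p2, ?_, ?_, ?_, Y, y1, y2, ?_, ?_⟩
  · refine huniq _ _ (by rw [mul_assoc, p2]) p2 (fun i => ?_)
    rw [mul_assoc, hPq i, ← mul_assoc, p3, p4]
    calc P i * PP = P i * q i * PP := by rw [h2]
      _ = P i * (q i * PP) := mul_assoc _ _ _
      _ = P i := by rw [p4, h3]
  · rw [mul_sub, p1, hTQ, ← mul_assoc, hQQ]
  · rw [sub_mul, p2, mul_assoc, hQQ]
  · refine huniq _ _ ?_ hQQ (fun i => ?_)
    · rw [mul_assoc, sub_mul, p2, mul_assoc T, hQQ]
    · rw [mul_assoc, sub_mul, hTQq, p3, hQq]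
      have e1 : T * q i - P i = q i * (T * q i - P i) := by
        rw [mul_sub, h1, ← mul_assoc, ← hT, mul_assoc, PJ.mul_self (hq i)]
      rw [e1, ← mul_assoc, y3, h6]
  · refine huniq _ _ (by rw [mul_assoc, y2]) hQQ (fun i => ?_)
    rw [mul_assoc, y3, hQq]
    have e1 : (T * Q - PP) * y i = (T * q i - P i) * y i := by
      have : y i = q i * y i := (h4 i).symm
      conv_lhs => rw [this]
      rw [← mul_assoc, sub_mul, hTQq, p3]
    rw [e1, h7]

end Pool.Agent.L0h87.CL2
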