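import Pool.Agent.R456.CL.Base3
import Pool.Agent.R456.CL.Sup
import Pool.Agent.R456.CL.AddO
import Pool.Agent.R456.CL.CmpO
import Pool.Agent.R456.CL.Fin
import Pool.Agent.R456.CL.CaseA

/-!
# Central projections and central cuts
-/

set_option autoImplicit false

namespace Pool.Agent.L0h87.CL2

open Pool.Agent.R456.CL

universe u

variable {A : Type u} [CStarAlgebra A]

/-- central projections. -/
def CP (z : A) : Prop := PJ z ∧ ∀ x : A, z * x = x * z

lemma pj_mk {p : A} (h1 : p * p = p) (h2 : star p = p) : PJ p := ⟨h1, h2⟩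

lemma pj_one : PJ (1 : A) := ⟨by simp [IsIdempotentElem], by simp [IsSelfAdjoint]⟩

lemma le_rev' {p q : A} (hp : PJ p) (hq : PJ q) (h : q * p = p) : p * q = p := by
  have := congrArg star h
  rwa [star_mul, PJ.star hp, PJ.star hq] at this

lemma CP.pj {z : A} (h : CP z) : PJ z := h.1

lemma cp_one : CP (1 : A) := ⟨pj_one, fun x => by simp⟩

lemma cp_zero : CP (0 : A) := ⟨pj_zero, fun x => by simp⟩

lemma CP.compl {z : A} (h : CP z) : CP (1 - z) :=
  ⟨h.1.one_sub, fun x => by rw [sub_mul, mul_sub, h.2]; simp⟩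

lemma CP.mul {z w : A} (hz : CP z) (hw : CP w) : CP (z * w) := by
  refine ⟨pj_mk ?_ ?_, fun x => ?_⟩
  · calc z * w * (z * w) = z * (w * z) * w := by simp only [mul_assoc]
      _ = (z * z) * (w * w) := by rw [← hz.2 w]; simp only [mul_assoc]
      _ = z * w := by rw [PJ.mul_self hz.1, PJ.mul_self hw.1]
  · rw [star_mul, PJ.star hz.1, PJ.star hw.1, hz.2 w]
  · rw [mul_assoc, hw.2, ← mul_assoc, hz.2, mul_assoc]

lemma cut_pj {z p : A} (hz : CP z) (hp : PJ p) : PJ (z * p) := by
  refine pj_mk ?_ ?_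
  · calc z * p * (z * p) = z * (p * z) * p := by simp only [mul_assoc]
      _ = (z * z) * (p * p) := by rw [← hz.2 p]; simp only [mul_assoc]
      _ = z * p := by rw [PJ.mul_self hz.1, PJ.mul_self hp]
  · rw [star_mul, PJ.star hz.1, PJ.star hp, hz.2 p]

lemma cut_mul {z x y : A} (hz : CP z) : z * x * (z * y) = z * (x * y) := by
  calc z * x * (z * y) = z * (x * z) * y := by simp only [mul_assoc]
    _ = (z * z) * (x * y) := by rw [← hz.2 x]; simp only [mul_assoc]
    _ = z * (x * y) := by rw [PJ.mul_self hz.1]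

lemma cut_star {z x : A} (hz : CP z) : star (z * x) = z * star x := by
  rw [star_mul, PJ.star hz.1, hz.2]

lemma cut_cut {z x : A} (hz : CP z) : z * (z * x) = z * x := by
  rw [← mul_assoc, PJ.mul_self hz.1]

lemma mul_cut {z x y : A} (hz : CP z) : x * (z * y) = z * (x * y) := by
  rw [← mul_assoc, ← hz.2 x, mul_assoc]

lemma cut_le {z p q : A} (hz : CP z) (h : Le p q) : Le (z * p) (z * q) := by
  show z * p * (z * q) = z * p
  rw [cut_mul hz, show p * q = p from h]

lemma cut_le_self {z p : A} (_hz : CP z) (hp : PJ p) : Le (z * p) p := by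
  show z * p * p = z * p
  rw [mul_assoc, PJ.mul_self hp]

lemma le_trans' {p q r : A} (h1 : Le p q) (h2 : Le q r) : Le p r := by
  show p * r = p
  rw [← show p * q = p from h1, mul_assoc, show q * r = q from h2]

lemma le_refl' {p : A} (hp : PJ p) : Le p p := PJ.mul_self hp

lemma le_one {p : A} : Le p 1 := mul_one p

lemma cut_orth {z p q : A} (hz : CP z) (h : p * q = 0) : z * p * (z * q) = 0 := by
  rw [cut_mul hz, h, mul_zero]

lemma cut_eqv {z p q : A} (hz : CP z) (h : Eqv p q) : Eqv (z * p) (z * q) := by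
  obtain ⟨v, h1, h2⟩ := h
  exact ⟨z * v, by rw [cut_star hz, cut_mul hz, h1], by rw [cut_star hz, cut_mul hz, h2]⟩

lemma cut_sub {z p q : A} (hz : CP z) (h : Sub p q) : Sub (z * p) (z * q) := by
  obtain ⟨v, h1, h2⟩ := h
  exact ⟨z * v, by rw [cut_star hz, cut_mul hz, h1], by
    rw [cut_star hz, cut_mul hz, cut_mul hz, h2]⟩

lemma cut_iso {z e f x : A} (hz : CP z) (h : Iso e f x) : Iso (z * e) (z * f) (z * x) := by
  obtain ⟨h1, h2, y, h3, h4, h5, h6⟩ := h
  exact ⟨by rw [cut_mul hz, h1], by rw [cut_mul hz, h2], z * y, by rw [cut_mul hz, h3],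
    by rw [cut_mul hz, h4], by rw [cut_mul hz, h5], by rw [cut_mul hz, h6]⟩

lemma cp_norm {z : A} (hz : CP z) : ‖z‖ ≤ 1 := pj_norm_le hz.1

lemma cut_norm {z x : A} (hz : CP z) : ‖z * x‖ ≤ ‖x‖ := by
  calc ‖z * x‖ ≤ ‖z‖ * ‖x‖ := norm_mul_le _ _
    _ ≤ 1 * ‖x‖ := by gcongr; exact cp_norm hz
    _ = ‖x‖ := one_mul _

lemma cut_add_compl {z x : A} : z * x + (1 - z) * x = x := by
  rw [← add_mul]; simp

lemma compl_mul {z : A} (hz : CP z) : z * (1 - z) = 0 := by
  rw [mul_sub, mul_one, PJ.mul_self hz.1, sub_self]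

lemma compl_mul' {z : A} (hz : CP z) : (1 - z) * z = 0 := by
  rw [sub_mul, one_mul, PJ.mul_self hz.1, sub_self]

lemma cross_zero {z x y : A} (hz : CP z) : z * x * ((1 - z) * y) = 0 := by
  calc z * x * ((1 - z) * y) = z * (x * (1 - z)) * y := by simp only [mul_assoc]
    _ = z * ((1 - z) * x) * y := by rw [hz.compl.2 x]
    _ = (z * (1 - z)) * x * y := by simp only [mul_assoc]
    _ = 0 := by rw [compl_mul hz]; simp

lemma cross_zero' {z x y : A} (hz : CP z) : (1 - z) * x * (z * y) = 0 := by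
  calc (1 - z) * x * (z * y) = (1 - z) * (x * z) * y := by simp only [mul_assoc]
    _ = (1 - z) * (z * x) * y := by rw [hz.2 x]
    _ = ((1 - z) * z) * x * y := by simp only [mul_assoc]
    _ = 0 := by rw [compl_mul' hz]; simp

lemma eqv_glue {z p q : A} (hz : CP z) (h : Eqv (z * p) (z * q))
    (h' : Eqv ((1 - z) * p) ((1 - z) * q)) : Eqv p q := by
  obtain ⟨v, h1, h2⟩ := h
  obtain ⟨w, h3, h4⟩ := h'
  have hzc := hz.compl
  refine ⟨z * v + (1 - z) * w, ?_, ?_⟩
  · rw [star_add, cut_star hz, cut_star hzc, add_mul, mul_add, mul_add, cross_zero hz,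
      cross_zero' hz, cut_mul hz, cut_mul hzc, h1, h3, cut_cut hz, cut_cut hzc]
    simpa using cut_add_compl (z := z) (x := p)
  · rw [star_add, cut_star hz, cut_star hzc, add_mul, mul_add, mul_add, cross_zero hz,
      cross_zero' hz, cut_mul hz, cut_mul hzc, h2, h4, cut_cut hz, cut_cut hzc]
    simpa using cut_add_compl (z := z) (x := q)

lemma sub_glue {z p q : A} (hz : CP z) (h : Sub (z * p) (z * q))
    (h' : Sub ((1 - z) * p) ((1 - z) * q)) : Sub p q := by
  obtain ⟨v, h1, h2⟩ := h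
  obtain ⟨w, h3, h4⟩ := h'
  have hzc := hz.compl
  refine ⟨z * v + (1 - z) * w, ?_, ?_⟩
  · rw [star_add, cut_star hz, cut_star hzc, add_mul, mul_add, mul_add, cross_zero hz,
      cross_zero' hz, cut_mul hz, cut_mul hzc, h1, h3, cut_cut hz, cut_cut hzc]
    simpa using cut_add_compl (z := z) (x := p)
  · have e1 : (z * v + (1 - z) * w) * star (z * v + (1 - z) * w)
        = z * (v * star v) + (1 - z) * (w * star w) := by
      rw [star_add, cut_star hz, cut_star hzc, add_mul, mul_add, mul_add, cross_zero hz,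
        cross_zero' hz, cut_mul hz, cut_mul hzc]
      simp
    have e2 : z * (v * star v) * q = z * (v * star v) := by
      have : z * (v * star v) * q = (v * star v) * (z * q) := by
        rw [hz.2 (v * star v), mul_assoc]
      rw [this, h2]
      have h5 : z * (v * star v) = (v * star v) * z := hz.2 _
      have h6 : (v * star v) * (z * q) * z = (v * star v) * (z * q) := by
        rw [mul_assoc, ← hz.2 (z * q), cut_cut hz]
      rw [h5]
      conv_rhs => rw [← h2]
      rw [h6, h2]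
    have e3 : (1 - z) * (w * star w) * q = (1 - z) * (w * star w) := by
      have : (1 - z) * (w * star w) * q = (w * star w) * ((1 - z) * q) := by
        rw [hzc.2 (w * star w), mul_assoc]
      rw [this, h4]
      have h5 : (1 - z) * (w * star w) = (w * star w) * (1 - z) := hzc.2 _
      have h6 : (w * star w) * ((1 - z) * q) * (1 - z) = (w * star w) * ((1 - z) * q) := by
        rw [mul_assoc, ← hzc.2 ((1 - z) * q), cut_cut hzc]
      rw [h5]
      conv_rhs => rw [← h4]
      rw [h6, h4]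
    rw [e1, add_mul, e2, e3]

lemma isSup_cut {ι : Type*} {e : ι → A} {E z : A} (hz : CP z) (h : IsSup e E) :
    IsSup (fun i => z * e i) (z * E) := by
  refine ⟨cut_pj hz h.1, fun i => by rw [cut_mul hz, h.2.1 i], fun x hx => ?_⟩
  have h1 : x * z * E = 0 := h.2.2 _ (fun i => by rw [mul_assoc]; exact hx i)
  rw [← mul_assoc]; exact h1

lemma infin_of_le {g e : A} (hg : PJ g) (he : PJ e) (hle : Le e g) (h : Infin e) : Infin g := by
  by_contra hn
  exact not_infin_sub hg he hle hn h

lemma infin_of_cut {z g : A} (hz : CP z) (hg : PJ g) (h : Infin (z * g)) : Infin g :=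
  infin_of_le hg (cut_pj hz hg) (cut_le_self hz hg) h

lemma infin_ne_zero {g : A} (h : Infin g) : g ≠ 0 := by
  obtain ⟨v, h1, h2, h3⟩ := h
  rintro rfl
  rw [mul_zero] at h2
  exact h3 h2.symm

/-- if `p ≲ q` and `p` is infinite then `q` is infinite. -/
lemma infin_sub {p q : A} (hp : PJ p) (hq : PJ q) (h : Sub p q) (hi : Infin p) : Infin q := by
  obtain ⟨v, h1, h2⟩ := h
  have hf : PJ (v * star v) := pi_final hp h1
  exact infin_of_le hq hf h2 (infin_eqv hp hf ⟨v, h1, rfl⟩ hi)

lemma sub_of_le' {p q : A} (hp : PJ p) (h : Le p q) : Sub p q :=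
  ⟨p, by rw [PJ.star hp, PJ.mul_self hp], by rw [PJ.star hp, PJ.mul_self hp, h]⟩

lemma eqv_refl {p : A} (hp : PJ p) : Eqv p p :=
  ⟨p, by rw [PJ.star hp, PJ.mul_self hp], by rw [PJ.star hp, PJ.mul_self hp]⟩

lemma eqv_zero {p q : A} (h : Eqv p q) (hq : q = 0) : p = 0 := by
  obtain ⟨v, h1, h2⟩ := h
  rw [hq] at h2
  have := (CStarRing.mul_star_self_eq_zero_iff _).1 h2
  rw [← h1, this, mul_zero]

lemma sub_zero_eq {p q : A} (h : Sub p q) (hq : q = 0) : p = 0 := by
  obtain ⟨v, h1, h2⟩ := h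
  rw [hq, mul_zero] at h2
  have := (CStarRing.mul_star_self_eq_zero_iff _).1 h2.symm
  rw [← h1, this, mul_zero]

/-- a family of orthogonal central projections has a central supremum. -/
lemma sup_cp {ι : Type*} {e : ι → A} {E : A} (he : ∀ i, CP (e i)) (h : IsSup e E) : CP E := by
  refine ⟨h.1, fun x => ?_⟩
  have hEe : ∀ i, E * e i = e i := fun i => Le.rev (he i).1 h.1 (h.2.1 i)
  have h1 : ∀ x : A, (1 - E) * x * E = 0 := by
    intro x
    refine h.2.2 _ (fun i => ?_)
    rw [mul_assoc, ← (he i).2 x, ← mul_assoc, sub_mul, one_mul, hEe, sub_self, zero_mul]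
  have h2 : ∀ x : A, E * x * (1 - E) = 0 := by
    intro x
    have := congrArg star (h1 (star x))
    rw [star_mul, star_mul, star_star, star_sub, star_one, PJ.star h.1, star_zero,
      ← mul_assoc] at this
    exact this
  have h3 := h1 x
  have h4 := h2 x
  rw [sub_mul, sub_mul, one_mul, sub_eq_zero] at h3
  rw [mul_sub, mul_one, sub_eq_zero] at h4
  rw [h4, ← h3]

/-- the central cover, dual form. -/
theorem cover (hS : PSup A) (hC : PCut A) {f : A} (hf : PJ f) :
    ∃ c : A, CP c ∧ f * c = 0 ∧ ∀ e : A, PJ e → (∀ x : A, e * x * f = 0) → e * c = e := by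
  obtain ⟨c, hc⟩ := hS {p : A // PJ p ∧ ∀ x : A, p * x * f = 0} (fun p => (p : A))
    (fun p => p.2.1)
  have hfc : f * c = 0 := hc.2.2 f fun p => by
    have h1 := p.2.2 1
    rw [mul_one] at h1
    exact orth_comm p.2.1 hf h1
  have hcp : ∀ p : {p : A // PJ p ∧ ∀ x : A, p * x * f = 0}, c * (p : A) = p := fun p =>
    Le.rev p.2.1 hc.1 (hc.2.1 p)
  have hcen : ∀ x : A, (1 - c) * x * c = 0 := by
    intro x
    refine hc.2.2 _ fun p => ?_
    by_contra hne
    have hne' : star ((1 - c) * x * (p : A)) ≠ 0 := fun h => hne (star_eq_zero.1 h)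
    obtain ⟨k, s, hk0, hk, hs, h1, h2⟩ := Sup.cut_ne hC hne'
    rw [star_star] at h1 h2
    have h3 : c * k = 0 := by
      rw [← h2]
      simp only [← mul_assoc, mul_sub, mul_one, PJ.mul_self hc.1, sub_self, zero_mul]
    have h4 : ∀ z : A, k * z * f = 0 := by
      intro z
      have h5 := p.2.2 (star x * (1 - c) * z)
      rw [← h1, star_mul, star_mul, PJ.star p.2.1, PJ.star hc.1.one_sub]
      have h6 : s * s * ((1 - c) * x * (p : A) * ((p : A) * (star x * (1 - c)))) * z * f =
          s * s * ((1 - c) * x * (p : A)) * ((p : A) * (star x * (1 - c) * z) * f) := by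
        simp only [mul_assoc]
      rw [h6, h5, mul_zero]
    have h5 := hcp ⟨k, hk, h4⟩
    exact hk0 (h5.symm.trans h3)
  have hcen' : ∀ x : A, c * x * (1 - c) = 0 := by
    intro x
    have h1 := congrArg star (hcen (star x))
    rw [star_mul, star_mul, star_star, PJ.star hc.1, PJ.star hc.1.one_sub, star_zero,
      ← mul_assoc] at h1
    exact h1
  refine ⟨c, ⟨hc.1, fun x => ?_⟩, hfc, fun e he hef => hc.2.1 ⟨e, he, hef⟩⟩
  have h1 := hcen x
  have h2 := hcen' x
  rw [sub_mul, sub_mul, one_mul, sub_eq_zero] at h1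
  rw [mul_sub, mul_one, sub_eq_zero] at h2
  rw [h2, ← h1]

end Pool.Agent.L0h87.CL2
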