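import Pool.Agent.L0h87.CL2.PIAlg

/-!
# The corner of a central projection
-/

set_option autoImplicit false

namespace Pool.Agent.L0h87.CL2
open Pool.Agent.R456.CL
universe u
variable {A : Type u} [CStarAlgebra A]

/-- the ideal `z A` of a central projection `z`, as a star subalgebra. -/
noncomputable def crnS (z : A) (hz : CP z) : NonUnitalStarSubalgebra ℂ A where
  carrier := {x | z * x = x}
  add_mem' := by
    intro a b ha hb
    show z * (a + b) = a + b
    rw [mul_add, show z * a = a from ha, show z * b = b from hb]
  zero_mem' := by show z * 0 = 0; simp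
  mul_mem' := by
    intro a b ha hb
    show z * (a * b) = a * b
    rw [← mul_assoc, show z * a = a from ha]
  smul_mem' := by
    intro c a ha
    show z * (c • a) = c • a
    rw [mul_smul_comm, show z * a = a from ha]
  star_mem' := by
    intro a ha
    show z * star a = star a
    have h := congrArg star (show z * a = a from ha)
    rw [star_mul, PJ.star hz.1] at h
    rw [hz.2]; exact h

instance crn_closed (z : A) (hz : CP z) : IsClosed ((crnS z hz : NonUnitalStarSubalgebra ℂ A) : Set A) := by
  have : ((crnS z hz : NonUnitalStarSubalgebra ℂ A) : Set A) = {x | z * x = x} := rfl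
  rw [this]
  exact isClosed_eq (continuous_const.mul continuous_id) continuous_id

/-- the algebra `z A`. -/
def Crn (z : A) (hz : CP z) : Type u := ↥(crnS z hz)

/-- the non-unital structure. -/
noncomputable abbrev crnN (z : A) (hz : CP z) : NonUnitalCStarAlgebra (Crn z hz) :=
  inferInstanceAs (NonUnitalCStarAlgebra ↥(crnS z hz))

/-- the inclusion. -/
def Crn.val {z : A} {hz : CP z} (x : Crn z hz) : A := Subtype.val x

lemma Crn.prop {z : A} {hz : CP z} (x : Crn z hz) : z * x.val = x.val := Subtype.property x

/-- an element of the corner. -/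
def Crn.mk {z : A} {hz : CP z} (x : A) (h : z * x = x) : Crn z hz := ⟨x, h⟩

section

attribute [local instance] crnN

/-- the ring structure. -/
noncomputable abbrev crnR (z : A) (hz : CP z) : NormedRing (Crn z hz) :=
  { (inferInstance : NonUnitalNormedRing (Crn z hz)) with
    one := Crn.mk z (PJ.mul_self hz.1)
    one_mul := fun x => Subtype.ext x.prop
    mul_one := fun x => Subtype.ext (by
      show x.val * z = x.val
      rw [← hz.2, x.prop]) }

attribute [local instance] crnR

/-- the algebra structure. -/
noncomputable abbrev crnA (z : A) (hz : CP z) : NormedAlgebra ℂ (Crn z hz) :=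
  { Algebra.ofModule (R := ℂ) (A := Crn z hz) (fun c x y => smul_mul_assoc c x y)
      (fun c x y => mul_smul_comm c x y) with
    norm_smul_le := fun c x => (norm_smul_le c x) }

noncomputable instance crnC (z : A) (hz : CP z) : CStarAlgebra (Crn z hz) where
  toNormedRing := crnR z hz
  toStarRing := (crnN z hz).toStarRing
  toCompleteSpace := (crnN z hz).toCompleteSpace
  toCStarRing := (crnN z hz).toCStarRing
  toNormedAlgebra := crnA z hz
  toStarModule := (crnN z hz).toStarModule

end

section val

variable {z : A} {hz : CP z}

lemma Crn.ext' {x y : Crn z hz} (h : x.val = y.val) : x = y := Subtype.ext h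

@[simp] lemma val_mk (x : A) (h : z * x = x) : (Crn.mk x h : Crn z hz).val = x := rfl

@[simp] lemma val_mul (x y : Crn z hz) : (x * y).val = x.val * y.val := rfl

@[simp] lemma val_add (x y : Crn z hz) : (x + y).val = x.val + y.val := rfl

@[simp] lemma val_sub (x y : Crn z hz) : (x - y).val = x.val - y.val := rfl

@[simp] lemma val_star (x : Crn z hz) : (star x).val = star x.val := rfl

@[simp] lemma val_zero : (0 : Crn z hz).val = 0 := rfl

@[simp] lemma val_one : (1 : Crn z hz).val = z := rfl

@[simp] lemma val_smul (c : ℂ) (x : Crn z hz) : (c • x).val = c • x.val := rfl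

lemma val_norm (x : Crn z hz) : ‖x‖ = ‖x.val‖ := rfl

lemma val_sum {ι : Type*} (s : Finset ι) (f : ι → Crn z hz) :
    (∑ i ∈ s, f i).val = ∑ i ∈ s, (f i).val := by
  classical
  induction s using Finset.induction_on with
  | empty => simp
  | insert a s ha ih => rw [Finset.sum_insert ha, Finset.sum_insert ha, val_add, ih]

lemma pj_val {p : Crn z hz} : PJ p ↔ PJ p.val := by
  constructor
  · intro h
    refine pj_mk ?_ ?_
    · have := congrArg Crn.val (PJ.mul_self h)
      simpa using this
    · have := congrArg Crn.val (PJ.star h)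
      simpa using this
  · intro h
    refine pj_mk ?_ ?_
    · exact Crn.ext' (by simpa using PJ.mul_self h)
    · exact Crn.ext' (by simpa using PJ.star h)

theorem sa_crn (hsa : PSa A) : PSa (Crn z hz) := by
  classical
  intro g a hg ha hag δ hδ
  obtain ⟨ι, _, p, l, hp, ho, hsum, hcomm, hn⟩ := hsa g.val a.val (pj_val.1 hg)
    (by have := congrArg Crn.val ha; simpa using this)
    (by have := congrArg Crn.val hag; simpa using this) δ hδ
  have hgp : ∀ i, g.val * p i = p i := by
    intro i
    rw [← hsum, Finset.sum_mul, Finset.sum_eq_single i]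
    · exact PJ.mul_self (hp i)
    · intro j _ hj
      exact ho j i hj
    · intro h; exact absurd (Finset.mem_univ i) h
  have hzp : ∀ i, z * p i = p i := by
    intro i
    rw [← hgp i, ← mul_assoc, g.prop]
  refine ⟨ι, inferInstance, fun i => Crn.mk (p i) (hzp i), l, fun i => pj_val.2 (hp i), ?_, ?_,
    ?_, ?_⟩
  · intro i j hij
    exact Crn.ext' (by simpa using ho i j hij)
  · refine Crn.ext' ?_
    rw [val_sum]; exact hsum
  · intro i
    exact Crn.ext' (by simpa using hcomm i)
  · rw [val_norm, val_sub, val_sum]
    exact hn

theorem supO_crn (hS : PSupO A) : PSupO (Crn z hz) := by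
  intro ι e he ho
  obtain ⟨E, hE⟩ := hS ι (fun i => (e i).val) (fun i => pj_val.1 (he i))
    (fun i j hij => by have := congrArg Crn.val (ho i j hij); simpa using this)
  have hzE : z * E = E := by
    have h1 : (1 - z) * E = 0 := by
      apply hE.2.2
      intro i
      rw [sub_mul, one_mul, (e i).prop, sub_self]
    rw [sub_mul, one_mul, sub_eq_zero] at h1
    exact h1.symm
  refine ⟨Crn.mk E hzE, pj_val.2 hE.1, fun i => Crn.ext' (hE.2.1 i), fun x hx => Crn.ext' ?_⟩
  show x.val * E = 0
  apply hE.2.2
  intro i
  have := congrArg Crn.val (hx i)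
  simpa using this

lemma clean_crn {T : Crn z hz} (h : CleanIn 1 T) : CleanIn z T.val := by
  obtain ⟨P, h1, h2, h3, h4, h5, y, h6, h7, h8, h9⟩ := h
  refine ⟨P.val, ?_, ?_, ?_, ?_, ?_, y.val, ?_, ?_, ?_, ?_⟩
  · exact congrArg Crn.val h1
  · exact congrArg Crn.val h2
  · exact congrArg Crn.val h3
  · exact congrArg Crn.val h4
  · exact congrArg Crn.val h5
  · exact congrArg Crn.val h6
  · exact congrArg Crn.val h7
  · exact congrArg Crn.val h8
  · exact congrArg Crn.val h9

end val

end Pool.Agent.L0h87.CL2
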