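import Pool.Agent.L0h87.CL2.HalfL
import Pool.Agent.R456.CL.Dich

/-!
# Finite projections have finite joins (adapted from `Pool.Agent.R456.CL.Dich`)
-/

set_option autoImplicit false

namespace Pool.Agent.L0h87.CL2

open Pool.Agent.R456.CL

universe u

variable {A : Type u} [CStarAlgebra A]

section one

open Pool.Agent.R456.CL.Dich (idm sa mkPJ le_symm le_symm' orth_symm init sub_iff sub_trans
  sub_of_le half)

/-- a halvable projection below `q + r` is centrally divided between `q` and `r`. -/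
theorem dich' (hLR : PLR A) (hgc : PGC A) {g q r : A} (hg : PJ g) (hq : PJ q) (hr : PJ r)
    (hgi : Half g) (hqr : q * r = 0) (hsub : Sub g (q + r)) :
    ∃ z : A, CP z ∧ Sub (z * g) (z * r) ∧ Sub ((1 - z) * g) ((1 - z) * q) := by
  have hrq := orth_symm hq hr hqr
  have hu : PJ (q + r) := pj_add hq hr hqr
  obtain ⟨g1, g2, hg1, hg2, h12, hl1, hl2, ⟨v1, a1, a2⟩, ⟨v2, b1, b2⟩⟩ := hgi
  unfold Le at hl1 hl2
  rw [sub_iff hg hu] at hsub
  obtain ⟨v, c1, c2⟩ := hsub
  have vg : v * g = v := init hg c1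
  have gg1 : g * g1 = g1 := le_symm hg1 hg hl1
  have gg2 : g * g2 = g2 := le_symm hg2 hg hl2
  have v1g : v1 * g = v1 := init hg a1
  have v2g : v2 * g = v2 := init hg b1
  have g1v1 : g1 * v1 = v1 := by rw [← a2, mul_assoc, a1, v1g]
  have g2v2 : g2 * v2 = v2 := by rw [← b2, mul_assoc, b1, v2g]
  have gv1 : g * v1 = v1 := by rw [← g1v1, ← mul_assoc, gg1]
  have gv2 : g * v2 = v2 := by rw [← g2v2, ← mul_assoc, gg2]
  -- m and n
  have key : ∀ a b : A, v * a * star v * (v * b * star v) = v * (a * g * b) * star v := by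
    intro a b
    rw [← c1]
    noncomm_ring
  have hm : PJ (v * g1 * star v) := by
    refine mkPJ ?_ ?_
    · rw [key, hl1, idm hg1]
    · rw [star_mul, star_mul, star_star, sa hg1]
      noncomm_ring
  have hn : PJ (v * g2 * star v) := by
    refine mkPJ ?_ ?_
    · rw [key, hl2, idm hg2]
    · rw [star_mul, star_mul, star_star, sa hg2]
      noncomm_ring
  have hmn : v * g1 * star v * (v * g2 * star v) = 0 := by
    rw [key, hl1, h12]
    simp
  have hum : (q + r) * (v * g1 * star v) = v * g1 * star v := by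
    rw [← mul_assoc, ← mul_assoc, c2]
  have hun : (q + r) * (v * g2 * star v) = v * g2 * star v := by
    rw [← mul_assoc, ← mul_assoc, c2]
  have sm : Sub g (v * g1 * star v) := by
    rw [sub_iff hg hm]
    refine ⟨v * v1, ?_, ?_⟩
    · rw [star_mul]
      calc star v1 * star v * (v * v1) = star v1 * (star v * v * v1) := by noncomm_ring
        _ = g := by rw [c1, gv1, a1]
    · calc v * g1 * star v * (v * v1) = v * (g1 * (star v * v * v1)) := by noncomm_ring
        _ = v * v1 := by rw [c1, gv1, g1v1]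
  have sn : Sub g (v * g2 * star v) := by
    rw [sub_iff hg hn]
    refine ⟨v * v2, ?_, ?_⟩
    · rw [star_mul]
      calc star v2 * star v * (v * v2) = star v2 * (star v * v * v2) := by noncomm_ring
        _ = g := by rw [c1, gv2, b1]
    · calc v * g2 * star v * (v * v2) = v * (g2 * (star v * v * v2)) := by noncomm_ring
        _ = v * v2 := by rw [c1, gv2, g2v2]
  generalize v * g1 * star v = m at *
  generalize v * g2 * star v = n at *
  have mu : m * (q + r) = m := le_symm' hm hu hum
  have hn' : PJ (q + r - m) := pj_sub hm hu mu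
  have hun' : (r + q) * (q + r - m) = q + r - m := by
    rw [add_comm r q, mul_sub, idm hu, hum]
  have nm : n * m = 0 := orth_symm hm hn hmn
  have nn' : n * (q + r - m) = n := by
    rw [mul_sub, le_symm' hn hu hun, nm, sub_zero]
  obtain ⟨R, L, D, E, hR, hL, hD, hE, RD, LE, RDm, LEr, sRL, Dm, Dq, Em, ht⟩ :=
    half hLR hq hr hm hqr hum
  obtain ⟨R', L', D', E', hR', hL', hD', hE', RD', LE', RDm', LEr', sRL', Dm', Dq', Em', ht'⟩ :=
    half hLR hr hq hn' hrq hun'
  -- D' ≤ E
  have hD'E : D' * E = D' := by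
    apply ht D' hD'
    · rw [← Dm', mul_assoc, sub_mul, hum, idm hm, sub_self, mul_zero]
    · exact Dq'
  have hDE' : D * E' = D := by
    apply ht' D hD
    · rw [← Dm, mul_assoc, mul_sub, mu, idm hm, sub_self, mul_zero]
    · exact Dq
  obtain ⟨z, hz, hz1, hz2⟩ := hgc D E hD hE
  have hzc := hz.compl
  refine ⟨z, hz, ?_, ?_⟩
  · have h1 : Sub (z * m) (z * r) := by
      have := sub_add_orth (cut_pj hz hR) (cut_pj hz hL) (cut_pj hz hD) (cut_pj hz hE)
        (cut_orth hz RD) (cut_orth hz LE) (cut_sub hz sRL) hz1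
      rwa [← mul_add, ← mul_add, RDm, LEr] at this
    exact sub_trans' (cut_pj hz hg) (cut_pj hz hm) (cut_pj hz hr) (cut_sub hz sm) h1
  · have h1 : Sub ((1 - z) * D') ((1 - z) * E') :=
      sub_trans' (cut_pj hzc hD') (cut_pj hzc hE) (cut_pj hzc hE')
        (cut_sub hzc (sub_of_le' hD' hD'E))
        (sub_trans' (cut_pj hzc hE) (cut_pj hzc hD) (cut_pj hzc hE') hz2
          (cut_sub hzc (sub_of_le' hD hDE')))
    have h2 : Sub ((1 - z) * (q + r - m)) ((1 - z) * q) := by
      have := sub_add_orth (cut_pj hzc hR') (cut_pj hzc hL') (cut_pj hzc hD') (cut_pj hzc hE')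
        (cut_orth hzc RD') (cut_orth hzc LE') (cut_sub hzc sRL') h1
      rwa [← mul_add, ← mul_add, RDm', LEr'] at this
    exact sub_trans' (cut_pj hzc hg) (cut_pj hzc hn) (cut_pj hzc hq) (cut_sub hzc sn)
      (sub_trans' (cut_pj hzc hn) (cut_pj hzc hn') (cut_pj hzc hq)
        (cut_sub hzc (sub_of_le' hn nn')) h2)

end one

/-- orthogonal sums of finite projections are finite. -/
def PFinAdd (A : Type u) [CStarAlgebra A] : Prop := ∀ p q : A, PJ p → PJ q → p * q = 0 →
  ¬ Infin p → ¬ Infin q → ¬ Infin (p + q)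

theorem finAdd_ok (hP : PSup A) (hA : PAddO A) (hgc : PGC A) (hLR : PLR A) : PFinAdd A := by
  intro p q hp hq hpq hnp hnq hi
  have hpq' : PJ (p + q) := pj_add hp hq hpq
  obtain ⟨z, hz, hz0, hzh⟩ := half_local hP hA hgc hpq' hi
  have hg : PJ (z * (p + q)) := cut_pj hz hpq'
  obtain ⟨w, hw, hw1, hw2⟩ := dich' hLR hgc hg hp hq hzh hpq
    (sub_of_le' hg (cut_le_self hz hpq'))
  by_cases h0 : w * (z * (p + q)) = 0
  · have h1 : (1 - w) * (z * (p + q)) ≠ 0 := by
      intro h1
      apply hz0
      rw [← cut_add_compl (z := w) (x := z * (p + q)), h0, h1, add_zero]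
    have h2 : Infin ((1 - w) * (z * (p + q))) :=
      half_infin (cut_pj hw.compl hg) h1 (half_cut hw.compl hzh)
    exact hnp (infin_of_cut hw.compl hp
      (infin_sub (cut_pj hw.compl hg) (cut_pj hw.compl hp) hw2 h2))
  · have h2 : Infin (w * (z * (p + q))) :=
      half_infin (cut_pj hw hg) h0 (half_cut hw hzh)
    exact hnq (infin_of_cut hw hq (infin_sub (cut_pj hw hg) (cut_pj hw hq) hw1 h2))

section two

open Pool.Agent.R456.CL.Dich (idm sa mkPJ le_symm le_symm' orth_symm init sub_iff sub_trans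
  sub_of_le)

/-- two finite projections have a finite join. -/
theorem fin_join (hLR : PLR A) (hFA : PFinAdd A) {g s t : A} (hg : PJ g) (hs : PJ s) (ht : PJ t)
    (hsg : Le s g) (htg : Le t g) (hns : ¬ Infin s) (hnt : ¬ Infin t) :
    ∃ c : A, PJ c ∧ Le c g ∧ Le s c ∧ Le t c ∧ ¬ Infin c := by
  unfold Le at hsg htg
  obtain ⟨w, R, L, hR, hL, w1, w2, x1, x2, x3, x4⟩ := hLR ((1 - t) * s)
  have tt := idm ht
  have ss := idm hs
  have tL : t * L = 0 := by
    apply x4
    rw [← mul_assoc, mul_sub, mul_one, tt, sub_self, zero_mul]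
  have Lt : L * t = 0 := orth_symm ht hL tL
  have gL : g * L = L := by
    have h1 : (1 - g) * ((1 - t) * s) = 0 := by
      have e : (1 - g) * ((1 - t) * s) = s - g * s - t * s + g * t * s := by noncomm_ring
      rw [e, le_symm hs hg hsg, le_symm ht hg htg]
      simp
    have h2 := x4 _ h1
    rw [sub_mul, one_mul, sub_eq_zero] at h2
    exact h2.symm
  have Lg : L * g = L := le_symm' hL hg gL
  have Rs : R * s = R := by
    have h1 : (1 - t) * s * (1 - s) = 0 := by
      rw [mul_assoc, mul_sub, mul_one, ss, sub_self, mul_zero]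
    have h2 := x3 _ h1
    rw [mul_sub, mul_one, sub_eq_zero] at h2
    exact h2.symm
  have Ls : L * s = s - t * s := by
    have h1 := x2
    have e : L * ((1 - t) * s) = L * s - L * t * s := by noncomm_ring
    rw [e, Lt, zero_mul, sub_zero] at h1
    rw [h1]
    noncomm_ring
  have hc : PJ (t + L) := pj_add ht hL tL
  refine ⟨t + L, hc, ?_, ?_, ?_, ?_⟩
  · unfold Le
    rw [add_mul, htg, Lg]
  · unfold Le
    apply le_symm' hs hc
    rw [add_mul, Ls]
    abel
  · unfold Le
    rw [mul_add, tt, tL, add_zero]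
  · refine hFA t L ht hL tL hnt ?_
    intro hi
    have h1 : Sub L R := by
      rw [sub_iff hL hR]
      refine ⟨star w, by rw [star_star, w2], ?_⟩
      have h2 : w * R = w := init hR w1
      have := congrArg star h2
      rwa [star_mul, sa hR] at this
    exact hns (infin_of_le hs hR Rs (infin_sub hL hR h1 hi))

end two

end Pool.Agent.L0h87.CL2
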