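import Pool.Agent.L0h87.CL2.HalfL

/-!
# Central sums of halvable projections are halvable
-/

set_option autoImplicit false

namespace Pool.Agent.L0h87.CL2

open Pool.Agent.R456.CL
open Pool.Agent.R456.CL.Inf2 (sup_le sup_orth)

universe u

variable {A : Type u} [CStarAlgebra A]

theorem glob_iso (hSup : PSup A) (hAO : PAddO A) {ι : Type u} {z : ι → A} {E : A}
    (hz : ∀ i, CP (z i)) (ho : ∀ i j, i ≠ j → z i * z j = 0) (hE : IsSup z E)
    (hh : ∀ i, Half' (z i)) : Half' E := by
  choose v1 v2 a1 a2 a12 c1 c2 using hh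
  have a21 : ∀ i, star (v2 i) * v1 i = 0 := fun i => by
    have := congrArg star (a12 i)
    rwa [star_mul, star_star, star_zero] at this
  have r1 : ∀ i, v1 i * z i = v1 i := fun i => pi_right (hz i).1 (a1 i)
  have r2 : ∀ i, v2 i * z i = v2 i := fun i => pi_right (hz i).1 (a2 i)
  have d1 : ∀ i, star (v1 i) * z i = star (v1 i) := fun i => star_absorb_left (hz i).1 (c1 i)
  have d2 : ∀ i, star (v2 i) * z i = star (v2 i) := fun i => star_absorb_left (hz i).1 (c2 i)
  have e1 : ∀ i, z i * star (v1 i) = star (v1 i) := fun i => star_absorb_right (hz i).1 (r1 i)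
  have e2 : ∀ i, z i * star (v2 i) = star (v2 i) := fun i => star_absorb_right (hz i).1 (r2 i)
  have hzz : ∀ i, z i * z i = z i := fun i => PJ.mul_self (hz i).1
  have hEz : ∀ i, E * z i = z i := fun i => Le.rev (hz i).1 hE.1 (hE.2.1 i)
  have hEC : CP E := sup_cp hz hE
  -- products of elements over different indices vanish
  have hx : ∀ i j, i ≠ j → ∀ x y : A, x * z i = x → z j * y = y → x * y = 0 := by
    intro i j hij x y h1 h2
    rw [← h1, ← h2, mul_assoc, ← mul_assoc (z i), ho i j hij]; simp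
  -- the local pieces
  obtain ⟨g1, hg1⟩ : ∃ g1 : ι → A, g1 = fun i => v1 i * star (v1 i) := ⟨_, rfl⟩
  obtain ⟨g2, hg2⟩ : ∃ g2 : ι → A, g2 = fun i => v2 i * star (v2 i) := ⟨_, rfl⟩
  obtain ⟨a, ha⟩ : ∃ a : ι → A, a = fun i => v2 i * star (v1 i) := ⟨_, rfl⟩
  obtain ⟨b, hb⟩ : ∃ b : ι → A, b = fun i => v1 i * v1 i * star (v2 i) := ⟨_, rfl⟩
  obtain ⟨c, hc⟩ : ∃ c : ι → A, c = fun i => v1 i * v2 i * (z i - v1 i * star (v1 i)) := ⟨_, rfl⟩
  have hg1p : ∀ i, PJ (g1 i) := fun i => by rw [hg1]; exact pi_final (hz i).1 (a1 i)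
  have hg2p : ∀ i, PJ (g2 i) := fun i => by rw [hg2]; exact pi_final (hz i).1 (a2 i)
  have g1z : ∀ i, g1 i * z i = g1 i := fun i => by rw [hg1]; simp only [mul_assoc, d1]
  have g2z : ∀ i, g2 i * z i = g2 i := fun i => by rw [hg2]; simp only [mul_assoc, d2]
  have zg1 : ∀ i, z i * g1 i = g1 i := fun i => by rw [hg1]; simp only [← mul_assoc, c1]
  have zg2 : ∀ i, z i * g2 i = g2 i := fun i => by rw [hg2]; simp only [← mul_assoc, c2]
  have haa : ∀ i, star (a i) * a i = g1 i := fun i => by
    simp only [ha, hg1, star_mul, star_star]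
    calc v1 i * star (v2 i) * (v2 i * star (v1 i)) = v1 i * (star (v2 i) * v2 i) * star (v1 i) := by
          simp only [mul_assoc]
      _ = _ := by rw [a2, r1]
  have haa' : ∀ i, a i * star (a i) = g2 i := fun i => by
    simp only [ha, hg2, star_mul, star_star]
    calc v2 i * star (v1 i) * (v1 i * star (v2 i)) = v2 i * (star (v1 i) * v1 i) * star (v2 i) := by
          simp only [mul_assoc]
      _ = _ := by rw [a1, r2]
  have hbb : ∀ i, star (b i) * b i = g2 i := fun i => by
    simp only [hb, hg2, star_mul, star_star]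
    calc v2 i * (star (v1 i) * star (v1 i)) * (v1 i * v1 i * star (v2 i))
        = v2 i * (star (v1 i) * ((star (v1 i) * v1 i) * v1 i)) * star (v2 i) := by
          simp only [mul_assoc]
      _ = _ := by rw [a1, c1, a1, r2]
  have hbb' : ∀ i, b i * star (b i) = v1 i * g1 i * star (v1 i) := fun i => by
    simp only [hb, hg1, star_mul, star_star]
    calc v1 i * v1 i * star (v2 i) * (v2 i * (star (v1 i) * star (v1 i)))
        = v1 i * v1 i * ((star (v2 i) * v2 i) * star (v1 i)) * star (v1 i) := by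
          simp only [mul_assoc]
      _ = _ := by rw [a2, e1]; simp only [mul_assoc]
  have hzg1 : ∀ i, PJ (z i - g1 i) := fun i => pj_sub (hg1p i) (hz i).1 (g1z i)
  have hcd : ∀ i, c i = v1 i * v2 i * (z i - g1 i) := fun i => by simp only [hc, hg1]
  have hcc : ∀ i, star (c i) * c i = z i - g1 i := fun i => by
    rw [hcd, star_mul, star_mul, PJ.star (hzg1 i)]
    calc (z i - g1 i) * (star (v2 i) * star (v1 i)) * (v1 i * v2 i * (z i - g1 i))
        = (z i - g1 i) * (star (v2 i) * ((star (v1 i) * v1 i) * v2 i)) * (z i - g1 i) := by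
          simp only [mul_assoc]
      _ = (z i - g1 i) * z i * (z i - g1 i) := by rw [a1, c2, a2]
      _ = z i - g1 i := by rw [sub_mul, hzz, g1z, PJ.mul_self (hzg1 i)]
  have hcc' : ∀ i, c i * star (c i) = v1 i * (v2 i * (z i - g1 i) * star (v2 i)) * star (v1 i) :=
    fun i => by
    rw [hcd, star_mul, star_mul, PJ.star (hzg1 i)]
    calc v1 i * v2 i * (z i - g1 i) * ((z i - g1 i) * (star (v2 i) * star (v1 i)))
        = v1 i * (v2 i * ((z i - g1 i) * (z i - g1 i)) * star (v2 i)) * star (v1 i) := by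
          simp only [mul_assoc]
      _ = _ := by rw [PJ.mul_self (hzg1 i)]
  have hbp : ∀ i, PJ (b i * star (b i)) := fun i => pi_final (hg2p i) (hbb i)
  have hcp : ∀ i, PJ (c i * star (c i)) := fun i => pi_final (hzg1 i) (hcc i)
  have g1b : ∀ i, g1 i * (b i * star (b i)) = b i * star (b i) := fun i => by
    rw [hbb']; simp only [hg1]
    calc v1 i * star (v1 i) * (v1 i * (v1 i * star (v1 i)) * star (v1 i))
        = v1 i * ((star (v1 i) * v1 i) * v1 i) * star (v1 i) * star (v1 i) := by
          simp only [mul_assoc]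
      _ = _ := by rw [a1, c1]; simp only [mul_assoc]
  have g1c : ∀ i, g1 i * (c i * star (c i)) = c i * star (c i) := fun i => by
    rw [hcc']; simp only [hg1]
    calc v1 i * star (v1 i) * (v1 i * (v2 i * (z i - v1 i * star (v1 i)) * star (v2 i))
          * star (v1 i))
        = v1 i * ((star (v1 i) * v1 i) * v2 i) * (z i - v1 i * star (v1 i)) * star (v2 i)
          * star (v1 i) := by simp only [mul_assoc]
      _ = _ := by rw [a1, c2]; simp only [mul_assoc]
  have bg1 : ∀ i, b i * star (b i) * g1 i = b i * star (b i) := fun i => le_rev' (hbp i) (hg1p i) (g1b i)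
  have cg1 : ∀ i, c i * star (c i) * g1 i = c i * star (c i) := fun i => le_rev' (hcp i) (hg1p i) (g1c i)
  have g12 : ∀ i, g1 i * g2 i = 0 := fun i => by
    simp only [hg1, hg2]
    calc v1 i * star (v1 i) * (v2 i * star (v2 i)) = v1 i * (star (v1 i) * v2 i) * star (v2 i) := by
          simp only [mul_assoc]
      _ = 0 := by rw [a12]; simp
  have bc : ∀ i, b i * star (b i) * (c i * star (c i)) = 0 := fun i => by
    rw [hbb', hcc']; simp only [hg1]
    calc v1 i * (v1 i * star (v1 i)) * star (v1 i) *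
          (v1 i * (v2 i * (z i - v1 i * star (v1 i)) * star (v2 i)) * star (v1 i))
        = v1 i * v1 i * (star (v1 i) * ((star (v1 i) * v1 i) * v2 i)) *
          (z i - v1 i * star (v1 i)) * star (v2 i) * star (v1 i) := by simp only [mul_assoc]
      _ = 0 := by rw [a1, c2, a12]; simp
  -- cross terms
  have zb : ∀ i, z i * (b i * star (b i)) = b i * star (b i) := fun i => by
    rw [← g1b i, ← mul_assoc, zg1]
  have bz : ∀ i, b i * star (b i) * z i = b i * star (b i) := fun i => by
    rw [← bg1 i, mul_assoc, g1z]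
  have zc : ∀ i, z i * (c i * star (c i)) = c i * star (c i) := fun i => by
    rw [← g1c i, ← mul_assoc, zg1]
  have cz : ∀ i, c i * star (c i) * z i = c i * star (c i) := fun i => by
    rw [← cg1 i, mul_assoc, g1z]
  have zD : ∀ i, z i * (z i - g1 i) = z i - g1 i := fun i => by rw [mul_sub, hzz, zg1]
  have Dz : ∀ i, (z i - g1 i) * z i = z i - g1 i := fun i => by rw [sub_mul, hzz, g1z]
  -- suprema
  obtain ⟨G1, hG1⟩ := hSup ι g1 hg1p
  obtain ⟨G2, hG2⟩ := hSup ι g2 hg2p
  obtain ⟨D, hD⟩ := hSup ι (fun i => z i - g1 i) hzg1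
  obtain ⟨H1, hH1⟩ := hSup ι (fun i => b i * star (b i)) hbp
  obtain ⟨H2, hH2⟩ := hSup ι (fun i => c i * star (c i)) hcp
  have G12 : G1 * G2 = 0 := sup_orth hg1p hg2p hG1 hG2 (fun i j => by
    by_cases hij : i = j
    · subst hij; exact g12 i
    · exact hx i j hij _ _ (g1z i) (zg2 j))
  have G21 : G2 * G1 = 0 := orth_comm hG1.1 hG2.1 G12
  have H12 : H1 * H2 = 0 := sup_orth hbp hcp hH1 hH2 (fun i j => by
    by_cases hij : i = j
    · subst hij; exact bc i
    · exact hx i j hij _ _ (bz i) (zc j))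
  have H1G : H1 * G1 = H1 := sup_le hbp hH1 hG1.1 (fun i => by
    rw [← bg1 i, mul_assoc, hG1.2.1 i])
  have H2G : H2 * G1 = H2 := sup_le hcp hH2 hG1.1 (fun i => by
    rw [← cg1 i, mul_assoc, hG1.2.1 i])
  have GH1 : G1 * H1 = H1 := Le.rev hH1.1 hG1.1 H1G
  have GH2 : G1 * H2 = H2 := Le.rev hH2.1 hG1.1 H2G
  have G2H1 : G2 * H1 = 0 := by rw [← GH1, ← mul_assoc, G21, zero_mul]
  have DG1 : D * G1 = 0 := sup_orth hzg1 hg1p hD hG1 (fun i j => by
    by_cases hij : i = j
    · subst hij; rw [sub_mul, zg1, PJ.mul_self (hg1p i), sub_self]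
    · exact hx i j hij _ _ (Dz i) (zg1 j))
  have DH2 : D * H2 = 0 := by rw [← GH2, ← mul_assoc, DG1, zero_mul]
  have G1D : G1 * D = 0 := orth_comm hD.1 hG1.1 DG1
  -- `G1 + D = E`
  have hsum : G1 + D = E := by
    have hG1E : G1 * E = G1 := sup_le hg1p hG1 hE.1 (fun i => by
      rw [← g1z i, mul_assoc, hE.2.1 i])
    have hDE : D * E = D := sup_le hzg1 hD hE.1 (fun i => by
      show (z i - g1 i) * E = z i - g1 i
      rw [← Dz i, mul_assoc, hE.2.1 i])
    have h1 : (1 - (G1 + D)) * E = 0 := by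
      apply hE.2.2
      intro i
      have h2 : G1 * z i = g1 i := by
        have h3 : G1 * z i = (z i * G1) := ((hz i).2 G1).symm
        have h4 : (z i - g1 i) * G1 = 0 := by
          apply hG1.2.2
          intro j
          by_cases hij : i = j
          · subst hij; rw [sub_mul, zg1, PJ.mul_self (hg1p i), sub_self]
          · exact hx i j hij _ _ (Dz i) (zg1 j)
        rw [h3, ← sub_add_cancel (z i) (g1 i), add_mul, h4, zero_add, hG1.2.1 i]
      have h5 : D * z i = z i - g1 i := by
        have h3 : D * z i = (z i * D) := ((hz i).2 D).symm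
        have h4 : g1 i * D = 0 := by
          apply hD.2.2
          intro j
          by_cases hij : i = j
          · subst hij; show g1 i * (z i - g1 i) = 0
            rw [mul_sub, g1z, PJ.mul_self (hg1p i), sub_self]
          · exact hx i j hij _ _ (g1z i) (zD j)
        rw [h3, ← sub_add_cancel (z i) (g1 i), add_mul, h4, add_zero, hD.2.1 i]
        simp
      rw [sub_mul, one_mul, add_mul, h2, h5]; abel
    rw [sub_mul, one_mul, add_mul, hG1E, hDE, sub_eq_zero] at h1
    exact h1.symm
  -- the sums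
  obtain ⟨α, α1, α2, -⟩ := hAO ι a G1 G2 (fun i => by rw [haa]; exact hg1p i)
    (fun i j hij => by rw [haa, haa]; exact hx i j hij _ _ (g1z i) (zg1 j))
    (fun i j hij => by rw [haa', haa']; exact hx i j hij _ _ (g2z i) (zg2 j))
    (by simp only [haa]; exact hG1) (by simp only [haa']; exact hG2) G12
  obtain ⟨β, β1, β2, -⟩ := hAO ι b G2 H1 (fun i => by rw [hbb]; exact hg2p i)
    (fun i j hij => by rw [hbb, hbb]; exact hx i j hij _ _ (g2z i) (zg2 j))
    (fun i j hij => hx i j hij _ _ (bz i) (zb j))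
    (by simp only [hbb]; exact hG2) hH1 G2H1
  obtain ⟨γ, γ1, γ2, -⟩ := hAO ι c D H2 (fun i => by rw [hcc]; exact hzg1 i)
    (fun i j hij => by rw [hcc, hcc]; exact hx i j hij _ _ (Dz i) (zD j))
    (fun i j hij => hx i j hij _ _ (cz i) (zc j))
    (by simp only [hcc]; exact hD) hH2 DH2
  have αr : α * G1 = α := pi_right hG1.1 α1
  have αl : G2 * α = α := pi_left hG1.1 α1 α2
  have βl : H1 * β = β := pi_left hG2.1 β1 β2
  have γl : H2 * γ = γ := pi_left hD.1 γ1 γ2
  have γr : γ * D = γ := pi_right hD.1 γ1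
  have hβγ : star β * γ = 0 := by
    rw [← star_absorb_left hH1.1 βl, mul_assoc, ← γl, ← mul_assoc H1, H12]; simp
  have hγβ : star γ * β = 0 := by
    have := congrArg star hβγ
    rwa [star_mul, star_star, star_zero] at this
  have hGβ : G1 * β = β := by rw [← βl, ← mul_assoc, GH1]
  have hGγ : G1 * γ = γ := by rw [← γl, ← mul_assoc, GH2]
  have hV1 : star (β * α + γ) * (β * α + γ) = E := by
    rw [star_add, star_mul]
    calc (star α * star β + star γ) * (β * α + γ)
        = star α * ((star β * β) * α) + star α * (star β * γ) + (star γ * β) * α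
          + star γ * γ := by simp only [add_mul, mul_add, mul_assoc]; abel
      _ = G1 + D := by rw [β1, αl, α1, hβγ, hγβ, γ1]; simp
      _ = E := hsum
  have hGV : G1 * (β * α + γ) = β * α + γ := by rw [mul_add, ← mul_assoc, hGβ, hGγ]
  have hG1E : G1 * E = G1 := by rw [← hsum, mul_add, PJ.mul_self hG1.1, G1D, add_zero]
  have hEG1 : E * G1 = G1 := Le.rev hG1.1 hE.1 hG1E
  have hEV : E * (β * α + γ) = β * α + γ := by rw [← hGV, ← mul_assoc, hEG1]
  refine ⟨β * α + γ, α * (β * α + γ), hV1, ?_, ?_, hEV, ?_⟩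
  · rw [star_mul]
    calc star (β * α + γ) * star α * (α * (β * α + γ))
        = star (β * α + γ) * ((star α * α) * (β * α + γ)) := by simp only [mul_assoc]
      _ = E := by rw [α1, hGV, hV1]
  · have h1 : star (β * α + γ) * G1 = star (β * α + γ) := star_absorb_left hG1.1 hGV
    calc star (β * α + γ) * (α * (β * α + γ))
        = (star (β * α + γ) * G1) * ((G2 * α) * (β * α + γ)) := by rw [h1, αl]
      _ = star (β * α + γ) * (G1 * G2) * α * (β * α + γ) := by simp only [mul_assoc]
      _ = 0 := by rw [G12]; simp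
  · rw [← mul_assoc, hEC.2 α, mul_assoc, hEV]

end Pool.Agent.L0h87.CL2
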