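import Pool.Agent.L0h87.CL2.Crn
import Pool.Agent.L0h87.CL2.Glob
import Pool.Agent.R456.CL.Sa456

/-!
# Every AW*-algebra is clean
-/

set_option autoImplicit false

namespace Pool.Agent.L0h87.CL2

open Pool.Agent.R456.CL

universe u

variable {A : Type u} [CStarAlgebra A]

/-- a central sum of finite central projections is finite. -/
lemma fin_sup {ι : Type*} {z : ι → A} {E : A} (hz : ∀ i, CP (z i)) (hfin : ∀ i, ¬ Infin (z i))
    (hE : IsSup z E) : ¬ Infin E := by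
  rintro ⟨v, h1, h2, h3⟩
  have hd : ∀ i, (E - v * star v) * z i = 0 := by
    intro i
    by_contra hne
    apply hfin i
    have hEz : z i * E = z i := hE.2.1 i
    refine ⟨z i * v, ?_, ?_, ?_⟩
    · rw [cut_star (hz i), cut_mul (hz i), h1, hEz]
    · rw [cut_star (hz i), cut_mul (hz i), ← (hz i).2, cut_cut (hz i)]
    · rw [cut_star (hz i), cut_mul (hz i)]
      intro h
      apply hne
      rw [← (hz i).2, mul_sub, hEz, h, sub_self]
  have h4 := hE.2.2 _ hd
  rw [sub_mul, h2, PJ.mul_self hE.1, sub_eq_zero] at h4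
  exact h3 h4.symm

/-- the properly infinite part is halvable. -/
lemma exists_half (hP : PSup A) (hAO : PAddO A) (hgc : PGC A) {e : A} (he : CP e)
    (hinf : ∀ w : A, CP w → w ≠ 0 → w * e = w → Infin w) : Half' e := by
  classical
  let Fam : Set (Set A) := {F | (∀ q ∈ F, CP q ∧ q ≠ 0 ∧ q * e = q ∧ Half' q) ∧
    ∀ q ∈ F, ∀ q' ∈ F, q ≠ q' → q * q' = 0}
  obtain ⟨F, hF⟩ : ∃ F, Maximal (· ∈ Fam) F := by
    refine zorn_subset Fam ?_
    intro c hc hchain
    refine ⟨⋃₀ c, ⟨?_, ?_⟩, fun s hs => Set.subset_sUnion_of_mem hs⟩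
    · rintro p ⟨s, hs, hps⟩
      exact (hc hs).1 p hps
    · rintro p ⟨s, hs, hps⟩ q ⟨t, ht, hqt⟩ hpq
      rcases hchain.total hs ht with h | h
      · exact (hc ht).2 p (h hps) q hqt hpq
      · exact (hc hs).2 p hps q (h hqt) hpq
  obtain ⟨hF1, hF2⟩ := hF.prop
  obtain ⟨Q, hQ⟩ := hP F (fun i => i.1) (fun i => (hF1 i.1 i.2).1.1)
  have hQH : Half' Q := glob_iso hP hAO (z := fun i : F => i.1) (fun i => (hF1 i.1 i.2).1)
    (fun i j hij => hF2 i.1 i.2 j.1 j.2 (fun h => hij (Subtype.ext h))) hQ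
    (fun i => (hF1 i.1 i.2).2.2.2)
  have hQC : CP Q := sup_cp (fun i : F => (hF1 i.1 i.2).1) hQ
  have hQe : Q * e = Q := Inf2.sup_le (fun i : F => (hF1 i.1 i.2).1.1) hQ he.1
    (fun i => (hF1 i.1 i.2).2.2.1)
  by_cases hQ1 : e - Q = 0
  · rw [sub_eq_zero.1 hQ1]; exact hQH
  · exfalso
    have hr : CP (e - Q) := ⟨pj_sub hQ.1 he.1 hQe, fun x => by
      rw [sub_mul, mul_sub, he.2, hQC.2]⟩
    have hre : (e - Q) * e = e - Q := by rw [sub_mul, PJ.mul_self he.1, hQe]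
    have hrQ : (e - Q) * Q = 0 := by
      rw [sub_mul, he.2, hQe, PJ.mul_self hQ.1, sub_self]
    obtain ⟨z, hz, hz0, hzh⟩ := half_local hP hAO hgc hr.1 (hinf _ hr hQ1 hre)
    obtain ⟨q, hqd⟩ : ∃ q, q = z * (e - Q) := ⟨_, rfl⟩
    rw [← hqd] at hz0 hzh
    have hq : CP q := by rw [hqd]; exact hz.mul hr
    have hqe : q * e = q := by rw [hqd, mul_assoc, hre]
    have hqQ : q * Q = 0 := by rw [hqd, mul_assoc, hrQ, mul_zero]
    have hqi : ∀ i ∈ F, q * i = 0 := by
      intro i hi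
      rw [← Le.rev (hF1 i hi).1.1 hQ.1 (hQ.2.1 ⟨i, hi⟩), ← mul_assoc, hqQ, zero_mul]
    have hnot : q ∉ F := by
      intro h
      apply hz0
      rw [← PJ.mul_self hq.1]; exact hqi q h
    have hins : insert q F ∈ Fam := by
      refine ⟨?_, ?_⟩
      · rintro p (rfl | hp)
        · exact ⟨hq, hz0, hqe, (half_iff hq.1).1 hzh⟩
        · exact hF1 p hp
      · rintro p (rfl | hp) p' (rfl | hp') hne
        · exact absurd rfl hne
        · exact hqi p' hp'
        · exact orth_comm hq.1 (hF1 p hp).1.1 (hqi p hp)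
        · exact hF2 p hp p' hp' hne
    exact hnot (hF.le_of_ge hins (Set.subset_insert _ _) (Set.mem_insert _ _))

/-- the properly infinite part is clean. -/
lemma clean_half (hsa : PSa A) (hsupO : PSupO A) {e : A} (he : CP e) (hh : Half' e) (T : A) :
    CleanIn e (e * T) := by
  have hsaB : PSa (Crn e he) := sa_crn hsa
  have hsupOB : PSupO (Crn e he) := supO_crn hsupO
  have hCUB : PCutU (Crn e he) := cutU_ok hsaB
  have hsupB : PSup (Crn e he) := Sup.sup_ok _ hsupOB hCUB.cut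
  have hAOB : PAddO (Crn e he) := AddO.addO_ok _ hsupOB
  have hgcB : PGC (Crn e he) := gc_ok hCUB.cut hsupOB hsupB hAOB
  obtain ⟨v1, v2, a1, a2, a12, c1, c2⟩ := hh
  have hAddB : PAdd (Crn e he) := add_of_iso (v₁ := Crn.mk v1 c1) (v₂ := Crn.mk v2 c2)
    (Crn.ext' (by simpa using a1)) (Crn.ext' (by simpa using a2)) (Crn.ext' (by simpa using a12))
    hAOB
  exact clean_crn (clean_PI hsaB hCUB hsupB hAOB hgcB hAddB (Crn.mk (e * T) (cut_cut he)))

/-- every AW*-algebra is clean, in terms of `CleanIn`. -/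
theorem clean_all (hsa : PSa A) (hAW : IsAWStar A) (T : A) : CleanIn 1 T := by
  have hCU : PCutU A := cutU_ok hsa
  have hsupO : PSupO A := Sup.supO_ok A hAW hCU.cut
  have hsup : PSup A := Sup.sup_ok A hsupO hCU.cut
  have hAO : PAddO A := AddO.addO_ok A hsupO
  have hgc : PGC A := gc_ok hCU.cut hsupO hsup hAO
  obtain ⟨f, hf⟩ := hsup {z : A // CP z ∧ ¬ Infin z} (fun z => z.1) (fun z => z.2.1.1)
  have hfC : CP f := sup_cp (fun z : {z : A // CP z ∧ ¬ Infin z} => z.2.1) hf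
  have hfin : ¬ Infin f :=
    fin_sup (fun z : {z : A // CP z ∧ ¬ Infin z} => z.2.1) (fun z => z.2.2) hf
  have hc1 : CleanIn f (f * T) := fin_ok' hCU.cut (finC_ok hgc) hfC.1 hfin (cut_cut hfC)
    (by rw [hfC.2 T, mul_assoc, PJ.mul_self hfC.1])
  have hhalf : Half' (1 - f) := by
    refine exists_half hsup hAO hgc hfC.compl ?_
    intro w hw hw0 hwe
    by_contra hn
    have h1 : w * f = w := hf.2.1 ⟨w, hw, hn⟩
    apply hw0
    rw [← h1, ← hwe, mul_assoc, sub_mul, one_mul, PJ.mul_self hfC.1, sub_self, mul_zero]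
  have hc2 : CleanIn (1 - f) ((1 - f) * T) := clean_half hsa hsupO hfC.compl hhalf T
  obtain ⟨P1, p1, p2, p3, p4⟩ := hc1
  obtain ⟨P2, q1, q2, q3, q4⟩ := hc2
  have o1 : f * (1 - f) = 0 := compl_mul hfC
  have o2 : (1 - f) * f = 0 := compl_mul' hfC
  have h12 : P1 * P2 = 0 := by
    rw [← p2, ← q1, mul_assoc, ← mul_assoc f, o1]; simp
  have h21 : P2 * P1 = 0 := by
    rw [← q2, ← p1, mul_assoc, ← mul_assoc (1 - f), o2]; simp
  refine ⟨P1 + P2, one_mul _, mul_one _, ?_, ?_⟩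
  · rw [add_mul, mul_add, mul_add, p3, q3, h12, h21]; simp
  · have h := iso_add (PJ.mul_self hfC.1) (PJ.mul_self hfC.compl.1) o1 o2 o1 o2 p4 q4
    have e1 : f + (1 - f) = 1 := by abel
    have e2 : f * T - P1 + ((1 - f) * T - P2) = T - (P1 + P2) := by
      rw [sub_mul, one_mul]; abel
    rwa [e1, e2] at h

end Pool.Agent.L0h87.CL2
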