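import Pool.Agent.L0h87.CL2.Cen

/-!
# Generalized comparability (adapted from `Pool.Agent.R456.CL.CmpO`)
-/

set_option autoImplicit false

namespace Pool.Agent.L0h87.CL2

open Pool.Agent.R456.CL
open Pool.Agent.R456.CL.CmpO (Good exists_max final_proj star_eq_of sub_proj)

universe u

variable {A : Type u} [CStarAlgebra A]

/-- generalized comparability of orthogonal projections. -/
theorem gco (hCut : PCut A) (hSup : PSupO A) (hSupA : PSup A) (hAdd : PAddO A) {e f : A}
    (he : PJ e) (hf : PJ f) (hef : e * f = 0) :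
    ∃ z : A, CP z ∧ Sub (z * e) (z * f) ∧ Sub ((1 - z) * f) ((1 - z) * e) := by
  have hfe : f * e = 0 := by
    have := congrArg star hef
    rwa [star_mul, he.isSelfAdjoint.star_eq, hf.isSelfAdjoint.star_eq, star_zero] at this
  obtain ⟨W, hW⟩ := exists_max e f
  have hG := hW.1
  -- the two suprema
  have hinj : ∀ i j : W, i ≠ j → (i : A) ≠ (j : A) := fun i j h h' => h (Subtype.ext h')
  have hPi : ∀ i : W, IsStarProjection (star (i : A) * (i : A)) := fun i => (hG.1 i i.2).2.1
  have hPf : ∀ i : W, IsStarProjection ((i : A) * star (i : A)) := fun i => final_proj (hPi i)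
  obtain ⟨E, hE⟩ := hSup W (fun i => star (i : A) * (i : A)) hPi
    (fun i j h => (hG.2 i i.2 j j.2 (hinj i j h)).1)
  obtain ⟨F, hF⟩ := hSup W (fun i => (i : A) * star (i : A)) hPf
    (fun i j h => (hG.2 i i.2 j j.2 (hinj i j h)).2)
  have hEP : IsStarProjection E := hE.1
  have hFP : IsStarProjection F := hF.1
  -- E ≤ e, F ≤ f
  have heE : e * E = E := by
    have h1 : (1 - e) * E = 0 := by
      apply hE.2.2
      intro i
      have h2 : e * (star (i : A) * (i : A)) = star (i : A) * (i : A) :=
        star_eq_of (hPi i) he (hG.1 i i.2).2.2.1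
      rw [sub_mul, one_mul, h2, sub_self]
    rw [sub_mul, one_mul, sub_eq_zero] at h1
    exact h1.symm
  have hfF : f * F = F := by
    have h1 : (1 - f) * F = 0 := by
      apply hF.2.2
      intro i
      have h2 : f * ((i : A) * star (i : A)) = (i : A) * star (i : A) :=
        star_eq_of (hPf i) hf (hG.1 i i.2).2.2.2
      rw [sub_mul, one_mul, h2, sub_self]
    rw [sub_mul, one_mul, sub_eq_zero] at h1
    exact h1.symm
  have hEe : E * e = E := by
    have := congrArg star heE
    rwa [star_mul, he.isSelfAdjoint.star_eq, hEP.isSelfAdjoint.star_eq] at this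
  have hFf : F * f = F := by
    have := congrArg star hfF
    rwa [star_mul, hf.isSelfAdjoint.star_eq, hFP.isSelfAdjoint.star_eq] at this
  have hEF : E * F = 0 := by
    rw [← hEe, ← hfF, mul_assoc, ← mul_assoc e f F, hef, zero_mul, mul_zero]
  obtain ⟨v, hv1, hv2, -⟩ := hAdd W (fun i => (i : A)) E F hPi
    (fun i j h => (hG.2 i i.2 j j.2 (hinj i j h)).1)
    (fun i j h => (hG.2 i i.2 j j.2 (hinj i j h)).2) hE hF hEF
  have hPfF : IsStarProjection (f - F) := sub_proj hFP hf hFf
  have hPeE : IsStarProjection (e - E) := sub_proj hEP he hEe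
  by_cases hx : ∀ x : A, (f - F) * x * (e - E) = 0
  · obtain ⟨c, hc, hc1, hc2⟩ := cover hSupA hCut hPeE
    have hc3 := hc2 (f - F) hPfF hx
    have hcE : c * e = c * E := by
      rw [hc.2, hc.2, ← sub_eq_zero, ← sub_mul]; exact hc1
    have hcF : (1 - c) * f = (1 - c) * F := by
      rw [hc.compl.2, hc.compl.2, ← sub_eq_zero, ← sub_mul, mul_sub, mul_one, hc3, sub_self]
    have hEF' : Eqv E F := ⟨v, hv1, hv2⟩
    refine ⟨c, hc, ?_, ?_⟩
    · rw [hcE]
      exact sub_trans' (cut_pj hc hEP) (cut_pj hc hFP) (cut_pj hc hf)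
        (sub_of_eqv (cut_pj hc hFP) (cut_eqv hc hEF')) (sub_of_le' (cut_pj hc hFP) (cut_le hc hFf))
    · rw [hcF]
      exact sub_trans' (cut_pj hc.compl hFP) (cut_pj hc.compl hEP) (cut_pj hc.compl he)
        (sub_of_eqv (cut_pj hc.compl hEP) (cut_eqv hc.compl (eqv_symm hEF')))
        (sub_of_le' (cut_pj hc.compl hEP) (cut_le hc.compl hEe))
  · exfalso
    push Not at hx
    obtain ⟨x, hx⟩ := hx
    set y := (f - F) * x * (e - E) with hy
    have hye : y * (e - E) = y := by
      rw [hy, mul_assoc, hPeE.isIdempotentElem]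
    have hfy : (f - F) * y = y := by
      rw [hy, ← mul_assoc, ← mul_assoc, hPfF.isIdempotentElem]
    have hypos : 0 < ‖y‖ := norm_pos_iff.2 hx
    obtain ⟨k, s, hk, hks, hsk, hss, hcomm, hssy, hyss, hsys, hnorm⟩ :=
      hCut y (‖y‖ / 2) (by linarith)
    have hk0 : k ≠ 0 := by
      intro h
      rw [h, sub_zero, mul_one] at hnorm
      linarith
    have hkeE : k * (e - E) = k := by
      calc k * (e - E) = s * s * (star y * (y * (e - E))) := by rw [← hssy]; noncomm_ring
        _ = k := by rw [hye, hssy]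
    have hke : k * e = k := by
      have h1 : (e - E) * e = e - E := by
        rw [sub_mul, hEe, show e * e = e from he.isIdempotentElem]
      rw [← hkeE, mul_assoc, h1]
    have hkE : k * E = 0 := by
      have h1 : (e - E) * E = 0 := by
        rw [sub_mul, heE, show E * E = E from hEP.isIdempotentElem, sub_self]
      rw [← hkeE, mul_assoc, h1, mul_zero]
    -- the new element
    set w := y * s with hw
    have hww : star w * w = k := by
      rw [hw, star_mul, hss, ← hsys]
      noncomm_ring
    have hwP : IsStarProjection (star w * w) := by rw [hww]; exact hk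
    have hwF : (f - F) * w = w := by rw [hw, ← mul_assoc, hfy]
    have hwwf : (w * star w) * (f - F) = w * star w := by
      have h1 : star w * (f - F) = star w := by
        have := congrArg star hwF
        rwa [star_mul, hPfF.isSelfAdjoint.star_eq] at this
      rw [mul_assoc, h1]
    have hwf : (w * star w) * f = w * star w := by
      have h1 : (f - F) * f = f - F := by
        rw [sub_mul, hFf, show f * f = f from hf.isIdempotentElem]
      rw [← hwwf, mul_assoc, h1]
    have hwF0 : (w * star w) * F = 0 := by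
      have h1 : (f - F) * F = 0 := by
        rw [sub_mul, hfF, show F * F = F from hFP.isIdempotentElem, sub_self]
      rw [← hwwf, mul_assoc, h1, mul_zero]
    have hw0 : w ≠ 0 := by
      intro h
      apply hk0
      rw [← hww, h, mul_zero]
    -- orthogonality with the members
    have ho1 : ∀ i ∈ W, (star w * w) * (star i * i) = 0 := by
      intro i hi
      have h1 : E * (star i * i) = star i * i :=
        star_eq_of (hPi ⟨i, hi⟩) hEP (hE.2.1 ⟨i, hi⟩)
      rw [hww, ← h1, ← mul_assoc, hkE, zero_mul]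
    have ho2 : ∀ i ∈ W, (w * star w) * (i * star i) = 0 := by
      intro i hi
      have h1 : F * (i * star i) = i * star i :=
        star_eq_of (hPf ⟨i, hi⟩) hFP (hF.2.1 ⟨i, hi⟩)
      rw [← h1, ← mul_assoc, hwF0, zero_mul]
    have ho1' : ∀ i ∈ W, (star i * i) * (star w * w) = 0 := by
      intro i hi
      have := congrArg star (ho1 i hi)
      simpa [mul_assoc] using this
    have ho2' : ∀ i ∈ W, (i * star i) * (w * star w) = 0 := by
      intro i hi
      have := congrArg star (ho2 i hi)
      simpa [mul_assoc] using this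
    have hwW : w ∉ W := by
      intro h
      have h1 := ho1 w h
      rw [hww, show k * k = k from hk.isIdempotentElem] at h1
      exact hk0 h1
    have hgood : Good e f (insert w W) := by
      refine ⟨?_, ?_⟩
      · rintro a (rfl | ha)
        · exact ⟨hw0, hwP, by rw [hww, hke], hwf⟩
        · exact hG.1 a ha
      · rintro a ha b hb hne
        rcases ha with rfl | ha <;> rcases hb with rfl | hb
        · exact absurd rfl hne
        · exact ⟨ho1 b hb, ho2 b hb⟩
        · exact ⟨ho1' a ha, ho2' a ha⟩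
        · exact hG.2 a ha b hb hne
    have := hW.2 hgood (Set.subset_insert w W)
    exact hwW (this (Set.mem_insert w W))

/-- generalized comparability. -/
def PGC (A : Type u) [CStarAlgebra A] : Prop := ∀ e f : A, PJ e → PJ f →
  ∃ z : A, CP z ∧ Sub (z * e) (z * f) ∧ Sub ((1 - z) * f) ((1 - z) * e)

lemma sub_add_orth {a b c d : A} (ha : PJ a) (hb : PJ b) (hc : PJ c) (hd : PJ d)
    (hac : a * c = 0) (hbd : b * d = 0) (h1 : Sub a b) (h2 : Sub c d) : Sub (a + c) (b + d) := by
  obtain ⟨v, hv, hvb⟩ := h1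
  obtain ⟨w, hw, hwd⟩ := h2
  have hbv := pi_le ha hb hv hvb
  have hdw := pi_le hc hd hw hwd
  have hvb' := star_absorb_left hb hbv
  have hwd' := star_absorb_left hd hdw
  have hva := pi_right ha hv
  have hwc := pi_right hc hw
  have hva' := star_absorb_right ha hva
  have hwc' := star_absorb_right hc hwc
  have hdb := orth_comm hb hd hbd
  have hca := orth_comm ha hc hac
  have e1 : star v * w = 0 := by rw [← hvb', mul_assoc, ← hdw, ← mul_assoc b, hbd]; simp
  have e2 : star w * v = 0 := by rw [← hwd', mul_assoc, ← hbv, ← mul_assoc d, hdb]; simp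
  have e3 : v * star w = 0 := by rw [← hva, mul_assoc, ← hwc', ← mul_assoc a, hac]; simp
  have e4 : w * star v = 0 := by rw [← hwc, mul_assoc, ← hva', ← mul_assoc c, hca]; simp
  refine ⟨v + w, ?_, ?_⟩
  · rw [star_add, add_mul, mul_add, mul_add, e1, e2, hv, hw]; abel
  · have e5 : (v + w) * star (v + w) = v * star v + w * star w := by
      rw [star_add, add_mul, mul_add, mul_add, e3, e4]; abel
    have e6 : v * star v * d = 0 := by
      rw [mul_assoc, ← hvb', mul_assoc, hbd]; simp
    have e7 : w * star w * b = 0 := by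
      rw [mul_assoc, ← hwd', mul_assoc, hdb]; simp
    rw [e5, add_mul, mul_add, mul_add, hvb, hwd, e6, e7]; abel

theorem gc_ok (hCut : PCut A) (hSup : PSupO A) (hSupA : PSup A) (hAdd : PAddO A) : PGC A := by
  intro e f he hf
  have hee := PJ.mul_self he
  have hff := PJ.mul_self hf
  obtain ⟨k, w, c, hk, hke, hw, hwf, hwx, -, -, -, -, hn⟩ :=
    cut_pack (x := f * e) (e := e) (f := f) hCut he hf (by rw [mul_assoc, hee])
      (by rw [← mul_assoc, hff]) (ε := 1 / 2) (by norm_num)
  obtain ⟨h, hh⟩ : ∃ h, h = w * star w := ⟨_, rfl⟩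
  have hhp : PJ h := by rw [hh]; exact pi_final hk hw
  rw [← hh] at hwf hwx
  have hkk := PJ.mul_self hk
  have hhh := PJ.mul_self hhp
  have he' : PJ (e - k) := pj_sub hk he hke
  have hf' : PJ (f - h) := pj_sub hhp hf hwf
  obtain ⟨ok1, ok2⟩ := le_sub_orth hk he hke
  obtain ⟨oh1, oh2⟩ := le_sub_orth hhp hf hwf
  -- f' e' is small
  have hfe' : (f - h) * (e - k) = f * e * (e - k) := by
    have h1 : h * (e - k) = 0 := by
      have h2 : h * (f * e) = f * e * k := hwx
      have h3 : h * f = h := hwf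
      calc h * (e - k) = h * f * (e * (e - k)) := by
            rw [h3, mul_sub e, hee, hke.rev hk he]
        _ = (h * (f * e)) * (e - k) := by simp only [mul_assoc]
        _ = f * e * (k * (e - k)) := by rw [h2]; simp only [mul_assoc]
        _ = 0 := by rw [ok1, mul_zero]
    rw [sub_mul, h1, sub_zero, mul_assoc, mul_sub e, hee, hke.rev hk he]
  have hn' : ‖(f - h) * (e - k)‖ ≤ 1 / 2 := by rw [hfe']; exact hn
  obtain ⟨e', he'd⟩ : ∃ e', e' = e - k := ⟨_, rfl⟩
  obtain ⟨f', hf'd⟩ : ∃ f', f' = f - h := ⟨_, rfl⟩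
  rw [← he'd] at he' ok1 ok2 hn'
  rw [← hf'd] at hf' oh1 oh2 hn'
  have hee' := PJ.mul_self he'
  have hff' := PJ.mul_self hf'
  -- rotate f' off e'
  have hI : Iso f' f' (f' + (-(f' * e' * f'))) := by
    refine iso_neumann hf' ?_ ?_ ?_
    · rw [mul_neg, ← mul_assoc, ← mul_assoc, hff']
    · rw [neg_mul, mul_assoc, hff']
    · rw [norm_neg]
      have : ‖f' * e' * f'‖ ≤ 1 / 2 * 1 :=
        (norm_mul_le _ _).trans (mul_le_mul hn' (pj_norm_le hf') (norm_nonneg _) (by norm_num))
      linarith
  obtain ⟨-, -, y, hy1, hy2, hy3, hy4⟩ := hI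
  obtain ⟨v, l, t, hv, hvl, hl, -, hlt, -⟩ := left_inv (e := f') (x := (1 - e') * f')
    (y := y * (f' * (1 - e'))) hf' (by rw [mul_assoc, hff']) (by
      have h1 : f' * (1 - e') * ((1 - e') * f') = f' + (-(f' * e' * f')) := by
        have h2 : (1 - e') * (1 - e') = 1 - e' := by
          rw [mul_sub, sub_mul, sub_mul, hee']; simp
        calc f' * (1 - e') * ((1 - e') * f') = f' * ((1 - e') * (1 - e')) * f' := by
              simp only [mul_assoc]
          _ = _ := by rw [h2, mul_sub, sub_mul, mul_one, hff']; abel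
      rw [mul_assoc, h1, hy3])
  have hel : e' * l = 0 := by
    rw [hlt, ← mul_assoc, ← mul_assoc, mul_sub, mul_one, hee', sub_self]; simp
  obtain ⟨z, hz, hz1, hz2⟩ := gco hCut hSup hSupA hAdd he' hl hel
  have hfl : Eqv f' l := ⟨v, hv, hvl⟩
  have hkh : Eqv k h := ⟨w, hw, hh.symm⟩
  have hzc := hz.compl
  have hek : k + e' = e := by rw [he'd]; abel
  have hfh : h + f' = f := by rw [hf'd]; abel
  refine ⟨z, hz, ?_, ?_⟩
  · have s1 : Sub (z * e') (z * f') := sub_trans' (cut_pj hz he') (cut_pj hz hl) (cut_pj hz hf')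
      hz1 (sub_of_eqv (cut_pj hz hf') (cut_eqv hz (eqv_symm hfl)))
    have s2 : Sub (z * k) (z * h) := sub_of_eqv (cut_pj hz hhp) (cut_eqv hz hkh)
    have := sub_add_orth (cut_pj hz hk) (cut_pj hz hhp) (cut_pj hz he') (cut_pj hz hf')
      (cut_orth hz ok1) (cut_orth hz oh1) s2 s1
    rwa [← mul_add, ← mul_add, hek, hfh] at this
  · have s1 : Sub ((1 - z) * f') ((1 - z) * e') :=
      sub_trans' (cut_pj hzc hf') (cut_pj hzc hl) (cut_pj hzc he')
        (sub_of_eqv (cut_pj hzc hl) (cut_eqv hzc hfl)) hz2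
    have s2 : Sub ((1 - z) * h) ((1 - z) * k) :=
      sub_of_eqv (cut_pj hzc hk) (cut_eqv hzc (eqv_symm hkh))
    have := sub_add_orth (cut_pj hzc hhp) (cut_pj hzc hk) (cut_pj hzc hf') (cut_pj hzc he')
      (cut_orth hzc oh1) (cut_orth hzc ok1) s2 s1
    rwa [← mul_add, ← mul_add, hek, hfh] at this

end Pool.Agent.L0h87.CL2
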