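import Pool.Agent.L0h87.CL2.CaseAH
import Pool.Agent.R456.CL.W2

/-!
# The reducing hull of a projection
-/

set_option autoImplicit false

namespace Pool.Agent.L0h87.CL2

open Pool.Agent.R456.CL
open Pool.Agent.R456.CL.W2 (subadd)

universe u

variable {A : Type u} [CStarAlgebra A]

lemma sup_le' {ι : Type*} {e : ι → A} {E F : A} (he : ∀ i, PJ (e i)) (hE : IsSup e E) (hF : PJ F)
    (h : ∀ i, Le (e i) F) : Le E F := W2.sup_le he hE hF h

/-- `v1 ^ n * v2`. -/
noncomputable def us (v1 v2 : A) : ℕ → A
  | 0 => v2
  | n + 1 => v1 * us v1 v2 n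

lemma us_spec {p v1 v2 : A} (h1 : star v1 * v1 = p) (h2 : star v2 * v2 = p)
    (h12 : star v1 * v2 = 0) (c1 : p * v1 = v1) (c2 : p * v2 = v2) :
    (∀ n, p * us v1 v2 n = us v1 v2 n) ∧ (∀ n, star (us v1 v2 n) * us v1 v2 n = p) ∧
    (∀ m n, m ≠ n → star (us v1 v2 m) * us v1 v2 n = 0) := by
  have hp : ∀ n, p * us v1 v2 n = us v1 v2 n := by
    intro n
    cases n with
    | zero => exact c2
    | succ n => show p * (v1 * _) = v1 * _; rw [← mul_assoc, c1]
  have h21 : star v2 * v1 = 0 := by
    have := congrArg star h12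
    rwa [star_mul, star_star, star_zero] at this
  have hs : ∀ m n, star (us v1 v2 (m + 1)) * us v1 v2 (n + 1) = star (us v1 v2 m) * us v1 v2 n := by
    intro m n
    show star (v1 * us v1 v2 m) * (v1 * us v1 v2 n) = _
    rw [star_mul]
    calc star (us v1 v2 m) * star v1 * (v1 * us v1 v2 n)
        = star (us v1 v2 m) * ((star v1 * v1) * us v1 v2 n) := by simp only [mul_assoc]
      _ = _ := by rw [h1, hp]
  refine ⟨hp, ?_, ?_⟩
  · intro n
    induction n with
    | zero => exact h2
    | succ n ih => rw [hs, ih]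
  · have key : ∀ m n, m < n → star (us v1 v2 m) * us v1 v2 n = 0 := by
      intro m
      induction m with
      | zero =>
        intro n hn
        obtain ⟨k, rfl⟩ : ∃ k, n = k + 1 := ⟨n - 1, by omega⟩
        show star v2 * (v1 * _) = 0
        rw [← mul_assoc, h21, zero_mul]
      | succ m ih =>
        intro n hn
        obtain ⟨k, rfl⟩ : ∃ k, n = k + 1 := ⟨n - 1, by omega⟩
        rw [hs]; exact ih k (by omega)
    intro m n hmn
    rcases lt_or_gt_of_ne hmn with h | h
    · exact key m n h
    · have := congrArg star (key n m h)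
      rwa [star_mul, star_star, star_zero] at this

/-- a countable supremum of projections below (in the sense of equivalence) a halvable projection. -/
theorem count_sup (hSup : PSup A) (hAdd : PAdd A) (hLR : PLR A) {p : A} (hp : PJ p)
    (hh : Half p) {l : ℕ → A} (hl : ∀ n, PJ (l n)) (hs : ∀ n, Sub (l n) p) {q : A}
    (hq : PJ q) (hlq : ∀ x : A, (∀ n, x * l n = 0) → x * q = 0) : Sub q p := by
  -- orthogonalization
  have step : ∀ (s : {s : A // PJ s}) (n : ℕ), ∃ L : A, PJ L ∧ s.1 * L = 0 ∧ Sub L p ∧
      Le (l n) (s.1 + L) := by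
    rintro ⟨s, hs1⟩ n
    obtain ⟨w, R, L, hR, hL, w1, w2, x1, x2, x3, x4⟩ := hLR ((1 - s) * l n)
    have ss := PJ.mul_self hs1
    have sL : s * L = 0 := by
      apply x4
      rw [← mul_assoc, mul_sub, mul_one, ss, sub_self, zero_mul]
    have hRl : R * l n = R := by
      have h1 : (1 - s) * l n * (1 - l n) = 0 := by
        rw [mul_assoc, mul_sub, mul_one, PJ.mul_self (hl n), sub_self, mul_zero]
      have h2 := x3 _ h1
      rw [mul_sub, mul_one, sub_eq_zero] at h2
      exact h2.symm
    have hRp : Sub R p := sub_trans' hR (hl n) hp (sub_of_le' hR hRl) (hs n)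
    have hLp : Sub L p := sub_trans' hL hR hp (sub_of_eqv hR ⟨star w, by rw [star_star, w2],
      by rw [star_star, w1]⟩) hRp
    refine ⟨L, hL, sL, hLp, ?_⟩
    have h1 : (s + L) * l n = l n := by
      have h2 : L * l n = l n - s * l n := by
        have h3 : L * ((1 - s) * l n) = L * l n := by
          rw [← mul_assoc, mul_sub, mul_one, orth_comm hs1 hL sL, sub_zero]
        rw [← h3, x2, sub_mul, one_mul]
      rw [add_mul, h2]; abel
    have h3 := congrArg star h1
    rwa [star_mul, PJ.star (pj_add hs1 hL sL), PJ.star (hl n)] at h3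
  choose F hF1 hF2 hF3 hF4 using step
  let S : ℕ → {s : A // PJ s} := fun n => Nat.rec ⟨0, pj_zero⟩
    (fun n s => ⟨s.1 + F s n, pj_add s.2 (hF1 s n) (hF2 s n)⟩) n
  have hS : ∀ n, (S (n + 1)).1 = (S n).1 + F (S n) n := fun n => rfl
  let L : ℕ → A := fun n => F (S n) n
  have hLS : ∀ n, (S n).1 * L n = 0 := fun n => hF2 (S n) n
  have hSmono : ∀ n, Le (S n).1 (S (n + 1)).1 := by
    intro n
    show _ * _ = _
    rw [hS, mul_add, PJ.mul_self (S n).2, hF2, add_zero]
  have hSle : ∀ m n, m ≤ n → Le (S m).1 (S n).1 := by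
    intro m n hmn
    induction n, hmn using Nat.le_induction with
    | base => exact le_refl' (S m).2
    | succ n _ ih => exact le_trans' ih (hSmono n)
  have hLle : ∀ n, Le (L n) (S (n + 1)).1 := by
    intro n
    show L n * _ = _
    rw [hS, mul_add]
    rw [show L n * (S n).1 = 0 from orth_comm (S n).2 (hF1 _ _) (hLS n), zero_add]
    exact PJ.mul_self (hF1 _ _)
  have hLo : ∀ m n, m < n → L m * L n = 0 := by
    intro m n hmn
    have h1 : L m * (S n).1 = L m := le_trans' (hLle m) (hSle (m + 1) n hmn)
    rw [← h1, mul_assoc, hLS, mul_zero]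
  have hLo' : ∀ m n, m ≠ n → L m * L n = 0 := by
    intro m n hmn
    rcases lt_or_gt_of_ne hmn with h | h
    · exact hLo m n h
    · exact orth_comm (hF1 _ _) (hF1 _ _) (hLo n m h)
  -- the supremum of the `L n`
  obtain ⟨Q, hQ⟩ := hSup (ULift.{u} ℕ) (fun i => L i.down) (fun i => hF1 _ _)
  have hLQ : ∀ n, L n * Q = L n := fun n => hQ.2.1 ⟨n⟩
  have hSQ : ∀ n, (S n).1 * Q = (S n).1 := by
    intro n
    induction n with
    | zero => show (0 : A) * Q = 0; simp
    | succ n ih => rw [hS, add_mul, ih, show F (S n) n * Q = F (S n) n from hLQ n]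
  have hlQ : ∀ n, Le (l n) Q := by
    intro n
    have h1 : l n * (S (n + 1)).1 = l n := by rw [hS]; exact hF4 (S n) n
    show l n * Q = l n
    calc l n * Q = l n * (S (n + 1)).1 * Q := by rw [h1]
      _ = l n * ((S (n + 1)).1 * Q) := mul_assoc _ _ _
      _ = l n * (S (n + 1)).1 := congrArg (l n * ·) (hSQ (n + 1))
      _ = l n := h1
  have hqQ : Le q Q := by
    have h1 : (1 - Q) * q = 0 := by
      apply hlq
      intro n
      rw [sub_mul, one_mul, (hlQ n).rev (hl n) hQ.1, sub_self]
    have h2 : Q * q = q := by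
      rw [sub_mul, one_mul, sub_eq_zero] at h1
      exact h1.symm
    have h3 := congrArg star h2
    rwa [star_mul, PJ.star hq, PJ.star hQ.1] at h3
  -- the copies of `p`
  obtain ⟨v1, v2, a1, a2, a12, c1, c2⟩ := (half_iff hp).1 hh
  obtain ⟨u1, u2, u3⟩ := us_spec a1 a2 a12 c1 c2
  have hQp : Sub Q p := by
    refine subadd hSup hAdd (e := fun i : ULift.{u} ℕ => L i.down)
      (f := fun i : ULift.{u} ℕ => us v1 v2 i.down * star (us v1 v2 i.down)) (fun i => hF1 _ _)
      (fun i j hij => hLo' _ _ (fun h => hij (ULift.ext _ _ h)))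
      (fun i => pi_final hp (u2 _)) ?_ hp ?_ hQ ?_
    · intro i j hij
      have hij' : i.down ≠ j.down := fun h => hij (ULift.ext _ _ h)
      calc us v1 v2 i.down * star (us v1 v2 i.down) * (us v1 v2 j.down * star (us v1 v2 j.down))
          = us v1 v2 i.down * (star (us v1 v2 i.down) * us v1 v2 j.down)
            * star (us v1 v2 j.down) := by simp only [mul_assoc]
        _ = 0 := by rw [u3 _ _ hij']; simp
    · intro i
      show _ * _ = _
      rw [mul_assoc, star_absorb_left hp (u1 _)]
    · intro i
      refine sub_trans' (hF1 _ _) hp (pi_final hp (u2 _)) (hF3 _ _) ?_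
      exact sub_of_eqv (pi_final hp (u2 _)) ⟨us v1 v2 i.down, u2 _, rfl⟩
  exact sub_trans' hq hQ.1 hp (sub_of_le' hq hqQ) hQp

/-- words in `T` and `star T`. -/
noncomputable def wd (T : A) : List Bool → A
  | [] => 1
  | b :: w => (if b then T else star T) * wd T w

/-- the reducing hull. -/
theorem hull (hSup : PSup A) (hAdd : PAdd A) (hLR : PLR A) {p : A} (hp : PJ p)
    (hh : Half p) (T : A) : ∃ q : A, PJ q ∧ Le p q ∧ T * q = q * T ∧ Sub q p ∧
      ∀ r : A, PJ r → T * r = r * T → Le p r → Le q r := by
  choose v R L hR hL w1 w2 x1 x2 x3 x4 using fun w : List Bool => hLR (wd T w * p)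
  obtain ⟨q, hq⟩ := hSup (ULift.{u} (List Bool)) (fun i => L i.down) (fun i => hL _)
  have hqp : PJ q := hq.1
  have hLq : ∀ w, L w * q = L w := fun w => hq.2.1 ⟨w⟩
  have hqL : ∀ w, q * L w = L w := fun w => Le.rev (hL w) hqp (hLq w)
  have hqx : ∀ w, q * (wd T w * p) = wd T w * p := by
    intro w
    rw [← x2 w, ← mul_assoc, hqL]
  have key : ∀ b : Bool, (1 - q) * (if b then T else star T) * q = 0 := by
    intro b
    apply hq.2.2
    rintro ⟨w⟩
    apply x4 w
    have h1 := hqx (b :: w)
    have h2 : wd T (b :: w) * p = (if b then T else star T) * (wd T w * p) := by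
      show (if b then T else star T) * wd T w * p = _
      rw [mul_assoc]
    rw [h2] at h1
    rw [sub_mul, one_mul, sub_mul, mul_assoc q, h1, sub_self]
  have hT1 : q * T * q = T * q := by
    have := key true
    simp only [if_true] at this
    rw [sub_mul, one_mul, sub_mul, sub_eq_zero] at this
    exact this.symm
  have hT2 : q * T * q = q * T := by
    have := key false
    simp only [Bool.false_eq_true, if_false] at this
    rw [sub_mul, one_mul, sub_mul, sub_eq_zero] at this
    have h := congrArg star this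
    rw [star_mul, star_mul, star_mul, star_star, PJ.star hqp] at h
    rw [mul_assoc, ← h]
  have hpq : Le p q := by
    have h1 : q * p = p := by
      have := hqx []
      simpa [wd] using this
    have h2 := congrArg star h1
    rwa [star_mul, PJ.star hqp, PJ.star hp] at h2
  refine ⟨q, hqp, hpq, hT1.symm.trans hT2, ?_, ?_⟩
  · obtain ⟨f, hf⟩ := exists_surjective_nat (List Bool)
    refine count_sup hSup hAdd hLR hp hh (l := fun n => L (f n)) (fun n => hL _) ?_ hqp ?_
    · intro n
      have hRp : Le (R (f n)) p := by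
        have h1 : wd T (f n) * p * (1 - p) = 0 := by
          rw [mul_assoc, mul_sub, mul_one, PJ.mul_self hp, sub_self, mul_zero]
        have h2 := x3 (f n) _ h1
        rw [mul_sub, mul_one, sub_eq_zero] at h2
        exact h2.symm
      exact sub_trans' (hL _) (hR _) hp (sub_of_eqv (hR _) ⟨star (v (f n)),
        by rw [star_star, w2], by rw [star_star, w1]⟩) (sub_of_le' (hR _) hRp)
    · intro x hx
      apply hq.2.2
      rintro ⟨w⟩
      obtain ⟨n, rfl⟩ := hf w
      exact hx n
  · intro r hr hTr hpr
    have hTr' : star T * r = r * star T := by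
      have := congrArg star hTr
      rw [star_mul, star_mul, PJ.star hr] at this
      exact this.symm
    have hrw : ∀ w, wd T w * r = r * wd T w := by
      intro w
      induction w with
      | nil => simp [wd]
      | cons b w ih =>
        show (if b then T else star T) * wd T w * r = r * ((if b then T else star T) * wd T w)
        rw [mul_assoc, ih, ← mul_assoc, ← mul_assoc]
        congr 1
        cases b
        · simpa using hTr'
        · simpa using hTr
    have hrp : r * p = p := hpr.rev hp hr
    have h1 : (1 - r) * q = 0 := by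
      apply hq.2.2
      rintro ⟨w⟩
      apply x4 w
      rw [sub_mul, one_mul, ← mul_assoc, ← hrw, mul_assoc, hrp, sub_self]
    have h2 : r * q = q := by
      rw [sub_mul, one_mul, sub_eq_zero] at h1
      exact h1.symm
    have h3 := congrArg star h2
    rwa [star_mul, PJ.star hqp, PJ.star hr] at h3

end Pool.Agent.L0h87.CL2
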