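import Pool.Agent.L0h87.CL2.DichL
import Pool.Agent.L0h87.CL2.CutU
import Pool.Agent.R456.CL.Main1

/-!
# Off-diagonal corners (adapted from `Pool.Agent.R456.CL.Main1`)
-/

set_option autoImplicit false

namespace Pool.Agent.L0h87.CL2

open Pool.Agent.R456.CL

universe u

variable {A : Type u} [CStarAlgebra A]

/-- each infinite subprojection dominates `q` on a central piece. -/
def StarQ (q : A) : Prop := ∀ e : A, PJ e → Le e q → Infin e →
  ∃ z : A, CP z ∧ z * q ≠ 0 ∧ Sub (z * q) (z * e)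

/-- the data of case (A). -/
def AData (K : ℝ) (g T : A) : Prop := ∃ e f c : A, PJ e ∧ PJ f ∧ Le e g ∧ Le f g ∧ e * f = 0 ∧
  Eqv g e ∧ Eqv g f ∧ e * c = c ∧ c * f = c ∧ c * (f * T * e) = e ∧ (f * T * e) * c = f ∧ ‖c‖ ≤ K

lemma starQ_cut {q z : A} (hq : PJ q) (hz : CP z) (h : StarQ q) : StarQ (z * q) := by
  intro e he heq hi
  obtain ⟨w, hw, hw0, hw1⟩ := h e he (le_trans' heq (cut_le_self hz hq)) hi
  have hze : z * e = e := by
    have h1 : e * (z * q) = e := heq
    calc z * e = z * (e * (z * q)) := by rw [h1]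
      _ = e * (z * (z * q)) := (mul_cut hz).symm
      _ = e := by rw [cut_cut hz, h1]
  refine ⟨w, hw, ?_, ?_⟩
  · intro h0
    apply hw0
    have h1 : w * e = 0 := by
      have h2 : e * (z * q) = e := heq
      calc w * e = w * (e * (z * q)) := by rw [h2]
        _ = e * (w * (z * q)) := by rw [mul_cut hw]
        _ = 0 := by rw [h0, mul_zero]
    exact sub_zero_eq hw1 h1
  · have h1 := cut_sub hz hw1
    have e1 : z * (w * q) = w * (z * q) := by rw [← mul_assoc, hz.2 w, mul_assoc]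
    have e2 : z * (w * e) = w * e := by rw [← mul_assoc, hz.2 w, mul_assoc, hze]
    rwa [e1, e2] at h1

section one

open Pool.Agent.R456.CL.Main1 (pj_star pj_mul pj_mk le_symm norm_pj pj_zero_of_norm piso_right
  piso_pj)

/-- a large cut projection gives the data of case (A). -/
lemma smallC {M K0 K1 : ℝ} (hM : 0 ≤ M) (hK1 : 0 ≤ K1)
    (hcut : ∀ x : A, ∃ k s : A, PJ k ∧ k * s = s ∧ s * k = s ∧
      star s = s ∧ k * (star x * x) = (star x * x) * k ∧ s * s * (star x * x) = k ∧
      (star x * x) * (s * s) = k ∧ s * (star x * x) * s = k ∧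
      ‖x * (1 - k)‖ ≤ 1 / (2 * (K0 * K0 * M + 1)) ∧ ‖s‖ ≤ K1)
    {g T : A} (hg : PJ g) (hTM : ‖T‖ ≤ M) {e : A} (he : PJ e) (heg : Le e g)
    {k s : A} (hk : PJ k) (hsK : ‖s‖ ≤ K0)
    (hssx : s * s * (star ((g - e) * T * e) * ((g - e) * T * e)) = k)
    (hsub : Sub g k) : AData (K1 * K1 * M) g T := by
  obtain ⟨x, hx⟩ : ∃ x, x = (g - e) * T * e := ⟨_, rfl⟩
  rw [← hx] at hssx
  have hge : g * e = e := le_symm he hg heg
  have hxe : x * e = x := by rw [hx, mul_assoc _ e e, pj_mul he]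
  have hgx : (g - e) * x = x := by
    rw [hx, ← mul_assoc, ← mul_assoc, pj_mul (pj_sub he hg heg)]
  have hke : k * e = k := by
    rw [← hssx, mul_assoc, mul_assoc (star x) x e, hxe]
  obtain ⟨v, hv1, hv2⟩ := hsub
  have hxM : ‖x‖ ≤ M := by
    rw [hx]
    calc ‖(g - e) * T * e‖ ≤ ‖(g - e) * T‖ * ‖e‖ := norm_mul_le _ _
      _ ≤ ‖(g - e) * T‖ * 1 := by gcongr; exact norm_pj he
      _ ≤ ‖g - e‖ * ‖T‖ * 1 := by gcongr; exact norm_mul_le _ _
      _ ≤ 1 * M * 1 := by gcongr; exact norm_pj (pj_sub he hg heg)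
      _ = M := by ring
  obtain ⟨e1, he1⟩ : ∃ e1, e1 = v * star v := ⟨_, rfl⟩
  rw [← he1] at hv2
  have hpe1 : PJ e1 := by rw [he1]; exact piso_pj hg hv1
  have hke1 : k * e1 = e1 := le_symm hpe1 hk hv2
  have he1e : e1 * e = e1 := by rw [← hv2, mul_assoc, hke]
  have hee1 : e * e1 = e1 := le_symm hpe1 he he1e
  obtain ⟨z, hz⟩ : ∃ z, z = x * e1 := ⟨_, rfl⟩
  have hze1 : z * e1 = z := by rw [hz, mul_assoc, pj_mul hpe1]
  -- left inverse of z
  have hy : (e1 * s * s * star x) * z = e1 := by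
    have : (e1 * s * s * star x) * z = e1 * (s * s * (star x * x)) * e1 := by
      rw [hz]; noncomm_ring
    rw [this, hssx, mul_assoc, hke1, pj_mul hpe1]
  obtain ⟨k', s', hk', hks, hsk, hss, -, hssz, -, hszs, hnorm, hs'K⟩ := hcut z
  have hK0 : 0 ≤ K0 := (norm_nonneg s).trans hsK
  have hyn : ‖e1 * s * s * star x‖ ≤ K0 * K0 * M := by
    calc ‖e1 * s * s * star x‖ ≤ ‖e1 * s * s‖ * ‖star x‖ := norm_mul_le _ _
      _ ≤ (‖e1 * s‖ * ‖s‖) * ‖star x‖ := by gcongr; exact norm_mul_le _ _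
      _ ≤ ((‖e1‖ * ‖s‖) * ‖s‖) * ‖star x‖ := by gcongr; exact norm_mul_le _ _
      _ ≤ ((1 * K0) * K0) * M := by
          rw [norm_star]
          gcongr
          exact norm_pj hpe1
      _ = K0 * K0 * M := by ring
  have hk'e1 : k' * e1 = k' := by
    rw [← hssz, mul_assoc, mul_assoc (star z) z e1, hze1]
  have hkk : k' = e1 := by
    have hpd : PJ (e1 - k') := pj_sub hk' hpe1 hk'e1
    have h1 : e1 - k' = (e1 * s * s * star x) * (z * (1 - k')) := by
      rw [← mul_assoc, hy, mul_sub, mul_one, le_symm hk' hpe1 hk'e1]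
    have h2 : ‖e1 - k'‖ < 1 := by
      rw [h1]
      refine (norm_mul_le _ _).trans_lt ?_
      have h3 : ‖e1 * s * s * star x‖ * ‖z * (1 - k')‖ ≤ (K0 * K0 * M) *
          (1 / (2 * (K0 * K0 * M + 1))) := by gcongr
      refine h3.trans_lt ?_
      have : 0 ≤ K0 * K0 * M := by positivity
      rw [mul_one_div, div_lt_one (by positivity)]
      linarith
    exact (sub_eq_zero.mp (pj_zero_of_norm hpd h2)).symm
  rw [hkk] at hks hsk hssz hszs
  -- the partial isometry w
  obtain ⟨w, hw⟩ : ∃ w, w = z * s' := ⟨_, rfl⟩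
  have hww : star w * w = e1 := by
    rw [hw, star_mul, hss, ← hszs]; noncomm_ring
  have hwe1 : w * e1 = w := by rw [hw, mul_assoc, hsk]
  obtain ⟨f1, hf1⟩ : ∃ f1, f1 = w * star w := ⟨_, rfl⟩
  have hpf1 : PJ f1 := by rw [hf1]; exact piso_pj hpe1 hww
  have hf1z : f1 = z * s' * s' * star z := by
    rw [hf1, hw, star_mul, hss]; noncomm_ring
  have hgef1 : (g - e) * f1 = f1 := by
    rw [hf1z, hz]
    have : (g - e) * (x * e1 * s' * s' * star (x * e1))
        = ((g - e) * x) * e1 * s' * s' * star (x * e1) := by noncomm_ring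
    rw [this, hgx]
  have hpge : PJ (g - e) := pj_sub he hg heg
  have hf1ge : f1 * (g - e) = f1 := by
    have := congrArg star hgef1
    rwa [star_mul, pj_star hpf1, pj_star hpge] at this
  have hgeg : (g - e) * g = g - e := by rw [sub_mul, pj_mul hg, heg]
  have hf1g : f1 * g = f1 := by
    rw [← hf1ge, mul_assoc, hgeg]
  have he1f1 : e1 * f1 = 0 := by
    have h1 : e1 * (g - e) = 0 := by
      rw [mul_sub, he1e]
      have : e1 * g = e1 := by
        rw [← he1e, mul_assoc, heg]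
      rw [this, sub_self]
    rw [← hgef1, ← mul_assoc, h1, zero_mul]
  have hf1T : f1 * T * e1 = z := by
    have h1 : f1 * T * e1 = f1 * ((g - e) * T * e) * e1 := by
      calc f1 * T * e1 = (f1 * (g - e)) * T * (e * e1) := by rw [hf1ge, hee1]
        _ = f1 * ((g - e) * T * e) * e1 := by noncomm_ring
    rw [h1, ← hx, mul_assoc, ← hz, hf1z]
    have : z * s' * s' * star z * z = z * (s' * s' * (star z * z)) := by noncomm_ring
    rw [this, hssz, hze1]
  refine ⟨e1, f1, s' * s' * star z, hpe1, hpf1, ?_, hf1g, he1f1, ⟨v, hv1, he1.symm⟩,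
    ⟨w * v, ?_, ?_⟩, ?_, ?_, ?_, ?_, ?_⟩
  · show e1 * g = e1
    rw [← he1e, mul_assoc, heg]
  · rw [star_mul]
    have : star v * star w * (w * v) = star v * (star w * w) * v := by noncomm_ring
    rw [this, hww, he1]
    have : star v * (v * star v) * v = (star v * v) * (star v * v) := by noncomm_ring
    rw [this, hv1, pj_mul hg]
  · rw [star_mul]
    have : w * v * (star v * star w) = w * (v * star v) * star w := by noncomm_ring
    rw [this, ← he1, hwe1, hf1]
  · rw [← mul_assoc, ← mul_assoc, hks]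
  · rw [hf1z]
    have : s' * s' * star z * (z * s' * s' * star z)
        = (s' * s' * (star z * z)) * s' * s' * star z := by noncomm_ring
    rw [this, hssz, hks]
  · rw [hf1T, ← hssz]; noncomm_ring
  · rw [hf1T, hf1z]; noncomm_ring
  · have hzM : ‖z‖ ≤ M := by
      rw [hz]
      calc ‖x * e1‖ ≤ ‖x‖ * ‖e1‖ := norm_mul_le _ _
        _ ≤ M * 1 := by gcongr; exact norm_pj hpe1
        _ = M := mul_one M
    calc ‖s' * s' * star z‖ ≤ ‖s' * s'‖ * ‖star z‖ := norm_mul_le _ _
      _ ≤ (‖s'‖ * ‖s'‖) * ‖star z‖ := by gcongr; exact norm_mul_le _ _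
      _ ≤ (K1 * K1) * M := by rw [norm_star]; gcongr

/-- off-diagonal corners are small up to finite projections. -/
theorem main1_local {ε K0 K : ℝ}
    (hcut : ∀ x : A, ∃ k s : A, PJ k ∧ k * s = s ∧ s * k = s ∧
      star s = s ∧ k * (star x * x) = (star x * x) * k ∧ s * s * (star x * x) = k ∧
      (star x * x) * (s * s) = k ∧ s * (star x * x) * s = k ∧ ‖x * (1 - k)‖ ≤ ε ∧ ‖s‖ ≤ K0)
    (hLR : PLR A) (hFA : PFinAdd A) {g T : A} (hg : PJ g) (hSQ : StarQ g)
    (hsm : ∀ z e k s : A, CP z → PJ e → Le e (z * g) → PJ k → ‖s‖ ≤ K0 →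
      s * s * (star ((z * g - e) * (z * T) * e) * ((z * g - e) * (z * T) * e)) = k →
      Sub (z * g) k → AData K (z * g) (z * T))
    (hA : ∀ z : A, CP z → z * g ≠ 0 → ¬ AData K (z * g) (z * T))
    {e : A} (he : PJ e) (heg : Le e g) :
    ∃ c : A, PJ c ∧ Le c g ∧ ¬ Infin c ∧ ‖(g - e) * T * e * (g - c)‖ ≤ ε ∧
      ‖(g - e) * star T * e * (g - c)‖ ≤ ε := by
  -- large cuts are impossible
  have hfin : ∀ e k s : A, PJ e → Le e g → PJ k → Le k g → ‖s‖ ≤ K0 →
      s * s * (star ((g - e) * T * e) * ((g - e) * T * e)) = k → ¬ Infin k := by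
    intro e k s he heg hk hkg hsK hss hi
    obtain ⟨z, hz, hz0, hz1⟩ := hSQ k hk hkg hi
    refine hA z hz hz0 (hsm z (z * e) (z * k) (z * s) hz (cut_pj hz he) (cut_le hz heg)
      (cut_pj hz hk) ((cut_norm hz).trans hsK) ?_ hz1)
    have e1 : (z * g - z * e) * (z * T) * (z * e) = z * ((g - e) * T * e) := by
      rw [← mul_sub, cut_mul hz, cut_mul hz]
    rw [e1, cut_star hz, cut_mul hz, cut_mul hz, cut_mul hz, hss]
  have hpge : PJ (g - e) := pj_sub he hg heg
  have hge : g * e = e := le_symm he hg heg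
  -- the first cut
  obtain ⟨k, s, hk, hks, hsk, hss, hkx, hssx, hxss, hsxs, hnorm, hsK⟩ := hcut ((g - e) * T * e)
  have hke : k * e = k := by
    rw [← hssx]; simp only [mul_assoc, pj_mul he]
  have hkg0 : Le k g := by
    show k * g = k
    rw [← hke, mul_assoc, heg]
  have hksm := hfin e k s he heg hk hkg0 hsK hssx
  have hε0 : 0 ≤ ε := (norm_nonneg _).trans hnorm
  -- the second cut
  have hle' : Le (g - e) g := by
    show (g - e) * g = g - e
    rw [sub_mul, pj_mul hg, heg]
  have hgge : g - (g - e) = e := by abel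
  obtain ⟨k', s', hk', hks', hsk', hss', hkx', hssx', hxss', hsxs', hnorm', hsK'⟩ :=
    hcut ((g - (g - e)) * T * (g - e))
  have hke' : k' * (g - e) = k' := by
    rw [← hssx']; simp only [mul_assoc, pj_mul hpge]
  have hkg0' : Le k' g := by
    show k' * g = k'
    rw [← hke', mul_assoc, hle']
  have hksm' := hfin (g - e) k' s' hpge hle' hk' hkg0' hsK' hssx'
  rw [hgge] at hkx' hssx' hxss' hsxs' hnorm'
  obtain ⟨x', hx'⟩ : ∃ x', x' = e * T * (g - e) := ⟨_, rfl⟩
  rw [← hx'] at hkx' hssx' hxss' hsxs' hnorm'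
  obtain ⟨w, hw⟩ : ∃ w, w = x' * s' := ⟨_, rfl⟩
  have hww : star w * w = k' := by
    rw [hw, star_mul, hss', ← hsxs']; noncomm_ring
  obtain ⟨l, hl⟩ : ∃ l, l = w * star w := ⟨_, rfl⟩
  have hpl : PJ l := by rw [hl]; exact piso_pj hk' hww
  have hwk : w * k' = w := by rw [hw, mul_assoc, hsk']
  have hex' : e * x' = x' := by rw [hx', ← mul_assoc, ← mul_assoc, pj_mul he]
  have hew : e * w = w := by rw [hw, ← mul_assoc, hex']
  have hel : e * l = l := by rw [hl, ← mul_assoc, hew]
  have hle : l * e = l := by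
    have := congrArg star hel
    rwa [star_mul, pj_star hpl, pj_star he] at this
  have hlg : l * g = l := by rw [← hle, mul_assoc, heg]
  have hlsm : ¬ Infin l := fun hi => hksm' (infin_eqv hpl hk' ⟨star w, by rw [star_star, hl],
    by rw [star_star, hww]⟩ hi)
  have hn2 : ‖(1 - l) * x'‖ ≤ ε := by
    have h1 : (1 - l) * x' = (1 - l) * (x' * (1 - k')) := by
      have h2 : l * (x' * k') = x' * k' := by
        have : l * (x' * k') = x' * (s' * s' * (star x' * x')) * k' := by
          rw [hl, hw, star_mul, hss']; noncomm_ring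
        rw [this, hssx', mul_assoc, pj_mul hk']
      have h3 : (1 - l) * (x' * (1 - k')) = (1 - l) * x' - (x' * k' - l * (x' * k')) := by
        noncomm_ring
      rw [h3, h2, sub_self, sub_zero]
    rw [h1]
    refine (norm_mul_le _ _).trans ?_
    have hp1 : PJ (1 - l) := by
      refine pj_sub hpl (pj_mk (one_mul 1) (star_one A)) (mul_one l)
    calc ‖1 - l‖ * ‖x' * (1 - k')‖ ≤ 1 * ε := by
          gcongr
          exact norm_pj hp1
      _ = ε := one_mul ε
  -- join
  have hkg : Le k g := by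
    show k * g = k
    rw [← hke, mul_assoc, heg]
  obtain ⟨c, hc, hcg, hkc, hlc, hcsm⟩ := fin_join hLR hFA hg hk hpl hkg hlg hksm hlsm
  refine ⟨c, hc, hcg, hcsm, ?_, ?_⟩
  · have h1 : (g - e) * T * e * (g - c) = ((g - e) * T * e * (1 - k)) * (g - c) := by
      have h2 : k * (g - c) = 0 := by rw [mul_sub, hkg, hkc, sub_self]
      have h3 : (g - e) * T * e * (1 - k) * (g - c)
          = (g - e) * T * e * (g - c) - (g - e) * T * e * (k * (g - c)) := by noncomm_ring
      rw [h3, h2, mul_zero, sub_zero]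
    rw [h1]
    refine (norm_mul_le _ _).trans ?_
    calc _ ≤ ε * 1 := by
          gcongr
          exact norm_pj (pj_sub hc hg hcg)
      _ = ε := mul_one ε
  · have h0 : (g - e) * star T * e = star x' := by
      rw [hx', star_mul, star_mul, pj_star he, pj_star hpge]; noncomm_ring
    rw [h0]
    have h1 : star x' * (g - c) = (star ((1 - l) * x')) * (g - c) := by
      have h2 : l * (g - c) = 0 := by rw [mul_sub, hlg, hlc, sub_self]
      have h3 : star ((1 - l) * x') * (g - c) = star x' * (g - c) - star x' * (l * (g - c)) := by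
        rw [star_mul, star_sub, star_one, pj_star hpl]; noncomm_ring
      rw [h3, h2, mul_zero, sub_zero]
    rw [h1]
    refine (norm_mul_le _ _).trans ?_
    calc _ ≤ ε * 1 := by
          rw [norm_star]
          gcongr
          exact norm_pj (pj_sub hc hg hcg)
      _ = ε := mul_one ε

end one

end Pool.Agent.L0h87.CL2
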