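import Pool.Agent.L0h87.CL2.Main1L
import Pool.Agent.R456.CL.Main3

/-!
# Local scalars (adapted from `Pool.Agent.R456.CL.Main3`)
-/

set_option autoImplicit false

namespace Pool.Agent.L0h87.CL2

open Pool.Agent.R456.CL
open Pool.Agent.R456.CL.Main3 (pj_norm pair_bound sum_pj comb_norm)

universe u

variable {A : Type u} [CStarAlgebra A]

lemma not_infin_zero : ¬ Infin (0 : A) := fun h => infin_ne_zero h rfl

lemma sum_fin (hFA : PFinAdd A) {ι : Type*} (t : Finset ι) (p : ι → A) (hp : ∀ i, PJ (p i))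
    (ho : ∀ i j, i ≠ j → p i * p j = 0) (hs : ∀ i ∈ t, ¬ Infin (p i)) :
    ¬ Infin (∑ i ∈ t, p i) := by
  classical
  induction t using Finset.induction_on with
  | empty =>
    rw [Finset.sum_empty]
    exact not_infin_zero
  | insert i t hi ih =>
    rw [Finset.sum_insert hi]
    refine hFA _ _ (hp i) (sum_pj t p hp ho) ?_ (hs i (Finset.mem_insert_self i t))
      (ih (fun j hj => hs j (Finset.mem_insert_of_mem hj)))
    rw [Finset.mul_sum]
    apply Finset.sum_eq_zero
    intro j hj
    exact ho i j (fun h => hi (h ▸ hj))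

theorem main3_local (hSa : PSa A) (hFA : PFinAdd A) {g a : A} (hg : PJ g) (hh : Half g)
    (h0 : g ≠ 0) (hSQ : StarQ g) (hsa : star a = a) (hag : a * g = a)
    (hsm : ∀ e : A, PJ e → Le e g → ∃ c : A, PJ c ∧ Le c g ∧ ¬ Infin c ∧
      ‖(g - e) * a * e * (g - c)‖ ≤ 1 / 160) :
    ∃ (z s : A) (c : ℝ), CP z ∧ z * g ≠ 0 ∧ PJ s ∧ Le s (z * g) ∧ ¬ Infin s ∧
      ‖(z * a - (c : ℂ) • (z * g)) * (z * g - s)‖ ≤ 1 / 32 := by
  classical
  obtain ⟨ι, _, p, l, hp, ho, hsum, hcomm, hn⟩ := hSa g a hg hsa hag (1 / 160) (by norm_num)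
  have hpg : ∀ i, Le (p i) g := by
    intro i
    show p i * g = p i
    rw [← hsum, Finset.mul_sum, Finset.sum_eq_single i]
    · exact PJ.mul_self (hp i)
    · intro j _ hj
      exact ho i j (Ne.symm hj)
    · intro h; exact absurd (Finset.mem_univ i) h
  have hL : ∃ i0, Infin (p i0) := by
    by_contra hcon
    push Not at hcon
    have := sum_fin hFA Finset.univ p hp ho (fun i _ => hcon i)
    rw [hsum] at this
    exact this (half_infin hg h0 hh)
  obtain ⟨i0, hi0⟩ := hL
  obtain ⟨z, hz, hz0, hz1⟩ := hSQ (p i0) (hp i0) (hpg i0) hi0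
  have hSQz : StarQ (z * g) := starQ_cut hg hz hSQ
  obtain ⟨a0, ha0⟩ : ∃ a0 : A, a0 = ∑ i, (l i : ℂ) • p i := ⟨_, rfl⟩
  rw [← ha0] at hn
  have ha0p : ∀ i, a0 * p i = (l i : ℂ) • p i := by
    intro i
    rw [ha0, Finset.sum_mul, Finset.sum_eq_single i]
    · rw [smul_mul_assoc, PJ.mul_self (hp i)]
    · intro j _ hj
      rw [smul_mul_assoc, ho j i hj, smul_zero]
    · intro h; exact absurd (Finset.mem_univ i) h
  have hpair : ∀ i, Infin (z * p i) → |l i - l i0| ≤ 4 * (1 / 160) := by
    intro i hi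
    by_cases h : i = i0
    · rw [h, sub_self, abs_zero]; norm_num
    · obtain ⟨w, hw, hw0, hw1⟩ := hSQz (z * p i) (cut_pj hz (hp i)) (cut_le hz (hpg i)) hi
      have hG : PJ (w * (z * g)) := cut_pj hw (cut_pj hz hg)
      have hGi : Infin (w * (z * g)) := half_infin hG hw0 (half_cut hw (half_cut hz hh))
      have hwz : ∀ x y : A, w * (z * x) * (w * (z * y)) = w * (z * (x * y)) := by
        intro x y; rw [cut_mul hw, cut_mul hz]
      refine pair_bound (g := w * (z * g)) (a := w * (z * a)) (a0 := w * (z * a0))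
        (pi := w * (z * p i)) (pj := w * (z * p i0)) hG (cut_pj hw (cut_pj hz (hp i)))
        (cut_pj hw (cut_pj hz (hp i0))) (cut_orth hw (cut_orth hz (ho i i0 h)))
        (cut_le hw (cut_le hz (hpg i))) (cut_le hw (cut_le hz (hpg i0))) hw1
        (cut_sub hw hz1) ?_ ?_ (by norm_num) ?_ ?_
      · rw [hwz, ha0p, mul_smul_comm, mul_smul_comm]
      · rw [hwz, ha0p, mul_smul_comm, mul_smul_comm]
      · rw [← mul_sub, ← mul_sub]
        exact ((cut_norm hw).trans (cut_norm hz)).trans hn
      · intro e he heG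
        have heg : Le e g := le_trans' heG (le_trans' (cut_le_self hw (cut_pj hz hg))
          (cut_le_self hz hg))
        obtain ⟨c, hc, hcg, hcf, hcn⟩ := hsm e he heg
        refine ⟨w * (z * c), cut_pj hw (cut_pj hz hc), cut_le hw (cut_le hz hcg), ?_, ?_⟩
        · intro hsub
          have h1 := infin_sub hG (cut_pj hw (cut_pj hz hc)) hsub hGi
          exact hcf (infin_of_cut hz hc (infin_of_cut hw (cut_pj hz hc) h1))
        · have hwze : w * (z * e) = e := by
            have h1 : e * (w * (z * g)) = e := heG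
            have h2 : w * e = e := by
              conv_lhs => rw [← h1]
              rw [← mul_cut hw, cut_cut hw, h1]
            have h3 : z * e = e := by
              calc z * e = z * (e * (w * (z * g))) := by rw [h1]
                _ = e * (z * (w * (z * g))) := (mul_cut hz).symm
                _ = e * (w * (z * (z * g))) := by rw [← mul_assoc z w, hz.2 w, mul_assoc w z]
                _ = e := by rw [cut_cut hz, h1]
            rw [h3, h2]
          have e1 : (w * (z * g) - e) * (w * (z * a)) * e * (w * (z * g) - w * (z * c))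
              = w * (z * ((g - e) * a * e * (g - c))) := by
            have s1 : w * (z * g) - e = w * (z * (g - e)) := by
              rw [mul_sub, mul_sub, hwze]
            rw [s1, ← mul_sub, ← mul_sub, hwz]
            conv_lhs => rw [← hwze]
            rw [hwz, hwz, hwze]
          rw [e1]
          exact ((cut_norm hw).trans (cut_norm hz)).trans hcn
  let t : Finset ι := Finset.univ.filter (fun i => Infin (z * p i))
  let t' : Finset ι := Finset.univ.filter (fun i => ¬ Infin (z * p i))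
  have htt : ∑ i ∈ t, p i + ∑ i ∈ t', p i = g := by
    rw [← hsum]
    exact Finset.sum_filter_add_sum_filter_not _ _ _
  have hgs : z * g - z * (∑ i ∈ t', p i) = z * ∑ i ∈ t, p i := by rw [← mul_sub, ← htt]; simp
  have hLes : Le (∑ i ∈ t', p i) g := by
    show (∑ i ∈ t', p i) * g = ∑ i ∈ t', p i
    rw [Finset.sum_mul]
    exact Finset.sum_congr rfl (fun i _ => hpg i)
  refine ⟨z, z * ∑ i ∈ t', p i, l i0, hz, hz0, cut_pj hz (sum_pj t' p hp ho), cut_le hz hLes,
    ?_, ?_⟩
  · rw [Finset.mul_sum]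
    apply sum_fin hFA t' (fun i => z * p i) (fun i => cut_pj hz (hp i))
      (fun i j hij => cut_orth hz (ho i j hij))
    intro i hi
    exact (Finset.mem_filter.mp hi).2
  · rw [hgs]
    have h1 : (a - ((l i0 : ℝ) : ℂ) • g) * (∑ i ∈ t, p i)
        = (a - a0) * (∑ i ∈ t, p i) + ∑ i ∈ t, ((l i - l i0 : ℝ) : ℂ) • p i := by
      have h2 : a0 * (∑ i ∈ t, p i) = ∑ i ∈ t, (l i : ℂ) • p i := by
        rw [Finset.mul_sum]
        exact Finset.sum_congr rfl (fun i _ => ha0p i)
      have h3 : (((l i0 : ℝ) : ℂ) • g) * (∑ i ∈ t, p i) = ∑ i ∈ t, ((l i0 : ℝ) : ℂ) • p i := by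
        rw [Finset.mul_sum]
        apply Finset.sum_congr rfl
        intro i _
        rw [smul_mul_assoc, (hpg i).rev (hp i) hg]
      have h4 : ∑ i ∈ t, ((l i - l i0 : ℝ) : ℂ) • p i
          = ∑ i ∈ t, (l i : ℂ) • p i - ∑ i ∈ t, ((l i0 : ℝ) : ℂ) • p i := by
        rw [← Finset.sum_sub_distrib]
        apply Finset.sum_congr rfl
        intro i _
        rw [← sub_smul]; congr 1; push_cast; ring
      rw [h4, ← h2, ← h3]
      noncomm_ring
    have h7 : (z * a - ((l i0 : ℝ) : ℂ) • (z * g)) * (z * ∑ i ∈ t, p i)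
        = z * ((a - ((l i0 : ℝ) : ℂ) • g) * (∑ i ∈ t, p i)) := by
      rw [← mul_smul_comm, ← mul_sub, cut_mul hz]
    rw [h7]
    refine (cut_norm hz).trans ?_
    rw [h1]
    have h5 : ‖(a - a0) * (∑ i ∈ t, p i)‖ ≤ 1 / 160 := by
      refine (norm_mul_le _ _).trans ?_
      exact (mul_le_of_le_one_right (norm_nonneg _) (pj_norm (sum_pj t p hp ho))).trans hn
    have h6 : ‖∑ i ∈ t, ((l i - l i0 : ℝ) : ℂ) • p i‖ ≤ 4 * (1 / 160) := by
      apply comb_norm t p hp ho (fun i => l i - l i0) (4 * (1 / 160)) (by norm_num)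
      intro i hi
      exact hpair i (Finset.mem_filter.mp hi).2
    refine (norm_add_le _ _).trans ?_
    linarith

end Pool.Agent.L0h87.CL2
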