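import Pool.Agent.L0h87.CL2.Main3L

/-!
# The local dichotomy (adapted from `Pool.Agent.R456.CL.Main`)
-/

set_option autoImplicit false

namespace Pool.Agent.L0h87.CL2

open Pool.Agent.R456.CL

universe u

variable {A : Type u} [CStarAlgebra A]

theorem main_local (hsa : PSa A) (hcut : PCutU A) (hLR : PLR A) (hFA : PFinAdd A) (M : ℝ)
    (hM : 0 ≤ M) : ∃ K : ℝ, ∀ g T : A, PJ g → Half g → g ≠ 0 → StarQ g → g * T = T →
    T * g = T → ‖T‖ ≤ M →
    (∃ z : A, CP z ∧ z * g ≠ 0 ∧ AData K (z * g) (z * T)) ∨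
    ∃ (z k : A) (c : ℂ), CP z ∧ z * g ≠ 0 ∧ PJ k ∧ Le k (z * g) ∧ ¬ Infin k ∧
      ‖(z * g - k) * (z * T - c • (z * g)) * (z * g - k)‖ ≤ 1 / 4 := by
  obtain ⟨K0, hK0, hcut0⟩ := hcut (1 / 160) (by norm_num)
  obtain ⟨K1, hK1, hcut1⟩ := hcut (1 / (2 * (K0 * K0 * M + 1))) (by positivity)
  refine ⟨K1 * K1 * M, ?_⟩
  intro g T hg hh hg0 hSQ hgT hTg hTM
  by_cases hA : ∃ z : A, CP z ∧ z * g ≠ 0 ∧ AData (K1 * K1 * M) (z * g) (z * T)
  · exact Or.inl hA
  right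
  push Not at hA
  have hM1 : ∀ e : A, PJ e → Le e g → ∃ c : A, PJ c ∧ Le c g ∧ ¬ Infin c ∧
      ‖(g - e) * T * e * (g - c)‖ ≤ 1 / 160 ∧ ‖(g - e) * star T * e * (g - c)‖ ≤ 1 / 160 := by
    intro e he heg
    refine main1_local (K0 := K0) (K := K1 * K1 * M) hcut0 hLR hFA hg hSQ ?_ hA he heg
    intro z e k s hz he heg hk hsK hss hsub
    exact smallC hM hK1.le hcut1 (cut_pj hz hg) ((cut_norm hz).trans hTM) he heg hk hsK hss hsub
  have hsTg : star T * g = star T := star_absorb_left hg hgT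
  have hsub : ∀ (w : A), CP w → w * g ≠ 0 → ∀ (c : ℂ) (a : A), ‖c‖ = 1 / 2 → star a = a →
      (∃ d : ℂ, ‖d‖ = 1 ∧ a = c • (T + d • star T)) →
      ∃ (z s : A) (r : ℝ), CP z ∧ z * (w * g) ≠ 0 ∧ PJ s ∧ Le s (z * (w * g)) ∧ ¬ Infin s ∧
        ‖(z * (w * a) - (r : ℂ) • (z * (w * g))) * (z * (w * g) - s)‖ ≤ 1 / 32 := by
    rintro w hw hw0 c a hc ha ⟨d, hd, had⟩
    have hag : a * g = a := by rw [had, smul_mul_assoc, add_mul, smul_mul_assoc, hTg, hsTg]
    refine main3_local hsa hFA (cut_pj hw hg) (half_cut hw hh) hw0 (starQ_cut hg hw hSQ)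
      (by rw [cut_star hw, ha]) (by rw [cut_mul hw, hag]) ?_
    intro e he heg
    have hwe : w * e = e := by
      have h1 : e * (w * g) = e := heg
      calc w * e = w * (e * (w * g)) := by rw [h1]
        _ = e * (w * (w * g)) := (mul_cut hw).symm
        _ = e := by rw [cut_cut hw, h1]
    obtain ⟨k, hk1, hk2, hk3, hk4, hk5⟩ := hM1 e he (le_trans' heg (cut_le_self hw hg))
    refine ⟨w * k, cut_pj hw hk1, cut_le hw hk2, fun hi => hk3 (infin_of_cut hw hk1 hi), ?_⟩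
    have e1 : (w * g - e) * (w * a) * e * (w * g - w * k)
        = w * ((g - e) * a * e * (g - k)) := by
      have s1 : w * g - e = w * (g - e) := by rw [mul_sub, hwe]
      rw [s1, ← mul_sub]
      conv_lhs => rw [← hwe]
      rw [cut_mul hw, cut_mul hw, cut_mul hw, hwe]
    rw [e1]
    refine (cut_norm hw).trans ?_
    have : (g - e) * a * e * (g - k)
        = c • ((g - e) * T * e * (g - k) + d • ((g - e) * star T * e * (g - k))) := by
      rw [had]
      simp only [mul_smul_comm, smul_mul_assoc, mul_add, add_mul]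
    rw [this, norm_smul, hc]
    have h2 : ‖(g - e) * T * e * (g - k) + d • ((g - e) * star T * e * (g - k))‖
        ≤ 1 / 160 + 1 / 160 := by
      refine (norm_add_le _ _).trans (add_le_add hk4 ?_)
      rw [norm_smul, hd, one_mul]; exact hk5
    linarith
  have hhalf : ‖(1 / 2 : ℂ)‖ = 1 / 2 := by norm_num
  obtain ⟨z1, s1, c1, hz1, hz10, hs1, hs1g, hns1, hb1⟩ := hsub 1 cp_one (by rwa [one_mul])
    (1 / 2) ((1 / 2 : ℂ) • (T + star T)) hhalf
    (by rw [star_smul, star_add, star_star, add_comm]; congr 1; simp) ⟨1, by simp, by simp⟩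
  rw [one_mul] at hz10 hs1g hb1
  rw [one_mul] at hb1
  obtain ⟨z2, s2, c2, hz2, hz20, hs2, hs2g, hns2, hb2⟩ := hsub z1 hz1 hz10 (-(Complex.I / 2))
    ((-(Complex.I / 2) : ℂ) • (T + (-1 : ℂ) • star T)) (by simp)
    (by
      rw [star_smul, star_add, star_smul, star_star]
      have : star (-(Complex.I / 2)) = Complex.I / 2 := by
        simp [Complex.conj_I, neg_div]
      rw [this]
      simp only [star_neg, star_one, smul_add, smul_smul]
      rw [add_comm]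
      congr 1
      · congr 1; ring
      · congr 1; ring) ⟨-1, by simp, rfl⟩
  -- the common piece
  obtain ⟨z, hzd⟩ : ∃ z, z = z2 * z1 := ⟨_, rfl⟩
  have hz : CP z := by rw [hzd]; exact hz2.mul hz1
  obtain ⟨G, hGd⟩ : ∃ G, G = z * g := ⟨_, rfl⟩
  have hGz : z2 * (z1 * g) = G := by rw [hGd, hzd, mul_assoc]
  have hG : PJ G := by rw [hGd]; exact cut_pj hz hg
  have hs1' : PJ (z2 * s1) := cut_pj hz2 hs1
  have hs1G : Le (z2 * s1) G := by rw [← hGz]; exact cut_le hz2 hs1g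
  rw [hGz] at hz20 hs2g hb2
  have hns1' : ¬ Infin (z2 * s1) := fun hi => hns1 (infin_of_cut hz2 hs1 hi)
  obtain ⟨s, hs, hsg, hs1s, hs2s, hns⟩ := fin_join hLR hFA hG hs1' hs2 hs1G hs2g hns1' hns2
  refine ⟨z, s, (c1 : ℂ) + Complex.I * (c2 : ℂ), hz, by rw [← hGd]; exact hz20, hs,
    by rw [← hGd]; exact hsg, hns, ?_⟩
  rw [← hGd]
  have hgs' : G * s = s := hsg.rev hs hG
  have hgg := PJ.mul_self hG
  have k1 : ∀ t : A, PJ t → Le t G → Le t s → (G - t) * (G - s) = G - s := by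
    intro t ht htg hts
    have e1 : t * G = t := htg
    have e2 : t * s = t := hts
    rw [sub_mul, mul_sub, mul_sub, hgg, hgs', e1, e2]; abel
  have hT : z * T - ((c1 : ℂ) + Complex.I * (c2 : ℂ)) • G
      = (z2 * (z1 * ((1 / 2 : ℂ) • (T + star T))) - (c1 : ℂ) • G)
        + Complex.I • (z2 * (z1 * ((-(Complex.I / 2) : ℂ) • (T + (-1 : ℂ) • star T)))
          - (c2 : ℂ) • G) := by
    have i1 : Complex.I * -(Complex.I / 2) = 1 / 2 := by
      have := Complex.I_mul_I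
      linear_combination (-1 / 2 : ℂ) * this
    have e0 : ∀ x : A, z2 * (z1 * x) = z * x := fun x => by rw [hzd, mul_assoc]
    rw [e0, e0, mul_smul_comm, mul_smul_comm, smul_sub, smul_smul, smul_smul, i1, add_smul]
    have h3 : T = (1 / 2 : ℂ) • (T + star T) + (1 / 2 : ℂ) • (T + (-1 : ℂ) • star T) := by
      module
    conv_lhs => rw [h3, mul_add, mul_smul_comm, mul_smul_comm]
    abel
  have hgsn : ‖G - s‖ ≤ 1 := pj_norm_le (pj_sub hs hG hsg)
  have b1 : ‖(z2 * (z1 * ((1 / 2 : ℂ) • (T + star T))) - (c1 : ℂ) • G) * (G - s)‖ ≤ 1 / 32 := by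
    have e1 : (z2 * (z1 * ((1 / 2 : ℂ) • (T + star T))) - (c1 : ℂ) • G) * (G - z2 * s1)
        = z2 * ((z1 * ((1 / 2 : ℂ) • (T + star T)) - (c1 : ℂ) • (z1 * g)) * (z1 * g - s1)) := by
      rw [← hGz, ← mul_smul_comm, ← mul_sub, ← mul_sub, cut_mul hz2]
    rw [← k1 _ hs1' hs1G hs1s, ← mul_assoc, e1]
    refine (norm_mul_le _ _).trans ?_
    calc _ ≤ 1 / 32 * 1 := mul_le_mul ((cut_norm hz2).trans hb1) hgsn (norm_nonneg _)
          (by norm_num)
      _ = _ := by norm_num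
  have b2 : ‖(z2 * (z1 * ((-(Complex.I / 2) : ℂ) • (T + (-1 : ℂ) • star T))) - (c2 : ℂ) • G)
      * (G - s)‖ ≤ 1 / 32 := by
    rw [← k1 s2 hs2 hs2g hs2s, ← mul_assoc]
    refine (norm_mul_le _ _).trans ?_
    calc _ ≤ 1 / 32 * 1 := mul_le_mul hb2 hgsn (norm_nonneg _) (by norm_num)
      _ = _ := by norm_num
  have b3 : ‖(z * T - ((c1 : ℂ) + Complex.I * (c2 : ℂ)) • G) * (G - s)‖ ≤ 1 / 16 := by
    rw [hT, add_mul, smul_mul_assoc]
    refine (norm_add_le _ _).trans ?_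
    rw [norm_smul, Complex.norm_I, one_mul]
    linarith
  rw [mul_assoc]
  refine (norm_mul_le _ _).trans ?_
  calc ‖G - s‖ * ‖(z * T - ((c1 : ℂ) + Complex.I * (c2 : ℂ)) • G) * (G - s)‖ ≤ 1 * (1 / 16) :=
        mul_le_mul hgsn b3 (norm_nonneg _) (by norm_num)
    _ ≤ 1 / 4 := by norm_num

end Pool.Agent.L0h87.CL2
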