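import Pool.Agent.L0h87.CL2.HalfL
import Pool.Agent.R456.CL.W1
import Pool.Agent.R456.CL.W2

/-!
# Minimal halvable projections (adapted from `Pool.Agent.R456.CL.W1`)
-/

set_option autoImplicit false

namespace Pool.Agent.L0h87.CL2

open Pool.Agent.R456.CL

universe u

variable {A : Type u} [CStarAlgebra A]

section one

open Pool.Agent.R456.CL.W1 (pj_mul pj_star le_symm le_symmB zero_symm v_init pj_final v_final
  sub_zero' pj_add' pj_sum sup_fin)

/-- sums of orthogonal projections which are small with respect to an infinite projection. -/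
lemma half_sub_add {g' a b : A} (hg' : PJ g') (hi : Half g') (ha : PJ a)
    (hb : PJ b) (hab : a * b = 0) (h1 : Sub a g') (h2 : Sub b g') : Sub (a + b) g' := by
  obtain ⟨g1, g2, hg1, hg2, h12, hl1, hl2, ⟨u1, hu1, hu1'⟩, ⟨u2, hu2, hu2'⟩⟩ := hi
  obtain ⟨v1, hv1, hv1'⟩ := h1
  obtain ⟨v2, hv2, hv2'⟩ := h2
  have hba : b * a = 0 := zero_symm ha hb hab
  have h21 : g2 * g1 = 0 := zero_symm hg1 hg2 h12
  have gv1 : g' * v1 = v1 := v_final ha hg' hv1 hv1'
  have gv2 : g' * v2 = v2 := v_final hb hg' hv2 hv2'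
  have va : v1 * a = v1 := v_init ha hv1
  have vb : v2 * b = v2 := v_init hb hv2
  have gu1 : g1 * u1 = u1 := v_final hg' hg1 hu1 (by rw [hu1', pj_mul hg1])
  have gu2 : g2 * u2 = u2 := v_final hg' hg2 hu2 (by rw [hu2', pj_mul hg2])
  have gu1' : star u1 * g1 = star u1 := by
    have := congrArg star gu1
    rwa [star_mul, pj_star hg1] at this
  have gu2' : star u2 * g2 = star u2 := by
    have := congrArg star gu2
    rwa [star_mul, pj_star hg2] at this
  have va' : a * star v1 = star v1 := by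
    have := congrArg star va
    rwa [star_mul, pj_star ha] at this
  have vb' : b * star v2 = star v2 := by
    have := congrArg star vb
    rwa [star_mul, pj_star hb] at this
  have e12 : star u1 * u2 = 0 := by
    calc star u1 * u2 = (star u1 * g1) * (g2 * u2) := by rw [gu1', gu2]
      _ = star u1 * (g1 * g2) * u2 := by noncomm_ring
      _ = 0 := by rw [h12]; simp
  have e21 : star u2 * u1 = 0 := by
    calc star u2 * u1 = (star u2 * g2) * (g1 * u1) := by rw [gu2', gu1]
      _ = star u2 * (g2 * g1) * u1 := by noncomm_ring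
      _ = 0 := by rw [h21]; simp
  refine ⟨u1 * v1 + u2 * v2, ?_, ?_⟩
  · calc star (u1 * v1 + u2 * v2) * (u1 * v1 + u2 * v2)
        = star v1 * (star u1 * u1) * v1 + star v1 * (star u1 * u2) * v2
          + star v2 * (star u2 * u1) * v1 + star v2 * (star u2 * u2) * v2 := by
            rw [star_add, star_mul, star_mul]; noncomm_ring
      _ = star v1 * (g' * v1) + star v2 * (g' * v2) := by
            rw [e12, e21, hu1, hu2]; noncomm_ring
      _ = a + b := by rw [gv1, gv2, hv1, hv2]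
  · have gg1 : star u1 * g' = star u1 := by
      calc star u1 * g' = (star u1 * g1) * g' := by rw [gu1']
        _ = star u1 * (g1 * g') := by noncomm_ring
        _ = star u1 := by rw [show g1 * g' = g1 from hl1, gu1']
    have gg2 : star u2 * g' = star u2 := by
      calc star u2 * g' = (star u2 * g2) * g' := by rw [gu2']
        _ = star u2 * (g2 * g') := by noncomm_ring
        _ = star u2 := by rw [show g2 * g' = g2 from hl2, gu2']
    have key : star (u1 * v1 + u2 * v2) * g' = star (u1 * v1 + u2 * v2) := by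
      rw [star_add, star_mul, star_mul, add_mul, mul_assoc, mul_assoc, gg1, gg2]
    rw [mul_assoc, key]

lemma half_sub_sum {g' : A} (hg' : PJ g') (hi : Half g') {ι : Type u}
    (s : Finset ι) (q : ι → A) (hq : ∀ i, PJ (q i)) (ho : ∀ i j, i ≠ j → q i * q j = 0)
    (hs : ∀ i, Sub (q i) g') : Sub (∑ i ∈ s, q i) g' := by
  classical
  induction s using Finset.induction_on with
  | empty => simpa using sub_zero' g'
  | insert a s has ih =>
    rw [Finset.sum_insert has]
    refine half_sub_add hg' hi (hq a) (pj_sum s q hq ho) ?_ (hs a) ih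
    rw [Finset.mul_sum]
    refine Finset.sum_eq_zero fun j hj => ho a j ?_
    rintro rfl; exact has hj

/-- a maximal family of copies of `g'` in `g`, on a central piece. -/
theorem w1_local (hSup : PSup A) (hgc : PGC A) {g g' : A} (hg : PJ g) (hg' : PJ g')
    (hi' : Half g') (hg0 : g' ≠ 0)
    (hns : ∀ z : A, CP z → z * g' ≠ 0 → ¬ Sub (z * g) (z * g')) :
    ∃ (z : A) (ι : Type u) (q : ι → A) (E : A), CP z ∧ z * g' ≠ 0 ∧ Infinite ι ∧
      (∀ i, PJ (q i)) ∧ (∀ i j, i ≠ j → q i * q j = 0) ∧ (∀ i, Le (q i) (z * g)) ∧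
      (∀ i, Eqv (z * g') (q i)) ∧ IsSup q E ∧ Sub (z * g - E) (z * g') := by
  classical
  -- Zorn
  let C : Set (Set A) := {S | (∀ p ∈ S, PJ p ∧ Le p g ∧ Eqv g' p) ∧
    ∀ p ∈ S, ∀ q ∈ S, p ≠ q → p * q = 0}
  obtain ⟨S, hS⟩ : ∃ S, Maximal (· ∈ C) S := by
    refine zorn_subset C ?_
    intro c hc hchain
    refine ⟨⋃₀ c, ⟨?_, ?_⟩, fun s hs => Set.subset_sUnion_of_mem hs⟩
    · rintro p ⟨s, hs, hps⟩
      exact (hc hs).1 p hps
    · rintro p ⟨s, hs, hps⟩ q ⟨t, ht, hqt⟩ hpq
      rcases hchain.total hs ht with h | h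
      · exact (hc ht).2 p (h hps) q hqt hpq
      · exact (hc hs).2 p hps q (h hqt) hpq
  have hSC : S ∈ C := hS.1
  have hq : ∀ i : S, PJ (i : A) := fun i => (hSC.1 i i.2).1
  have ho : ∀ i j : S, i ≠ j → (i : A) * (j : A) = 0 := fun i j hij =>
    hSC.2 i i.2 j j.2 (fun h => hij (Subtype.ext h))
  obtain ⟨E, hE⟩ := hSup S (fun i => (i : A)) hq
  have hEc := hE
  obtain ⟨hE1, hE2, hE3⟩ := hE
  -- `E ≤ g`
  have hgE : g * E = E := by
    have h : (1 - g) * E = 0 := by
      refine hE3 _ fun i => ?_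
      rw [sub_mul, one_mul, le_symm (hq i) hg (hSC.1 i i.2).2.1, sub_self]
    rw [sub_mul, one_mul] at h
    exact (sub_eq_zero.1 h).symm
  have hEg : E * g = E := le_symmB hg hE1 hgE
  have hr : PJ (g - E) := by
    refine pj_mk ?_ ?_
    · rw [sub_mul, mul_sub, mul_sub, pj_mul hg, pj_mul hE1, hgE, hEg]; abel
    · rw [star_sub, pj_star hg, pj_star hE1]
  have hEi : ∀ i : S, E * (i : A) = i := fun i => le_symm (hq i) hE1 (hE2 i)
  -- comparison
  have hrs : ¬ Sub g' (g - E) := by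
    intro h
    obtain ⟨v, hv, hv'⟩ := h
    have hp : PJ (v * star v) := pj_final hg' hv
    have hpg : Le (v * star v) g := by
      have : v * star v * g = v * star v * (g - E) * g := by rw [hv']
      unfold Le
      rw [this, mul_assoc, sub_mul, pj_mul hg, hEg, hv']
    have hpi : ∀ i : S, v * star v * (i : A) = 0 := by
      intro i
      have : v * star v * (i : A) = v * star v * (g - E) * (i : A) := by rw [hv']
      rw [this, mul_assoc, sub_mul, le_symm (hq i) hg (hSC.1 i i.2).2.1, hEi, sub_self, mul_zero]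
    have hins : insert (v * star v) S ∈ C := by
      refine ⟨?_, ?_⟩
      · rintro p (rfl | hp')
        · exact ⟨hp, hpg, ⟨v, hv, rfl⟩⟩
        · exact hSC.1 p hp'
      · rintro p (rfl | hp') q (rfl | hq') hpq
        · exact absurd rfl hpq
        · exact hpi ⟨q, hq'⟩
        · exact zero_symm hp (hSC.1 p hp').1 (hpi ⟨p, hp'⟩)
        · exact hSC.2 p hp' q hq' hpq
    have hmem : v * star v ∈ S := hS.2 hins (Set.subset_insert _ _) (Set.mem_insert _ _)
    have h0 : v * star v = 0 := by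
      have := hpi ⟨_, hmem⟩
      rw [← pj_mul hp]; exact this
    have hv0 : star v = 0 := by
      apply (CStarRing.star_mul_self_eq_zero_iff _).1
      rw [star_star]; exact h0
    apply hg0
    rw [← hv, hv0, zero_mul]
  obtain ⟨z, hz, hz1, hz2⟩ := hgc (g - E) g' hr hg'
  have hzg0 : z * g' ≠ 0 := by
    intro h0
    apply hrs
    have h1 : (1 - z) * g' = g' := by rw [sub_mul, one_mul, h0, sub_zero]
    rw [h1] at hz2
    exact sub_trans' hg' (cut_pj hz.compl hr) hr hz2
      (sub_of_le' (cut_pj hz.compl hr) (cut_le_self hz.compl hr))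
  have hE' := isSup_cut hz hEc
  have hzq : ∀ i : S, PJ (z * (i : A)) := fun i => cut_pj hz (hq i)
  have hzo : ∀ i j : S, i ≠ j → z * (i : A) * (z * (j : A)) = 0 := fun i j hij =>
    cut_orth hz (ho i j hij)
  refine ⟨z, S, fun i => z * (i : A), z * E, hz, hzg0, ?_, hzq, hzo,
    fun i => cut_le hz (hSC.1 i i.2).2.1, fun i => cut_eqv hz (hSC.1 i i.2).2.2, hE',
    by rw [← mul_sub]; exact hz1⟩
  by_contra hfin
  rw [not_infinite_iff_finite] at hfin
  haveI : Fintype S := Fintype.ofFinite S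
  have hsum : z * E = ∑ i : S, z * (i : A) := sup_fin (fun i : S => z * (i : A)) hzq hzo hE'
  have hzg' : PJ (z * g') := cut_pj hz hg'
  have hzh : Half (z * g') := half_cut hz hi'
  have hsE : Sub (z * E) (z * g') := by
    rw [hsum]
    refine half_sub_sum hzg' hzh Finset.univ (fun i : S => z * (i : A)) hzq hzo ?_
    intro i
    obtain ⟨v, hv, hv'⟩ := cut_eqv hz (hSC.1 i i.2).2.2
    refine ⟨star v, ?_, ?_⟩
    · rw [star_star, hv']
    · rw [star_star, hv, pj_mul hzg']
  apply hns z hz hzg0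
  have := half_sub_add hzg' hzh (cut_pj hz hr) (cut_pj hz hE1)
    (cut_orth hz (by rw [sub_mul, hgE, pj_mul hE1, sub_self])) hz1 hsE
  rwa [← mul_add, sub_add_cancel] at this

end one

/-- minimality: each halvable subprojection dominates `p` on a central piece. -/
def StarP (p : A) : Prop := ∀ e : A, PJ e → Le e p → e ≠ 0 → Half e →
  ∃ z : A, CP z ∧ z * e ≠ 0 ∧ Sub (z * p) (z * e)

/-- the pairs and families which are compared. -/
def Pr (r : A) (κ : Cardinal.{u}) : Prop := ∃ (p e : A) (ι : Type u) (q : ι → A) (E : A),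
  PJ p ∧ Le p r ∧ PJ e ∧ Le e p ∧ e ≠ 0 ∧ Half e ∧
  (∀ z : A, CP z → z * e ≠ 0 → ¬ Sub (z * p) (z * e)) ∧ Infinite ι ∧ (∀ i, PJ (q i)) ∧
  (∀ i j, i ≠ j → q i * q j = 0) ∧ (∀ i, Le (q i) p) ∧ (∀ i, Eqv e (q i)) ∧ IsSup q E ∧
  Sub (p - E) e ∧ Cardinal.mk ι = κ

theorem exists_star (hSup : PSup A) (hgc : PGC A) (hW2 : PW2 A) {r : A} (hr : PJ r)
    (h0 : r ≠ 0) (hh : Half r) : ∃ p : A, PJ p ∧ Le p r ∧ p ≠ 0 ∧ Half p ∧ StarP p := by
  by_contra hcon
  have hneg : ∀ p : A, PJ p → Le p r → p ≠ 0 → Half p → ∃ e : A, PJ e ∧ Le e p ∧ e ≠ 0 ∧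
      Half e ∧ ∀ z : A, CP z → z * e ≠ 0 → ¬ Sub (z * p) (z * e) := by
    intro p hp hpr hp0 hph
    by_contra hc
    apply hcon
    refine ⟨p, hp, hpr, hp0, hph, ?_⟩
    intro e he hep he0 heh
    by_contra hc2
    apply hc
    refine ⟨e, he, hep, he0, heh, ?_⟩
    intro z hz hze hs
    exact hc2 ⟨z, hz, hze, hs⟩
  have mk : ∀ p e : A, PJ p → Le p r → PJ e → Le e p → e ≠ 0 → Half e →
      (∀ z : A, CP z → z * e ≠ 0 → ¬ Sub (z * p) (z * e)) →
      ∃ (z : A) (ι : Type u) (q : ι → A) (E : A), CP z ∧ z * e ≠ 0 ∧ Infinite ι ∧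
        (∀ i, PJ (q i)) ∧ (∀ i j, i ≠ j → q i * q j = 0) ∧ (∀ i, Le (q i) (z * p)) ∧
        (∀ i, Eqv (z * e) (q i)) ∧ IsSup q E ∧ Sub (z * p - E) (z * e) ∧
        Pr r (Cardinal.mk ι) := by
    intro p e hp hpr he hep he0 heh hns
    obtain ⟨z, ι, q, E, hz, hze, h1, h2, h3, h4, h5, h6, h7⟩ := w1_local hSup hgc hp he heh he0 hns
    refine ⟨z, ι, q, E, hz, hze, h1, h2, h3, h4, h5, h6, h7, z * p, z * e, ι, q, E,
      cut_pj hz hp, le_trans' (cut_le_self hz hp) hpr, cut_pj hz he, cut_le hz hep, hze,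
      half_cut hz heh, ?_, h1, h2, h3, h4, h5, h6, h7, rfl⟩
    intro w hw hwze hs
    rw [← mul_assoc] at hwze
    rw [← mul_assoc, ← mul_assoc] at hs
    exact hns _ (hw.mul hz) hwze hs
  obtain ⟨e0, he0, he0r, he00, he0h, hns0⟩ := hneg r hr (le_refl' hr) h0 hh
  obtain ⟨z0, ι0, q0, E0, -, -, -, -, -, -, -, -, -, hP0⟩ :=
    mk r e0 hr (le_refl' hr) he0 he0r he00 he0h hns0
  have hne : {κ : Cardinal.{u} | Pr r κ}.Nonempty := ⟨_, hP0⟩
  have hmin := Cardinal.lt_wf.min_mem _ hne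
  have hle : ∀ κ, Pr r κ → Cardinal.lt_wf.min _ hne ≤ κ := fun κ hκ =>
    not_lt.1 (Cardinal.lt_wf.not_lt_min _ hκ)
  obtain ⟨p, e, ι, q, E, hp, hpr, he, hep, hee0, heh, hns, hι, hq, ho, hqp, heq, hE, hsub, hκ⟩ :=
    hmin
  rw [← hκ] at hle
  obtain ⟨e2, he2, he2e, he20, he2h, hns2⟩ := hneg e he (le_trans' hep hpr) hee0 heh
  obtain ⟨z, ι', q', E', hz, hze2, hι', hq', ho', hq'e, he2q, hE', hsub', hP'⟩ :=
    mk e e2 he (le_trans' hep hpr) he2 he2e he20 he2h hns2
  have hcard := hle _ hP'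
  have hze : z * e ≠ 0 := by
    intro h
    apply hze2
    have h1 : e2 * e = e2 := he2e
    calc z * e2 = z * (e2 * e) := by rw [h1]
      _ = e2 * (z * e) := by rw [mul_cut hz]
      _ = 0 := by rw [h, mul_zero]
  apply hns z hz hze
  refine hW2 (z * p) (z * e) (z * e2) ι ι' (fun i => z * q i) (z * E) q' E' (cut_pj hz hp)
    (cut_pj hz he) (cut_pj hz he2) hι hι' (fun i => cut_pj hz (hq i))
    (fun i j hij => cut_orth hz (ho i j hij)) (fun i => cut_le hz (hqp i))
    (fun i => cut_eqv hz (heq i)) (isSup_cut hz hE) (by rw [← mul_sub]; exact cut_sub hz hsub)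
    hq' ho' hq'e he2q hE' hsub' hcard

end Pool.Agent.L0h87.CL2
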