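import Pool.Agent.L0h87.CL2.BSum
import Pool.Agent.L0h87.CL2.MainL
import Pool.Agent.L0h87.CL2.W1L
import Pool.Agent.L0h87.CL2.Hull
import Pool.Agent.R456.CL.Add
import Pool.Agent.R456.CL.LR
import Pool.Agent.R456.CL.SB

/-!
# Algebras with a properly infinite unit
-/

set_option autoImplicit false

namespace Pool.Agent.L0h87.CL2

open Pool.Agent.R456.CL

universe u

section add

open Pool.Agent.R456.CL.Add (mul_init final_mul pj_conj conj_mul conj_range conj_range' conj_back
  isSup_conj)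

/-- additivity, from two isometries with orthogonal ranges (adapted from
`Pool.Agent.R456.CL.Add`). -/
theorem add_of_iso {A : Type u} [CStarAlgebra A] {v₁ v₂ : A} (h1 : star v₁ * v₁ = 1)
    (h2 : star v₂ * v₂ = 1) (h12 : star v₁ * v₂ = 0) (hAO : PAddO A) : PAdd A := by
  intro ι w E F hpj ho1 ho2 hE hF
  have hi : ∀ i, star (v₂ * w i * star v₁) * (v₂ * w i * star v₁)
      = v₁ * (star (w i) * w i) * star v₁ := by
    intro i
    calc star (v₂ * w i * star v₁) * (v₂ * w i * star v₁)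
        = v₁ * (star (w i) * (star v₂ * v₂) * w i) * star v₁ := by
          rw [star_mul, star_mul, star_star]; noncomm_ring
      _ = _ := by rw [h2, mul_one]
  have hf : ∀ i, (v₂ * w i * star v₁) * star (v₂ * w i * star v₁)
      = v₂ * (w i * star (w i)) * star v₂ := by
    intro i
    calc (v₂ * w i * star v₁) * star (v₂ * w i * star v₁)
        = v₂ * (w i * (star v₁ * v₁) * star (w i)) * star v₂ := by
          rw [star_mul, star_mul, star_star]; noncomm_ring
      _ = _ := by rw [h1, mul_one]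
  obtain ⟨v, hv1, hv2, hv3⟩ := hAO ι (fun i => v₂ * w i * star v₁) (v₁ * E * star v₁)
    (v₂ * F * star v₂)
    (fun i => by
      change PJ (star (v₂ * w i * star v₁) * (v₂ * w i * star v₁))
      rw [hi]; exact pj_conj h1 (hpj i))
    (fun i j hij => by
      change star (v₂ * w i * star v₁) * (v₂ * w i * star v₁) *
        (star (v₂ * w j * star v₁) * (v₂ * w j * star v₁)) = 0
      rw [hi, hi, conj_mul h1, ho1 i j hij, mul_zero, zero_mul])
    (fun i j hij => by
      change (v₂ * w i * star v₁) * star (v₂ * w i * star v₁) *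
        ((v₂ * w j * star v₁) * star (v₂ * w j * star v₁)) = 0
      rw [hf, hf, conj_mul h2, ho2 i j hij, mul_zero, zero_mul])
    (by
      have := isSup_conj h1 hE
      have e : (fun i => star ((fun i => v₂ * w i * star v₁) i) * (fun i => v₂ * w i * star v₁) i)
          = fun i => v₁ * (star (w i) * w i) * star v₁ := funext hi
      rw [e]; exact this)
    (by
      have := isSup_conj h2 hF
      have e : (fun i => (fun i => v₂ * w i * star v₁) i * star ((fun i => v₂ * w i * star v₁) i))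
          = fun i => v₂ * (w i * star (w i)) * star v₂ := funext hf
      rw [e]; exact this)
    (by
      calc v₁ * E * star v₁ * (v₂ * F * star v₂)
          = v₁ * E * (star v₁ * v₂) * F * star v₂ := by noncomm_ring
        _ = 0 := by rw [h12]; simp)
  have hpv : PJ (star v * v) := by rw [hv1]; exact pj_conj h1 hE.1
  have hv4 : v₂ * star v₂ * v = v := by
    calc v₂ * star v₂ * v = v₂ * star v₂ * ((v * star v) * v) := by rw [final_mul hpv]
      _ = (v₂ * star v₂ * (v * star v)) * v := by noncomm_ring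
      _ = (v * star v) * v := by rw [hv2, conj_range h2]
      _ = v := final_mul hpv
  have hv5 : v * (v₁ * star v₁) = v := by
    calc v * (v₁ * star v₁) = (v * (star v * v)) * (v₁ * star v₁) := by rw [mul_init hpv]
      _ = v * ((star v * v) * (v₁ * star v₁)) := by noncomm_ring
      _ = v * (star v * v) := by rw [hv1, conj_range' h1]
      _ = v := mul_init hpv
  refine ⟨star v₂ * v * v₁, ?_, ?_, fun i => ?_⟩
  · calc star (star v₂ * v * v₁) * (star v₂ * v * v₁)
        = star v₁ * (star v * (v₂ * star v₂ * v)) * v₁ := by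
          rw [star_mul, star_mul, star_star]; noncomm_ring
      _ = star v₁ * (v₁ * E * star v₁) * v₁ := by rw [hv4, hv1]
      _ = E := conj_back h1
  · calc star v₂ * v * v₁ * star (star v₂ * v * v₁)
        = star v₂ * ((v * (v₁ * star v₁)) * star v) * v₂ := by
          rw [star_mul, star_mul, star_star]; noncomm_ring
      _ = star v₂ * (v₂ * F * star v₂) * v₂ := by rw [hv5, hv2]
      _ = F := conj_back h2
  · have h3 : v * (v₁ * (star (w i) * w i) * star v₁) = v₂ * w i * star v₁ := by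
      have := hv3 i
      change v * (star (v₂ * w i * star v₁) * (v₂ * w i * star v₁)) = v₂ * w i * star v₁ at this
      rwa [hi] at this
    calc star v₂ * v * v₁ * (star (w i) * w i)
        = star v₂ * v * v₁ * (star (w i) * w i) * (star v₁ * v₁) := by rw [h1, mul_one]
      _ = star v₂ * (v * (v₁ * (star (w i) * w i) * star v₁)) * v₁ := by noncomm_ring
      _ = star v₂ * (v₂ * w i * star v₁) * v₁ := by rw [h3]
      _ = (star v₂ * v₂) * w i * (star v₁ * v₁) := by noncomm_ring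
      _ = w i := by rw [h1, h2, one_mul, mul_one]

end add

variable {A : Type u} [CStarAlgebra A]

lemma starQ_of_starP (hP : PSup A) (hAO : PAddO A) (hgc : PGC A) {p q : A} (hp : PJ p)
    (hq : PJ q) (hqp : Eqv q p) (h : StarP p) : StarQ q := by
  intro e he heq hi
  obtain ⟨z1, hz1, hz10, hz1h⟩ := half_local hP hAO hgc he hi
  obtain ⟨u, u1, u2⟩ := hqp
  have hpu : p * u = u := pi_left hq u1 u2
  have huq : u * q = u := pi_right hq u1
  have hup : star u * p = star u := star_absorb_left hp hpu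
  have hqu : q * star u = star u := star_absorb_right hq huq
  have heq' : e * q = e := heq
  have hqe : q * e = e := heq.rev he hq
  -- the copy of `z1 e` in `p`
  obtain ⟨f, hf⟩ : ∃ f, f = z1 * e := ⟨_, rfl⟩
  rw [← hf] at hz10 hz1h
  have hfp : PJ f := by rw [hf]; exact cut_pj hz1 he
  have hqf : q * f = f := by rw [hf, mul_cut hz1, hqe]
  have hfq : f * q = f := by rw [hf, mul_assoc, heq']
  have hff := PJ.mul_self hfp
  have w1 : star (u * f) * (u * f) = f := by
    rw [star_mul, PJ.star hfp]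
    calc f * star u * (u * f) = f * ((star u * u) * f) := by simp only [mul_assoc]
      _ = f := by rw [u1, hqf, hff]
  obtain ⟨e', he'⟩ : ∃ e', e' = (u * f) * star (u * f) := ⟨_, rfl⟩
  have he'p : PJ e' := by rw [he']; exact pi_final hfp w1
  have hfe' : Eqv f e' := ⟨u * f, w1, he'.symm⟩
  have hpuf : p * (u * f) = u * f := by rw [← mul_assoc, hpu]
  have hle : Le e' p := by
    show e' * p = e'
    rw [he', mul_assoc, star_absorb_left hp hpuf]
  have he'0 : e' ≠ 0 := fun h0 => hz10 (eqv_zero hfe' h0)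
  obtain ⟨z2, hz2, hz20, hz21⟩ := h e' he'p hle he'0 (half_eqv hfp he'p hfe' hz1h)
  have s1 : Sub (z2 * q) (z2 * f) := by
    refine sub_trans' (cut_pj hz2 hq) (cut_pj hz2 hp) (cut_pj hz2 hfp)
      (sub_of_eqv (cut_pj hz2 hp) (cut_eqv hz2 ⟨u, u1, u2⟩)) ?_
    exact sub_trans' (cut_pj hz2 hp) (cut_pj hz2 he'p) (cut_pj hz2 hfp) hz21
      (sub_of_eqv (cut_pj hz2 hfp) (cut_eqv hz2 (eqv_symm hfe')))
  refine ⟨z1 * z2, hz1.mul hz2, ?_, ?_⟩
  · intro h0
    apply hz20
    have h1 : z2 * f = 0 := by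
      have h2 : z2 * f = z1 * z2 * e := by
        rw [hf, ← mul_assoc, hz1.2 z2]
      have h3 : z1 * z2 * e = e * (z1 * z2 * q) := by
        rw [mul_cut (hz1.mul hz2), heq']
      rw [h2, h3, h0, mul_zero]
    have h4 : Eqv (z2 * e') (z2 * f) := eqv_symm (cut_eqv hz2 hfe')
    exact eqv_zero h4 h1
  · have h1 := cut_sub hz1 s1
    have e1 : z1 * (z2 * f) = z1 * z2 * e := by
      rw [hf, mul_cut hz1, ← mul_assoc, PJ.mul_self hz1.1, mul_assoc]
    rw [e1, ← mul_assoc] at h1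
    exact h1

lemma inv_bound {h y d : A} {c : ℂ} (hh : PJ h) (hy2 : y * h = y) (hc : 1 / 2 ≤ ‖c‖)
    (hd : ‖d‖ ≤ 1 / 4) (h3 : y * (c • h + d) = h) : ‖y‖ ≤ 4 := by
  have h1 : c • y = h - y * d := by
    rw [mul_add, mul_smul_comm, hy2] at h3
    rw [← h3]; abel
  have h2 : ‖c‖ * ‖y‖ ≤ 1 + ‖y‖ * (1 / 4) := by
    rw [← norm_smul, h1]
    refine (norm_sub_le _ _).trans (add_le_add (pj_norm_le hh) ?_)
    exact (norm_mul_le _ _).trans (by gcongr)
  have h4 : 1 / 2 * ‖y‖ ≤ ‖c‖ * ‖y‖ := by gcongr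
  linarith

/-- case (B) with a finite corner, with a uniform bound. -/
theorem caseB_unif (hC : PCutU A) (hF : PFinC A) (M : ℝ) : ∃ C : ℝ, ∀ (g k T : A) (c : ℂ),
    PJ g → PJ k → Le k g → ¬ Infin k → g * T = T → T * g = T →
    ‖(g - k) * (T - c • g) * (g - k)‖ ≤ 1 / 4 → ‖T‖ ≤ M → CleanC C g T := by
  obtain ⟨C, hCb⟩ := blocks_unif hC hF M 4
  refine ⟨C, ?_⟩
  intro g k T c hg hk hkg hfin hT1 hT2 hn hTM
  obtain ⟨h, hh⟩ : ∃ h, h = g - k := ⟨_, rfl⟩
  have hph : PJ h := by rw [hh]; exact pj_sub hk hg hkg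
  have hhh := PJ.mul_self hph
  have hgh : g * h = h := by
    rw [hh, mul_sub, PJ.mul_self hg, hkg.rev hk hg]
  obtain ⟨d, hd⟩ : ∃ d, d = h * (T - c • g) * h := ⟨_, rfl⟩
  rw [← hh, ← hd] at hn
  have hd' : h * T * h = c • h + d := by
    rw [hd, mul_sub, sub_mul, mul_smul_comm, smul_mul_assoc, mul_assoc h g h, hgh, hhh]; abel
  have hd1 : h * d = d := by rw [hd]; simp only [← mul_assoc, hhh]
  have hd2 : d * h = d := by rw [hd]; simp only [mul_assoc, hhh]
  by_cases hc : 1 / 2 ≤ ‖c‖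
  · obtain ⟨_, _, y, hy1, hy2, hy3, hy4⟩ := iso_scalar hph hd1 hd2 (c := c) (by linarith)
    refine hCb g k T 0 y hg hk hkg hfin hT1 hT2 (by simp) (by simp) (by simp)
      (by rw [← hh]; exact hy1) (by rw [← hh]; exact hy2) ?_ ?_ hTM (by simp)
      (inv_bound hph hy2 hc hn hy3)
    · rw [← hh, hd', sub_zero]; exact hy3
    · rw [← hh, hd', sub_zero]; exact hy4
  · have h1 : (1 : ℝ) / 2 ≤ ‖c - 1‖ := by
      have : ‖(1 : ℂ)‖ ≤ ‖c‖ + ‖c - 1‖ := by
        calc ‖(1 : ℂ)‖ = ‖c - (c - 1)‖ := by congr 1; ring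
          _ ≤ _ := norm_sub_le _ _
      rw [norm_one] at this
      push Not at hc
      linarith
    obtain ⟨_, _, y, hy1, hy2, hy3, hy4⟩ := iso_scalar hph hd1 hd2 (c := c - 1) (by linarith)
    have e : c • h + d - h = (c - 1) • h + d := by rw [sub_smul, one_smul]; abel
    refine hCb g k T h y hg hk hkg hfin hT1 hT2 (by rw [← hh]; exact hhh)
      (by rw [← hh]; exact hhh) hhh (by rw [← hh]; exact hy1) (by rw [← hh]; exact hy2)
      ?_ ?_ hTM (pj_norm_le hph) (inv_bound hph hy2 h1 hn hy3)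
    · rw [← hh, hd', e]; exact hy3
    · rw [← hh, hd', e]; exact hy4

/-- the local statement: each nonzero reducing projection contains a nonzero reducing projection on
which `T` is clean, with a bound that depends only on `‖T‖`. -/
theorem local_piece (hsa : PSa A) (hCU : PCutU A) (hP : PSup A) (hAO : PAddO A) (hgc : PGC A)
    (hAdd : PAdd A) (M : ℝ) (hM : 0 ≤ M) : ∃ C : ℝ, ∀ T : A, ‖T‖ ≤ M → ∀ r : A, PJ r → r ≠ 0 →
    T * r = r * T → ∃ q : A, PJ q ∧ q ≠ 0 ∧ Le q r ∧ T * q = q * T ∧ CleanC C q (T * q) := by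
  have hLR : PLR A := LR.lr_ok A hCU.cut hP hAdd
  have hSB : PSB A := SB.sB_ok A hP
  have hW2 : PW2 A := W2.w2_ok A hP hAdd
  have hFC : PFinC A := finC_ok hgc
  have hFA : PFinAdd A := finAdd_ok hP hAO hgc hLR
  obtain ⟨K, hK⟩ := main_local hsa hCU hLR hFA M hM
  obtain ⟨C1, hC1⟩ := caseA_unif hCU hSB M K
  obtain ⟨C2, hC2⟩ := caseB_unif hCU hFC M
  refine ⟨max C1 C2, ?_⟩
  intro T hTM r hr hr0 hTr
  by_cases hi : Infin r
  · obtain ⟨z, hz, hz0, hzh⟩ := half_local hP hAO hgc hr hi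
    obtain ⟨p, hp, hpr, hp0, hph, hpS⟩ := exists_star hP hgc hW2 (cut_pj hz hr) hz0 hzh
    obtain ⟨q, hq, hpq, hTq, hqp, hmin⟩ := hull hP hAdd hLR hp hph T
    have hTzr : T * (z * r) = z * r * T := by
      rw [mul_cut hz, hTr, mul_assoc]
    have hqzr : Le q (z * r) := hmin _ (cut_pj hz hr) hTzr hpr
    have hqr : Le q r := le_trans' hqzr (cut_le_self hz hr)
    have hqp' : Eqv q p := hSB q p hq hp hqp (sub_of_le' hp hpq)
    have hq0 : q ≠ 0 := by
      rintro rfl
      exact hp0 (by rw [← show p * 0 = p from hpq, mul_zero])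
    have hqh : Half q := half_eqv hp hq (eqv_symm hqp') hph
    have hqS : StarQ q := starQ_of_starP hP hAO hgc hp hq hqp' hpS
    have hqq := PJ.mul_self hq
    have hT1 : q * (T * q) = T * q := by rw [← mul_assoc, ← hTq, mul_assoc, hqq]
    have hT2 : T * q * q = T * q := by rw [mul_assoc, hqq]
    have hTn : ‖T * q‖ ≤ M := by
      calc ‖T * q‖ ≤ ‖T‖ * ‖q‖ := norm_mul_le _ _
        _ ≤ M * 1 := by gcongr; exact pj_norm_le hq
        _ = M := mul_one M
    have piece : ∀ w : A, CP w → w * q ≠ 0 → CleanC (max C1 C2) (w * q) (w * (T * q)) →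
        ∃ q : A, PJ q ∧ q ≠ 0 ∧ Le q r ∧ T * q = q * T ∧ CleanC (max C1 C2) q (T * q) := by
      intro w hw hw0 hcl
      refine ⟨w * q, cut_pj hw hq, hw0, le_trans' (cut_le_self hw hq) hqr, ?_, ?_⟩
      · rw [mul_cut hw, hTq, mul_assoc]
      · rw [mul_cut hw]; exact hcl
    rcases hK q (T * q) hq hqh hq0 hqS hT1 hT2 hTn with
      ⟨w, hw, hw0, e, f, c, he, hf, heg, hfg, hef, hge, hgf, hc1, hc2, hc3, hc4, hcK⟩ |
      ⟨w, k, c, hw, hw0, hk, hkg, hkf, hn⟩
    · refine piece w hw hw0 (CleanC.mono ?_ (le_max_left _ _))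
      exact hC1 (w * q) (w * (T * q)) e f c (cut_pj hw hq) (half_cut hw hqh)
        (by rw [cut_mul hw, hT1]) (by rw [cut_mul hw, hT2]) he hf heg hfg hef hge hgf hc1 hc2 hc3
        hc4 ((cut_norm hw).trans hTn) hcK
    · refine piece w hw hw0 (CleanC.mono ?_ (le_max_right _ _))
      exact hC2 (w * q) k (w * (T * q)) c (cut_pj hw hq) hk hkg hkf
        (by rw [cut_mul hw, hT1]) (by rw [cut_mul hw, hT2]) hn ((cut_norm hw).trans hTn)
  · have hrr := PJ.mul_self hr
    refine ⟨r, hr, hr0, le_refl' hr, hTr, CleanC.mono ?_ (le_max_right _ _)⟩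
    refine hC2 r r (T * r) 0 hr hr (le_refl' hr) hi
      (by rw [← mul_assoc, ← hTr, mul_assoc, hrr]) (by rw [mul_assoc, hrr]) (by simp) ?_
    calc ‖T * r‖ ≤ ‖T‖ * ‖r‖ := norm_mul_le _ _
      _ ≤ M * 1 := by gcongr; exact pj_norm_le hr
      _ = M := mul_one M

/-- the properly infinite case. -/
theorem clean_PI (hsa : PSa A) (hCU : PCutU A) (hP : PSup A) (hAO : PAddO A) (hgc : PGC A)
    (hAdd : PAdd A) (T : A) : CleanIn 1 T := by
  classical
  obtain ⟨C, hC⟩ := local_piece hsa hCU hP hAO hgc hAdd ‖T‖ (norm_nonneg T)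
  let Fam : Set (Set A) := {F | (∀ q ∈ F, PJ q ∧ q ≠ 0 ∧ T * q = q * T ∧ CleanC C q (T * q)) ∧
    ∀ q ∈ F, ∀ q' ∈ F, q ≠ q' → q * q' = 0}
  obtain ⟨F, hF⟩ : ∃ F, Maximal (· ∈ Fam) F := by
    refine zorn_subset Fam ?_
    intro c hc hchain
    refine ⟨⋃₀ c, ⟨?_, ?_⟩, fun s hs => Set.subset_sUnion_of_mem hs⟩
    · rintro p ⟨s, hs, hps⟩
      exact (hc hs).1 p hps
    · rintro p ⟨s, hs, hps⟩ q ⟨t, ht, hqt⟩ hpq
      rcases hchain.total hs ht with h | h
      · exact (hc ht).2 p (h hps) q hqt hpq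
      · exact (hc hs).2 p hps q (h hqt) hpq
  obtain ⟨hF1, hF2⟩ := hF.prop
  obtain ⟨Q, hQ⟩ := hP F (fun i => i.1) (fun i => (hF1 i.1 i.2).1)
  obtain ⟨hTQ, hcl⟩ := clean_sup hAdd (q := fun i : F => i.1) (T := T) (C := C)
    (fun i => (hF1 i.1 i.2).1) (fun i j hij => hF2 i.1 i.2 j.1 j.2 (fun h => hij (Subtype.ext h)))
    hQ (fun i => (hF1 i.1 i.2).2.2.1) (fun i => (hF1 i.1 i.2).2.2.2)
  by_cases hQ1 : (1 : A) - Q = 0
  · have : Q = 1 := (sub_eq_zero.1 hQ1).symm
    rw [this, mul_one] at hcl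
    exact hcl
  · exfalso
    have hr : PJ (1 - Q) := hQ.1.one_sub
    obtain ⟨q, hq, hq0, hqr, hTq, hqC⟩ := hC T le_rfl (1 - Q) hr hQ1
      (by rw [mul_sub, sub_mul, hTQ]; simp)
    have hqQ : q * Q = 0 := by
      have h1 : q * (1 - Q) = q := hqr
      rw [← h1, mul_assoc, sub_mul, one_mul, PJ.mul_self hQ.1, sub_self, mul_zero]
    have hqi : ∀ i ∈ F, q * i = 0 := by
      intro i hi
      rw [← Le.rev (hF1 i hi).1 hQ.1 (hQ.2.1 ⟨i, hi⟩), ← mul_assoc, hqQ, zero_mul]
    have hnot : q ∉ F := by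
      intro h
      apply hq0
      rw [← PJ.mul_self hq]; exact hqi q h
    have hins : insert q F ∈ Fam := by
      refine ⟨?_, ?_⟩
      · rintro p (rfl | hp)
        · exact ⟨hq, hq0, hTq, hqC⟩
        · exact hF1 p hp
      · rintro p (rfl | hp) p' (rfl | hp') hne
        · exact absurd rfl hne
        · exact hqi p' hp'
        · exact orth_comm hq (hF1 p hp).1 (hqi p hp)
        · exact hF2 p hp p' hp' hne
    exact hnot (hF.le_of_ge hins (Set.subset_insert _ _) (Set.mem_insert _ _))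

end Pool.Agent.L0h87.CL2
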