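import Pool.Agent.L0h87.CL2.CaseAH
import Pool.Agent.L0h87.CL2.CutU
import Pool.Agent.R456.CL.CaseB

/-!
# Uniform bounds by means of the algebra of bounded sequences
-/

set_option autoImplicit false

namespace Pool.Agent.L0h87.CL2

open Pool.Agent.R456.CL
open scoped BoundedContinuousFunction

universe u

variable {A : Type u} [CStarAlgebra A]

/-- a bounded sequence. -/
noncomputable def bs (x : ℕ → A) (C : ℝ) (h : ∀ n, ‖x n‖ ≤ C) : ℕ →ᵇ A :=
  BoundedContinuousFunction.ofNormedAddCommGroupDiscrete x C h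

@[simp] lemma bs_apply (x : ℕ → A) (C : ℝ) (h : ∀ n, ‖x n‖ ≤ C) (n : ℕ) : bs x C h n = x n := rfl

lemma pj_prod {p : ℕ →ᵇ A} : PJ p ↔ ∀ n, PJ (p n) := by
  constructor
  · intro h n
    refine pj_mk ?_ ?_
    · have := congrArg (fun f : ℕ →ᵇ A => f n) (PJ.mul_self h)
      simpa using this
    · have := congrArg (fun f : ℕ →ᵇ A => f n) (PJ.star h)
      simpa using this
  · intro h
    refine pj_mk ?_ ?_
    · ext n; simpa using PJ.mul_self (h n)
    · ext n; simpa using PJ.star (h n)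

lemma eq_at {x y : ℕ →ᵇ A} (h : x = y) (n : ℕ) : x n = y n := by rw [h]

lemma norm_at (x : ℕ →ᵇ A) (n : ℕ) : ‖x n‖ ≤ ‖x‖ := x.norm_coe_le_norm n

theorem cut_prod (hC : PCutU A) : PCut (ℕ →ᵇ A) := by
  intro x ε hε
  obtain ⟨K, hK, hKx⟩ := hC ε hε
  choose k s h1 h2 h3 h4 h5 h6 h7 h8 h9 h10 using fun n => hKx (x n)
  refine ⟨bs k 1 (fun n => pj_norm_le (h1 n)), bs s K h10, pj_prod.2 h1, ?_, ?_, ?_, ?_, ?_, ?_,
    ?_, ?_⟩
  · ext n; simpa using h2 n
  · ext n; simpa using h3 n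
  · ext n; simpa using h4 n
  · ext n; simpa using h5 n
  · ext n; simpa using h6 n
  · ext n; simpa using h7 n
  · ext n; simpa using h8 n
  · rw [BoundedContinuousFunction.norm_le hε.le]
    intro n; simpa using h9 n

theorem sB_prod (hS : PSB A) : PSB (ℕ →ᵇ A) := by
  intro e f he hf h1 h2
  rw [pj_prod] at he hf
  obtain ⟨v, hv1, hv2⟩ := h1
  obtain ⟨w, hw1, hw2⟩ := h2
  have key : ∀ n, Eqv (e n) (f n) := by
    intro n
    refine hS (e n) (f n) (he n) (hf n) ⟨v n, ?_, ?_⟩ ⟨w n, ?_, ?_⟩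
    · simpa using eq_at hv1 n
    · simpa using eq_at hv2 n
    · simpa using eq_at hw1 n
    · simpa using eq_at hw2 n
  choose u hu1 hu2 using key
  refine ⟨bs u 1 (fun n => pi_norm_le (he n) (hu1 n)), ?_, ?_⟩
  · ext n; simpa using hu1 n
  · ext n; simpa using hu2 n

lemma not_infin_prod {g : ℕ →ᵇ A} (hg : PJ g) (h : ¬ Infin g) (n : ℕ) : ¬ Infin (g n) := by
  classical
  rintro ⟨v, h1, h2, h3⟩
  have hgn := pj_prod.1 hg
  apply h
  refine ⟨bs (fun m => if m = n then v else g m) 1 ?_, ?_, ?_, ?_⟩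
  · intro m
    by_cases hm : m = n
    · subst hm; simpa using pi_norm_le (hgn m) h1
    · simpa [hm] using pj_norm_le (hgn m)
  · ext m
    by_cases hm : m = n
    · subst hm; simpa using h1
    · simp [hm, PJ.star (hgn m), PJ.mul_self (hgn m)]
  · ext m
    by_cases hm : m = n
    · subst hm; simpa using h2
    · simp [hm, PJ.star (hgn m), PJ.mul_self (hgn m)]
  · intro hh
    apply h3
    simpa using eq_at hh n

theorem finC_prod (hF : PFinC A) : PFinC (ℕ →ᵇ A) := by
  intro g k h hg hk hh hkg hhg hfin hkh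
  have hgn := pj_prod.1 hg
  have hkn := pj_prod.1 hk
  have hhn := pj_prod.1 hh
  have hkg' : ∀ n, Le (k n) (g n) := fun n => by simpa [Le] using eq_at (show k * g = k from hkg) n
  have hhg' : ∀ n, Le (h n) (g n) := fun n => by simpa [Le] using eq_at (show h * g = h from hhg) n
  obtain ⟨v, hv1, hv2⟩ := hkh
  have key : ∀ n, Eqv (g n - k n) (g n - h n) := by
    intro n
    refine hF (g n) (k n) (h n) (hgn n) (hkn n) (hhn n) (hkg' n) (hhg' n)
      (not_infin_prod hg hfin n) ⟨v n, ?_, ?_⟩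
    · simpa using eq_at hv1 n
    · simpa using eq_at hv2 n
  choose u hu1 hu2 using key
  refine ⟨bs u 1 (fun n => pi_norm_le (pj_sub (hkn n) (hgn n) (hkg' n)) (hu1 n)), ?_, ?_⟩
  · ext n; simpa using hu1 n
  · ext n; simpa using hu2 n

/-- clean in the corner of `g`, with a bound. -/
def CleanC (C : ℝ) (g T : A) : Prop :=
  ∃ P y : A, g * P = P ∧ P * g = P ∧ P * P = P ∧ g * y = y ∧ y * g = y ∧ y * (T - P) = g ∧
    (T - P) * y = g ∧ ‖P‖ ≤ C ∧ ‖y‖ ≤ C

lemma CleanC.mono {C D : ℝ} {g T : A} (h : CleanC C g T) (hCD : C ≤ D) : CleanC D g T := by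
  obtain ⟨P, y, h1, h2, h3, h4, h5, h6, h7, h8, h9⟩ := h
  exact ⟨P, y, h1, h2, h3, h4, h5, h6, h7, h8.trans hCD, h9.trans hCD⟩

lemma CleanC.clean {C : ℝ} {g T : A} (hT1 : g * T = T) (hT2 : T * g = T) (h : CleanC C g T) :
    CleanIn g T := by
  obtain ⟨P, y, h1, h2, h3, h4, h5, h6, h7, h8, h9⟩ := h
  exact ⟨P, h1, h2, h3, by rw [mul_sub, hT1, h1], by rw [sub_mul, hT2, h2], y, h4, h5, h6, h7⟩

lemma cleanC_of_prod {g T : ℕ →ᵇ A} (h : CleanIn g T) : ∃ C : ℝ, ∀ n, CleanC C (g n) (T n) := by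
  obtain ⟨P, h1, h2, h3, h4, h5, y, h6, h7, h8, h9⟩ := h
  refine ⟨max ‖P‖ ‖y‖, fun n => ⟨P n, y n, ?_, ?_, ?_, ?_, ?_, ?_, ?_,
    (norm_at P n).trans (le_max_left _ _), (norm_at y n).trans (le_max_right _ _)⟩⟩
  · simpa using eq_at h1 n
  · simpa using eq_at h2 n
  · simpa using eq_at h3 n
  · simpa using eq_at h6 n
  · simpa using eq_at h7 n
  · simpa using eq_at h8 n
  · simpa using eq_at h9 n

lemma not_cleanC_contra {g T : ℕ → A} {D : ℝ} (hn : ∀ n : ℕ, ¬ CleanC (n : ℝ) (g n) (T n))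
    (hc : ∀ n, CleanC D (g n) (T n)) : False := by
  obtain ⟨n, hn'⟩ := exists_nat_ge D
  exact hn n ((hc n).mono hn')

/-- case (A), with a uniform bound. -/
theorem caseA_unif (hC : PCutU A) (hS : PSB A) (M K : ℝ) : ∃ C : ℝ, ∀ g T e f c : A,
    PJ g → Half g → g * T = T → T * g = T → PJ e → PJ f → Le e g → Le f g → e * f = 0 →
    Eqv g e → Eqv g f → e * c = c → c * f = c → c * (f * T * e) = e → (f * T * e) * c = f →
    ‖T‖ ≤ M → ‖c‖ ≤ K → CleanC C g T := by
  by_contra hcon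
  push Not at hcon
  choose g T e f c hg hh hT1 hT2 he hf heg hfg hef hge hgf hc1 hc2 hc3 hc4 hTM hcK hn using
    fun n : ℕ => hcon n
  have hh' := fun n => (half_iff (hg n)).1 (hh n)
  choose v1 v2 a1 b1 h12 g1 g2 using hh'
  choose w1 w11 w12 using hge
  choose w2 w21 w22 using hgf
  have hclean : CleanIn (bs g 1 (fun n => pj_norm_le (hg n))) (bs T M hTM) := by
    refine caseA' (e := bs e 1 (fun n => pj_norm_le (he n)))
      (f := bs f 1 (fun n => pj_norm_le (hf n))) (cut_prod hC) (sB_prod hS) (pj_prod.2 hg) ?_ ?_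
      ?_ (pj_prod.2 he) (pj_prod.2 hf) ?_ ?_ ?_ ?_ ?_ ?_
    · rw [half_iff (pj_prod.2 hg)]
      refine ⟨bs v1 1 (fun n => pi_norm_le (hg n) (a1 n)),
        bs v2 1 (fun n => pi_norm_le (hg n) (b1 n)), ?_, ?_, ?_, ?_, ?_⟩
      · ext n; simpa using a1 n
      · ext n; simpa using b1 n
      · ext n; simpa using h12 n
      · ext n; simpa using g1 n
      · ext n; simpa using g2 n
    · ext n; simpa using hT1 n
    · ext n; simpa using hT2 n
    · show _ * _ = _
      ext n; simpa [Le] using heg n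
    · show _ * _ = _
      ext n; simpa [Le] using hfg n
    · ext n; simpa using hef n
    · refine ⟨bs w1 1 (fun n => pi_norm_le (hg n) (w11 n)), ?_, ?_⟩
      · ext n; simpa using w11 n
      · ext n; simpa using w12 n
    · refine ⟨bs w2 1 (fun n => pi_norm_le (hg n) (w21 n)), ?_, ?_⟩
      · ext n; simpa using w21 n
      · ext n; simpa using w22 n
    · refine ⟨?_, ?_, bs c K hcK, ?_, ?_, ?_, ?_⟩
      · ext n; simp [← mul_assoc, PJ.mul_self (hf n)]
      · ext n; simp [mul_assoc, PJ.mul_self (he n)]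
      · ext n; simpa using hc1 n
      · ext n; simpa using hc2 n
      · ext n; simpa using hc3 n
      · ext n; simpa using hc4 n
  obtain ⟨C, hC'⟩ := cleanC_of_prod hclean
  exact not_cleanC_contra hn (fun n => by simpa using hC' n)

/-- reduction to a finite corner, with a uniform bound. -/
theorem blocks_unif (hC : PCutU A) (hF : PFinC A) (M K : ℝ) : ∃ C : ℝ, ∀ g k T p c : A,
    PJ g → PJ k → Le k g → ¬ Infin k → g * T = T → T * g = T → (g - k) * p = p →
    p * (g - k) = p → p * p = p → (g - k) * c = c → c * (g - k) = c →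
    c * ((g - k) * T * (g - k) - p) = g - k → ((g - k) * T * (g - k) - p) * c = g - k →
    ‖T‖ ≤ M → ‖p‖ ≤ 1 → ‖c‖ ≤ K → CleanC C g T := by
  by_contra hcon
  push Not at hcon
  choose g k T p c hg hk hkg hfin hT1 hT2 hp1 hp2 hp3 hc1 hc2 hc3 hc4 hTM hpn hcK hn using
    fun n : ℕ => hcon n
  have hkfin : ¬ Infin (bs k 1 (fun n => pj_norm_le (hk n))) := by
    rintro ⟨v, h1, h2, h3⟩
    apply h3
    ext n
    by_contra hne
    exact hfin n ⟨v n, by simpa using eq_at h1 n, by simpa using eq_at h2 n, by simpa using hne⟩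
  have hclean : CleanIn (bs g 1 (fun n => pj_norm_le (hg n))) (bs T M hTM) := by
    refine clean_blocks (k := bs k 1 (fun n => pj_norm_le (hk n))) (p := bs p 1 hpn)
      (c := bs c K hcK) (pj_prod.2 hg) (pj_prod.2 hk) ?_ ?_ ?_ ?_ ?_ ?_ ?_ ?_ ?_ ?_
      (fun T' h1 h2 => fin_ok' (cut_prod hC) (finC_prod hF) (pj_prod.2 hk) hkfin h1 h2)
    · show _ * _ = _
      ext n; simpa [Le] using hkg n
    · ext n; simpa using hT1 n
    · ext n; simpa using hT2 n
    · ext n; simpa using hp1 n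
    · ext n; simpa using hp2 n
    · ext n; simpa using hp3 n
    · ext n; simpa using hc1 n
    · ext n; simpa using hc2 n
    · ext n; simpa using hc3 n
    · ext n; simpa using hc4 n
  obtain ⟨C, hC'⟩ := cleanC_of_prod hclean
  exact not_cleanC_contra hn (fun n => by simpa using hC' n)

end Pool.Agent.L0h87.CL2
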